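import Mathlib

set_option autoImplicit false

/-!
Basic definitions for the embedding of partial semisymmetric quasigroups.

`T : X → X → X → Prop` is a set of ordered triples; `T x y z` means `x * y = z`.
-/

namespace Pool.Agent.Helper40.SSQ

open Finset

/-- Closed under rotation, and the first two entries determine the third. -/
structure PSS {X : Type} (T : X → X → X → Prop) : Prop where
  rot : ∀ x y z, T x y z → T y z x
  func : ∀ x y z z', T x y z → T x y z' → z = z'

/-- The ordered pairs covered by `T`. -/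
def Dom {X : Type} (T : X → X → X → Prop) (x y : X) : Prop := ∃ z, T x y z

open Classical in
/-- The indicator of a proposition. -/
noncomputable def b2n (p : Prop) : ℕ := if p then 1 else 0

/-- The number of `w` with `p w`. -/
noncomputable def cnt {W : Type} [Fintype W] (p : W → Prop) : ℕ := ∑ w, b2n (p w)

/-- The sum of `g` over the `w` with `A w`. -/
noncomputable def sumOn {W : Type} [Fintype W] (A : W → Prop) (g : W → ℕ) : ℕ :=
  ∑ w, b2n (A w) * g w

/-- Out-degree. -/
noncomputable def outd {W : Type} [Fintype W] (N : W → W → Prop) (x : W) : ℕ :=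
  cnt (fun y => N x y)

/-- In-degree. -/
noncomputable def indg {W : Type} [Fintype W] (N : W → W → Prop) (y : W) : ℕ :=
  cnt (fun x => N x y)

/-- The pairs to be covered when the colours `C` are added to `W`: the arcs of `N` and all the
pairs with at least one colour. -/
def G {W : Type} (C : Type) (N : W → W → Prop) : (W ⊕ C) → (W ⊕ C) → Prop
  | .inl u, .inl v => N u v
  | .inl _, .inr _ => True
  | .inr _, .inl _ => True
  | .inr _, .inr _ => True

/-- `N` can be completed with the colours `C`. -/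
def Good {W : Type} (N : W → W → Prop) (C : Type) : Prop :=
  ∃ T : (W ⊕ C) → (W ⊕ C) → (W ⊕ C) → Prop, PSS T ∧ ∀ x y, Dom T x y ↔ G C N x y

/-- `N` can be completed with the colours `C` so that the arc `f` gets a colour that is
idempotent. -/
def Compl {W : Type} (N : W → W → Prop) (C : Type) (f : W × W) : Prop :=
  ∃ T : (W ⊕ C) → (W ⊕ C) → (W ⊕ C) → Prop, PSS T ∧ (∀ x y, Dom T x y ↔ G C N x y) ∧
    ∃ c : C, T (.inl f.1) (.inl f.2) (.inr c) ∧ T (.inr c) (.inr c) (.inr c)

/-- `(A, B)` is a union of components of the bipartite graph with an edge from `u` (out side) to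
`v` (in side) for each arc of `N`, and `k - outd N w` edges from `w` (out side) to `w` (in side). -/
def Closed {W : Type} [Fintype W] (N : W → W → Prop) (k : ℕ) (A B : W → Prop) : Prop :=
  (∀ u v, N u v → (A u ↔ B v)) ∧ ∀ w, outd N w < k → (A w ↔ B w)

/-- `w` is not the tail of an arc of `M`. -/
def nd {W : Type} (M : W → W → Prop) (w : W) : Prop := ∀ v, ¬ M w v

/-- `w` is not the head of an arc of `M`. -/
def nr {W : Type} (M : W → W → Prop) (w : W) : Prop := ∀ u, ¬ M u w

/-- The digraph obtained by removing the two colour classes `M 0`, `M 1` (with new points `0`, `1`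
whose products among themselves are left undefined on `RB`). -/
def NN {W : Type} (N : W → W → Prop) (M : Fin 2 → W → W → Prop) (RB : Fin 2 → Fin 2 → Prop) :
    (W ⊕ Fin 2) → (W ⊕ Fin 2) → Prop
  | .inl u, .inl v => N u v ∧ ∀ i, ¬ M i u v
  | .inl w, .inr i => nr (M i) w
  | .inr i, .inl w => nd (M i) w
  | .inr i, .inr j => RB i j

/-- Two disjoint partial matchings inside `N`. -/
structure Mat {W : Type} (N : W → W → Prop) (M : Fin 2 → W → W → Prop) : Prop where
  sub : ∀ i u v, M i u v → N u v
  func : ∀ i u v v', M i u v → M i u v' → v = v'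
  inj : ∀ i u u' v, M i u v → M i u' v → u = u'
  disj : ∀ i j u v, M i u v → M j u v → i = j

section api

theorem b2n_pos {p : Prop} (h : p) : b2n p = 1 := by unfold b2n; exact if_pos h

theorem b2n_neg {p : Prop} (h : ¬ p) : b2n p = 0 := by unfold b2n; exact if_neg h

theorem b2n_le_one (p : Prop) : b2n p ≤ 1 := by
  by_cases h : p
  · rw [b2n_pos h]
  · rw [b2n_neg h]; exact Nat.zero_le _

theorem b2n_congr {p q : Prop} (h : p ↔ q) : b2n p = b2n q := by
  by_cases hp : p
  · rw [b2n_pos hp, b2n_pos (h.1 hp)]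
  · rw [b2n_neg hp, b2n_neg (fun hq => hp (h.2 hq))]

@[simp] theorem b2n_true : b2n True = 1 := b2n_pos trivial

@[simp] theorem b2n_false : b2n False = 0 := b2n_neg id

theorem b2n_not (p : Prop) : b2n p + b2n (¬ p) = 1 := by
  by_cases h : p
  · rw [b2n_pos h, b2n_neg (not_not.2 h)]
  · rw [b2n_neg h, b2n_pos h]

theorem b2n_and (p q : Prop) : b2n (p ∧ q) = b2n p * b2n q := by
  by_cases hp : p <;> by_cases hq : q <;> simp [hp, hq]

theorem b2n_or {p q : Prop} (h : ¬ (p ∧ q)) : b2n (p ∨ q) = b2n p + b2n q := by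
  by_cases hp : p <;> by_cases hq : q <;> simp_all

theorem b2n_ne_zero {p : Prop} : b2n p ≠ 0 ↔ p := by
  by_cases h : p <;> simp [h]

variable {W : Type} [Fintype W]

theorem cnt_eq_card (p : W → Prop) [DecidablePred p] : cnt p = (univ.filter p).card := by
  unfold cnt
  rw [Finset.card_filter]
  apply Finset.sum_congr rfl
  intro w _
  by_cases h : p w
  · rw [b2n_pos h, if_pos h]
  · rw [b2n_neg h, if_neg h]

theorem cnt_congr {p q : W → Prop} (h : ∀ w, p w ↔ q w) : cnt p = cnt q := by
  unfold cnt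
  exact Finset.sum_congr rfl (fun w _ => b2n_congr (h w))

theorem cnt_mono {p q : W → Prop} (h : ∀ w, p w → q w) : cnt p ≤ cnt q := by
  classical
  rw [cnt_eq_card, cnt_eq_card]
  apply Finset.card_le_card
  intro w hw
  simp only [Finset.mem_filter, Finset.mem_univ, true_and] at hw ⊢
  exact h w hw

theorem cnt_false : cnt (fun _ : W => False) = 0 := by simp [cnt]

theorem cnt_true : cnt (fun _ : W => True) = Fintype.card W := by simp [cnt]

theorem cnt_le_card (p : W → Prop) : cnt p ≤ Fintype.card W := by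
  rw [← cnt_true]; exact cnt_mono (fun _ _ => trivial)

theorem cnt_eq_zero {p : W → Prop} : cnt p = 0 ↔ ∀ w, ¬ p w := by
  classical
  rw [cnt_eq_card, Finset.card_eq_zero, Finset.filter_eq_empty_iff]
  simp

theorem cnt_pos {p : W → Prop} : 0 < cnt p ↔ ∃ w, p w := by
  rw [Nat.pos_iff_ne_zero, Ne, cnt_eq_zero]; push Not; rfl

theorem cnt_not (p : W → Prop) : cnt p + cnt (fun w => ¬ p w) = Fintype.card W := by
  unfold cnt
  rw [← Finset.sum_add_distrib, Finset.sum_congr rfl (fun w _ => b2n_not (p w))]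
  simp

theorem cnt_or {p q : W → Prop} (h : ∀ w, ¬ (p w ∧ q w)) :
    cnt (fun w => p w ∨ q w) = cnt p + cnt q := by
  unfold cnt
  rw [← Finset.sum_add_distrib]
  exact Finset.sum_congr rfl (fun w _ => b2n_or (h w))

theorem cnt_sum {V : Type} [Fintype V] (p : W ⊕ V → Prop) :
    cnt p = cnt (fun w => p (.inl w)) + cnt (fun v => p (.inr v)) := by
  unfold cnt; rw [Fintype.sum_sum_type]

theorem cnt_eq_one {p : W → Prop} (h : ∃ w, p w) (hu : ∀ w w', p w → p w' → w = w') :
    cnt p = 1 := by
  classical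
  obtain ⟨w, hw⟩ := h
  rw [cnt_eq_card, Finset.card_eq_one]
  refine ⟨w, ?_⟩
  ext w'
  simp only [Finset.mem_filter, Finset.mem_univ, true_and, Finset.mem_singleton]
  exact ⟨fun h' => hu _ _ h' hw, fun h' => h' ▸ hw⟩

theorem exists_unique_of_cnt_eq_one {p : W → Prop} (h : cnt p = 1) : ∃! w, p w := by
  classical
  rw [cnt_eq_card, Finset.card_eq_one] at h
  obtain ⟨w, hw⟩ := h
  refine ⟨w, ?_, ?_⟩
  · have : w ∈ univ.filter p := by rw [hw]; simp
    simpa using this
  · intro w' hw'
    have : w' ∈ univ.filter p := by simpa using hw'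
    rw [hw] at this
    simpa using this

theorem cnt_equiv {V : Type} [Fintype V] (e : W ≃ V) (p : V → Prop) :
    cnt (fun w => p (e w)) = cnt p := by
  unfold cnt; exact Equiv.sum_comp e (fun v => b2n (p v))

theorem sum_outd_eq_sum_indg (N : W → W → Prop) : ∑ w, outd N w = ∑ w, indg N w := by
  unfold outd indg cnt; exact Finset.sum_comm

theorem sumOn_congr {A A' : W → Prop} {g g' : W → ℕ} (h : ∀ w, A w ↔ A' w)
    (hg : ∀ w, A w → g w = g' w) : sumOn A g = sumOn A' g' := by
  unfold sumOn
  apply Finset.sum_congr rfl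
  intro w _
  rw [← b2n_congr (h w)]
  by_cases hA : A w
  · rw [hg w hA]
  · simp [hA]

theorem sumOn_univ (g : W → ℕ) : sumOn (fun _ => True) g = ∑ w, g w := by simp [sumOn]

theorem sumOn_sum {V : Type} [Fintype V] (A : W ⊕ V → Prop) (g : W ⊕ V → ℕ) :
    sumOn A g = sumOn (fun w => A (.inl w)) (fun w => g (.inl w)) +
      sumOn (fun v => A (.inr v)) (fun v => g (.inr v)) := by
  unfold sumOn; rw [Fintype.sum_sum_type]

theorem sumOn_add (A : W → Prop) (g g' : W → ℕ) :
    sumOn A (fun w => g w + g' w) = sumOn A g + sumOn A g' := by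
  unfold sumOn; rw [← Finset.sum_add_distrib]
  exact Finset.sum_congr rfl (fun w _ => by ring)

theorem sumOn_not (A : W → Prop) (g : W → ℕ) :
    sumOn A g + sumOn (fun w => ¬ A w) g = ∑ w, g w := by
  unfold sumOn; rw [← Finset.sum_add_distrib]
  apply Finset.sum_congr rfl
  intro w _
  rw [← Nat.add_mul, b2n_not, one_mul]

theorem sumOn_const (A : W → Prop) (k : ℕ) : sumOn A (fun _ => k) = cnt A * k := by
  unfold sumOn cnt; rw [Finset.sum_mul]

theorem closed_compl {N : W → W → Prop} {k : ℕ} {A B : W → Prop} (h : Closed N k A B) :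
    Closed N k (fun w => ¬ A w) (fun w => ¬ B w) :=
  ⟨fun u v huv => not_congr (h.1 u v huv), fun w hw => not_congr (h.2 w hw)⟩

/-- A partial matching misses as many tails as heads. -/
theorem cnt_nd_eq_nr (M : W → W → Prop) (hf : ∀ u v v', M u v → M u v' → v = v')
    (hi : ∀ u u' v, M u v → M u' v → u = u') : cnt (nd M) = cnt (nr M) := by
  have h1 : ∀ u, b2n (nd M u) + cnt (fun v => M u v) = 1 := by
    intro u
    by_cases h : nd M u
    · rw [b2n_pos h, cnt_eq_zero.2 h]
    · rw [b2n_neg h]
      unfold nd at h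
      push Not at h
      rw [cnt_eq_one h (fun v v' => hf u v v')]
  have h2 : ∀ v, b2n (nr M v) + cnt (fun u => M u v) = 1 := by
    intro v
    by_cases h : nr M v
    · rw [b2n_pos h, cnt_eq_zero.2 h]
    · rw [b2n_neg h]
      unfold nr at h
      push Not at h
      rw [cnt_eq_one h (fun u u' => hi u u' v)]
  have h3 : ∑ u, cnt (fun v => M u v) = ∑ v, cnt (fun u => M u v) := by
    unfold cnt; exact Finset.sum_comm
  have h4 : ∑ u : W, (b2n (nd M u) + cnt (fun v => M u v)) =
      ∑ v : W, (b2n (nr M v) + cnt (fun u => M u v)) := by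
    rw [Finset.sum_congr rfl (fun u _ => h1 u), Finset.sum_congr rfl (fun v _ => h2 v)]
  rw [Finset.sum_add_distrib, Finset.sum_add_distrib, h3] at h4
  unfold cnt at h4 ⊢
  omega

end api

theorem PSS.rot2 {X : Type} {T : X → X → X → Prop} (h : PSS T) {x y z : X} (ht : T x y z) :
    T z x y := h.rot _ _ _ (h.rot _ _ _ ht)

/-- Union of two triple systems covering disjoint sets of pairs. -/
theorem PSS.union {X : Type} {T T' : X → X → X → Prop} (h : PSS T) (h' : PSS T')
    (hd : ∀ x y, Dom T x y → ¬ Dom T' x y) : PSS (fun x y z => T x y z ∨ T' x y z) := by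
  refine ⟨?_, ?_⟩
  · rintro x y z (ht | ht)
    · exact Or.inl (h.rot _ _ _ ht)
    · exact Or.inr (h'.rot _ _ _ ht)
  · rintro x y z z' (ht | ht) (hs | hs)
    · exact h.func _ _ _ _ ht hs
    · exact absurd ⟨z', hs⟩ (hd x y ⟨z, ht⟩)
    · exact absurd ⟨z, ht⟩ (hd x y ⟨z', hs⟩)
    · exact h'.func _ _ _ _ ht hs

theorem Dom_union {X : Type} {T T' : X → X → X → Prop} (x y : X) :
    Dom (fun x y z => T x y z ∨ T' x y z) x y ↔ Dom T x y ∨ Dom T' x y := by
  unfold Dom
  constructor
  · rintro ⟨z, h | h⟩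
    · exact Or.inl ⟨z, h⟩
    · exact Or.inr ⟨z, h⟩
  · rintro (⟨z, h⟩ | ⟨z, h⟩)
    · exact ⟨z, Or.inl h⟩
    · exact ⟨z, Or.inr h⟩

theorem Compl.good {W : Type} {N : W → W → Prop} {C : Type} {f : W × W} (h : Compl N C f) :
    Good N C := by
  obtain ⟨T, h1, h2, _⟩ := h
  exact ⟨T, h1, h2⟩

theorem Good.equiv {W : Type} {N : W → W → Prop} {C C' : Type} (e : C ≃ C') (h : Good N C) :
    Good N C' := by
  obtain ⟨T, h1, h2⟩ := h
  let g : W ⊕ C' → W ⊕ C := Sum.map id e.symm
  have hg : Function.Surjective g := Function.Surjective.sumMap Function.surjective_id e.symm.surjective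
  have hgi : Function.Injective g := Function.Injective.sumMap Function.injective_id e.symm.injective
  refine ⟨fun x y z => T (g x) (g y) (g z), ⟨fun x y z h => h1.rot _ _ _ h,
    fun x y z z' h h' => hgi (h1.func _ _ _ _ h h')⟩, ?_⟩
  intro x y
  have : Dom (fun x y z => T (g x) (g y) (g z)) x y ↔ Dom T (g x) (g y) := by
    constructor
    · rintro ⟨z, hz⟩; exact ⟨g z, hz⟩
    · rintro ⟨z, hz⟩; obtain ⟨z', rfl⟩ := hg z; exact ⟨z', hz⟩
  rw [this, h2]
  rcases x with x | x <;> rcases y with y | y <;> simp [g, G]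

theorem Compl.equiv {W : Type} {N : W → W → Prop} {C C' : Type} {f : W × W} (e : C ≃ C')
    (h : Compl N C f) : Compl N C' f := by
  obtain ⟨T, h1, h2, c, hc1, hc2⟩ := h
  let g : W ⊕ C' → W ⊕ C := Sum.map id e.symm
  have hg : Function.Surjective g := Function.Surjective.sumMap Function.surjective_id e.symm.surjective
  have hgi : Function.Injective g := Function.Injective.sumMap Function.injective_id e.symm.injective
  refine ⟨fun x y z => T (g x) (g y) (g z), ⟨fun x y z h => h1.rot _ _ _ h,
    fun x y z z' h h' => hgi (h1.func _ _ _ _ h h')⟩, ?_, e c, ?_, ?_⟩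
  · intro x y
    have : Dom (fun x y z => T (g x) (g y) (g z)) x y ↔ Dom T (g x) (g y) := by
      constructor
      · rintro ⟨z, hz⟩; exact ⟨g z, hz⟩
      · rintro ⟨z, hz⟩; obtain ⟨z', rfl⟩ := hg z; exact ⟨z', hz⟩
    rw [this, h2]
    rcases x with x | x <;> rcases y with y | y <;> simp [g, G]
  · simpa [g] using hc1
  · simpa [g] using hc2

end Pool.Agent.Helper40.SSQ
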