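import Mathlib
import Pool.Agent.Helper40.SSQ.Defs
import Pool.Agent.Helper74.SSQ.Color

set_option autoImplicit false

/-! Module I: the deferral construction (an array filled by means of König colourings). -/

namespace Pool.Agent.Helper40.SSQ

open Finset

private theorem dfr_cnt_prod_snd {A B : Type} [Fintype A] [Fintype B] (b : B) :
    cnt (fun p : A × B => p.2 = b) = Fintype.card A := by
  classical
  rw [cnt_eq_card]
  have : (univ.filter (fun p : A × B => p.2 = b)) = univ.image (fun a : A => (a, b)) := by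
    ext ⟨x, y⟩
    simp only [Finset.mem_filter, Finset.mem_univ, true_and, Finset.mem_image, Prod.mk.injEq,
      exists_eq_left]
    exact eq_comm
  rw [this, Finset.card_image_of_injective _ (fun a a' h => (Prod.mk.inj h).1), Finset.card_univ]

private theorem dfr_cnt_prod_fst {A B : Type} [Fintype A] [Fintype B] (a : A) :
    cnt (fun p : A × B => p.1 = a) = Fintype.card B := by
  rw [← dfr_cnt_prod_snd (A := B) (B := A) a, ← cnt_equiv (Equiv.prodComm A B)]
  rfl

private theorem dfr_cnt_sigma {S : Type} [Fintype S] (n : S → ℕ) (s : S) :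
    cnt (fun e : (Σ s, Fin (n s)) => e.1 = s) = n s := by
  classical
  unfold cnt
  rw [Fintype.sum_sigma, Finset.sum_eq_single s]
  · simp
  · intro b _ hb
    apply Finset.sum_eq_zero
    intro j _
    exact b2n_neg hb
  · intro h
    exact absurd (Finset.mem_univ s) h

/-- distribution of the symbols to the rows -/
private theorem dfr_rows {S : Type} [Fintype S] (m : ℕ) (g : S → ℕ) (hg : ∀ s, g s ≤ m)
    (hsum : ∑ s, g s = m * m) : ∃ row : (Σ s, Fin (g s)) → Fin m,
      (∀ s (j j' : Fin (g s)), row ⟨s, j⟩ = row ⟨s, j'⟩ → j = j') ∧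
      ∀ a, cnt (fun e => row e = a) = m := by
  classical
  let eS : S ≃ Fin (Fintype.card S) := Fintype.equivFin S
  let n : Fin (Fintype.card S) → ℕ := fun i => g (eS.symm i)
  have hn : ∑ i, n i = m * m := by
    rw [← hsum]
    exact Equiv.sum_comp eS.symm g
  let e1 : (Σ s, Fin (g s)) ≃ (Σ i, Fin (n i)) :=
    (Equiv.sigmaCongrLeft' (β := fun s => Fin (g s)) eS)
  have he1 : ∀ s (j : Fin (g s)), ((e1 ⟨s, j⟩).1 = eS s) ∧ ((e1 ⟨s, j⟩).2 : ℕ) = j := by
    intro s j
    have : e1 ⟨s, j⟩ = ⟨eS s, Fin.cast (by simp [n]) j⟩ := by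
      apply e1.symm.injective
      rw [Equiv.symm_apply_apply]
      have h2 : ∀ i (k : Fin (n i)), e1.symm ⟨i, k⟩ = ⟨eS.symm i, k⟩ := fun i k => rfl
      rw [h2]
      have h3 : eS.symm (eS s) = s := eS.symm_apply_apply s
      refine Sigma.ext h3.symm ?_
      refine (Fin.heq_ext_iff (by simp [n])).2 ?_
      simp
    rw [this]
    exact ⟨rfl, rfl⟩
  let e2 : (Σ s, Fin (g s)) ≃ Fin m × Fin m :=
    e1.trans (finSigmaFinEquiv.trans ((finCongr hn).trans finProdFinEquiv.symm))
  have hval : ∀ s (j : Fin (g s)), ((e2 ⟨s, j⟩).2 : ℕ) =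
      (∑ i : Fin (eS s : ℕ), n (Fin.castLE (eS s).2.le i) + j) % m := by
    intro s j
    have h1 : ((e2 ⟨s, j⟩).2 : ℕ) = (finSigmaFinEquiv (e1 ⟨s, j⟩) : ℕ) % m := by
      simp [e2, finProdFinEquiv, Fin.modNat]
    rw [h1, finSigmaFinEquiv_apply]
    obtain ⟨h2, h3⟩ := he1 s j
    rw [h3]
    have : ∀ (i i' : Fin (Fintype.card S)), i = i' →
        (∑ k : Fin (i : ℕ), n (Fin.castLE i.2.le k)) =
        ∑ k : Fin (i' : ℕ), n (Fin.castLE i'.2.le k) := by
      rintro i _ rfl; rfl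
    rw [this _ _ h2]
  refine ⟨fun e => (e2 e).2, ?_, ?_⟩
  · intro s j j' h
    have h1 := congrArg (fun x : Fin m => (x : ℕ)) h
    simp only [hval] at h1
    have h2 : ((j : ℕ)) ≡ (j' : ℕ) [MOD m] := Nat.ModEq.add_left_cancel' _ h1
    have h3 : (j : ℕ) < m := lt_of_lt_of_le j.2 (hg s)
    have h4 : (j' : ℕ) < m := lt_of_lt_of_le j'.2 (hg s)
    exact Fin.ext (Nat.ModEq.eq_of_lt_of_lt h2 h3 h4)
  · intro a
    rw [cnt_equiv e2 (fun p => p.2 = a), dfr_cnt_prod_snd]
    simp

private theorem dfr_array {S : Type} [Fintype S] (m k1 : ℕ) (g : S → ℕ) (hg : ∀ s, g s ≤ m)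
    (hsum : ∑ s, g s = m * m) (hcard : Fintype.card S = m + k1) :
    ∃ A : Fin m → Fin m → S → Prop,
      (∀ a i, ∃ s, A a i s) ∧ (∀ a i s s', A a i s → A a i s' → s = s') ∧
      (∀ a i i' s, A a i s → A a i' s → i = i') ∧
      (∀ a a' i s, A a i s → A a' i s → a = a') ∧
      (∀ s, cnt (fun a => ∃ i, A a i s) = g s) ∧ (∀ s, cnt (fun i => ∃ a, A a i s) = g s) := by
  classical
  obtain ⟨row, hrow1, hrow2⟩ := dfr_rows m g hg hsum
  have hdum : Fintype.card (Σ s, Fin (m - g s)) = Fintype.card (Fin k1 × Fin m) := by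
    rw [Fintype.card_sigma, Fintype.card_prod]
    simp only [Fintype.card_fin]
    have h1 : ∑ s, (m - g s) + ∑ s, g s = (m + k1) * m := by
      rw [← Finset.sum_add_distrib, ← hcard]
      rw [Finset.sum_congr rfl (fun s _ => Nat.sub_add_cancel (hg s))]
      simp
    rw [hsum] at h1
    nlinarith
  let dum : (Σ s, Fin (m - g s)) ≃ Fin k1 × Fin m := Fintype.equivOfCardEq hdum
  let E := (Σ s, Fin (g s)) ⊕ (Σ s, Fin (m - g s))
  let l : E → Fin m ⊕ Fin k1 := Sum.elim (fun e => Sum.inl (row e)) (fun e => Sum.inr (dum e).1)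
  let r : E → S := Sum.elim (fun e => e.1) (fun e => e.1)
  obtain ⟨c, hc1, hc2, hc3⟩ := Pool.Agent.Helper74.SSQ.konig l r m univ
    (by
      intro u
      rw [← cnt_eq_card, cnt_sum]
      rcases u with a | b
      · have h1 : cnt (fun w : (Σ s, Fin (g s)) => l (.inl w) = .inl a) = m :=
          (cnt_congr (fun w => by simp [l])).trans (hrow2 a)
        have h2 : cnt (fun w : (Σ s, Fin (m - g s)) => l (.inr w) = .inl a) = 0 :=
          cnt_eq_zero.2 (fun w => by simp [l])
        rw [h1, h2]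
        rfl
      · have h1 : cnt (fun w : (Σ s, Fin (g s)) => l (.inl w) = .inr b) = 0 :=
          cnt_eq_zero.2 (fun w => by simp [l])
        have h2 : cnt (fun w : (Σ s, Fin (m - g s)) => l (.inr w) = .inr b) = m := by
          rw [cnt_congr (q := fun w => (dum w).1 = b) (fun w => by simp [l]),
            cnt_equiv dum (fun p => p.1 = b), dfr_cnt_prod_fst]
          simp
        rw [h1, h2, zero_add])
    (by
      intro s
      rw [← cnt_eq_card, cnt_sum]
      have h1 : cnt (fun w : (Σ s, Fin (g s)) => r (.inl w) = s) = g s := dfr_cnt_sigma g s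
      have h2 : cnt (fun w : (Σ s, Fin (m - g s)) => r (.inr w) = s) = m - g s :=
        dfr_cnt_sigma (fun s => m - g s) s
      rw [h1, h2]
      have := hg s
      omega)
  have huL : ∀ (u : Fin m ⊕ Fin k1) (i : ℕ), i < m → ∀ e e' : E, l e = u → c e = i →
      l e' = u → c e' = i → e = e' := by
    intro u i hi e e' h1 h2 h3 h4
    have := Finset.card_le_one.1 (hc2 u i hi).le e (by simp [h1, h2]) e' (by simp [h3, h4])
    exact this
  have huR : ∀ (s : S) (i : ℕ), i < m → ∀ e e' : E, r e = s → c e = i →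
      r e' = s → c e' = i → e = e' := by
    intro u i hi e e' h1 h2 h3 h4
    have := Finset.card_le_one.1 (hc3 u i hi).le e (by simp [h1, h2]) e' (by simp [h3, h4])
    exact this
  let A : Fin m → Fin m → S → Prop := fun a i s =>
    ∃ j : Fin (g s), row ⟨s, j⟩ = a ∧ c (.inl ⟨s, j⟩) = i
  have hA3 : ∀ a i i' s, A a i s → A a i' s → i = i' := by
    rintro a i i' s ⟨j, h1, h2⟩ ⟨j', h3, h4⟩
    have hj := hrow1 s j j' (h1.trans h3.symm)
    subst hj
    exact Fin.ext (h2.symm.trans h4)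
  have hA4 : ∀ a a' i s, A a i s → A a' i s → a = a' := by
    rintro a a' i s ⟨j, h1, h2⟩ ⟨j', h3, h4⟩
    have := huR s i i.2 (.inl ⟨s, j⟩) (.inl ⟨s, j'⟩) rfl h2 rfl h4
    have h5 := Sum.inl.inj this
    rw [h5] at h1
    exact h1.symm.trans h3
  have hA5 : ∀ s, cnt (fun a => ∃ i, A a i s) = g s := by
    intro s
    have h1 : ∀ a, (∃ i, A a i s) ↔ ∃ j : Fin (g s), row ⟨s, j⟩ = a := by
      intro a
      constructor
      · rintro ⟨i, j, h1, _⟩; exact ⟨j, h1⟩
      · rintro ⟨j, h1⟩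
        exact ⟨⟨c (.inl ⟨s, j⟩), hc1 _ (Finset.mem_univ _)⟩, j, h1, rfl⟩
    rw [cnt_congr h1, cnt_eq_card]
    have h2 : (univ.filter (fun a => ∃ j : Fin (g s), row ⟨s, j⟩ = a)) =
        univ.image (fun j : Fin (g s) => row ⟨s, j⟩) := by
      ext a
      simp
    rw [h2, Finset.card_image_of_injective _ (fun j j' h => hrow1 s j j' h)]
    simp
  refine ⟨A, ?_, ?_, hA3, hA4, hA5, ?_⟩
  · intro a i
    have h1 := hc2 (.inl a) i i.2
    obtain ⟨e, he⟩ := Finset.card_pos.1 (by rw [h1]; exact Nat.one_pos)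
    simp only [Finset.mem_filter, Finset.mem_univ, true_and] at he
    rcases e with ⟨s, j⟩ | e
    · exact ⟨s, j, Sum.inl.inj he.1, he.2⟩
    · exact absurd he.1 (by simp [l])
  · rintro a i s s' ⟨j, h1, h2⟩ ⟨j', h3, h4⟩
    have := huL (.inl a) i i.2 (.inl ⟨s, j⟩) (.inl ⟨s', j'⟩) (by simp [l, h1]) h2
      (by simp [l, h3]) h4
    exact congrArg Sigma.fst (Sum.inl.inj this)
  · intro s
    have h1 := cnt_nd_eq_nr (fun a i => A a i s) (fun a i i' => hA3 a i i' s)
      (fun a a' i => hA4 a a' i s)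
    have h2 := cnt_not (fun a => ∃ i, A a i s)
    have h3 := cnt_not (fun i => ∃ a, A a i s)
    have h4 : cnt (nd (fun a i => A a i s)) = cnt (fun a => ¬ ∃ i, A a i s) :=
      cnt_congr (fun a => by simp [nd])
    have h5 : cnt (nr (fun a i => A a i s)) = cnt (fun i => ¬ ∃ a, A a i s) :=
      cnt_congr (fun a => by simp [nr])
    have h6 := hA5 s
    omega

/-- the array with the extra symbol on the diagonal (if `ε = 1`) -/
private theorem dfr_array' {W : Type} [Fintype W] (m k1 ε : ℕ) (hε : ε ≤ 1)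
    (hn : Fintype.card W + ε = m + k1) (g : W → ℕ) (hg : ∀ w, g w ≤ m)
    (hsum : ∑ w, g w + ε * m = m * m) :
    ∃ A : Fin m → Fin m → W → Prop,
      (∀ a i, (∃ s, A a i s) ↔ ¬ (ε = 1 ∧ a = i)) ∧ (∀ a i s s', A a i s → A a i s' → s = s') ∧
      (∀ a i i' s, A a i s → A a i' s → i = i') ∧
      (∀ a a' i s, A a i s → A a' i s → a = a') ∧
      (∀ s, cnt (fun a => ∃ i, A a i s) = g s) ∧ (∀ s, cnt (fun i => ∃ a, A a i s) = g s) := by
  classical
  rcases Nat.le_one_iff_eq_zero_or_eq_one.1 hε with rfl | rfl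
  · obtain ⟨A, h1, h2, h3, h4, h5, h6⟩ := dfr_array m k1 g hg (by simpa using hsum)
      (by simpa using hn)
    exact ⟨A, fun a i => ⟨fun _ h => absurd h.1 (by norm_num), fun _ => h1 a i⟩,
      h2, h3, h4, h5, h6⟩
  · obtain ⟨A, h1, h2, h3, h4, h5, h6⟩ := dfr_array (S := Option W) m k1
      (fun s => s.elim m g) (by rintro (_ | w); exacts [le_rfl, hg w])
      (by rw [Fintype.sum_option]; simp only [Option.elim]; omega)
      (by rw [Fintype.card_option]; exact hn)
    have hall : ∀ a, ∃ i, A a i none := by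
      have := h5 none
      simp only [Option.elim] at this
      intro a
      by_contra hcon
      have h7 := cnt_not (fun a => ∃ i, A a i none)
      rw [this, Fintype.card_fin] at h7
      have h8 : cnt (fun a => ¬ ∃ i, A a i none) = 0 := by omega
      exact cnt_eq_zero.1 h8 a hcon
    choose π hπ using hall
    have hπi : Function.Injective π := by
      intro a a' h
      exact h4 a a' (π a) none (hπ a) (h ▸ hπ a')
    have hπb : Function.Bijective π := Finite.injective_iff_bijective.1 hπi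
    let πe : Fin m ≃ Fin m := Equiv.ofBijective π hπb
    refine ⟨fun a b w => A a (π b) (some w), ?_, ?_, ?_, ?_, ?_, ?_⟩
    · intro a i
      constructor
      · rintro ⟨s, hs⟩ ⟨_, rfl⟩
        exact absurd (h2 _ _ _ _ hs (hπ a)) (by simp)
      · intro h
        obtain ⟨s, hs⟩ := h1 a (π i)
        rcases s with _ | w
        · exact absurd ⟨rfl, h4 _ _ _ _ hs (hπ i)⟩ h
        · exact ⟨w, hs⟩
    · intro a i s s' hs hs'
      exact Option.some.inj (h2 _ _ _ _ hs hs')
    · intro a i i' s hs hs'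
      exact hπi (h3 _ _ _ _ hs hs')
    · intro a a' i s hs hs'
      exact h4 _ _ _ _ hs hs'
    · intro s
      have h7 := h5 (some s)
      simp only [Option.elim] at h7
      rw [← h7]
      refine cnt_congr fun a => ⟨fun ⟨i, hi⟩ => ⟨π i, hi⟩, fun ⟨i, hi⟩ => ?_⟩
      obtain ⟨i', rfl⟩ := hπb.2 i
      exact ⟨i', hi⟩
    · intro s
      have h7 := h6 (some s)
      simp only [Option.elim] at h7
      rw [← h7]
      exact cnt_equiv πe (fun i => ∃ a, A a i (some s))

private def dfrA {W C : Type} {m : ℕ} (A : Fin m → Fin m → W → Prop) :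
    W ⊕ (Fin m ⊕ C) → W ⊕ (Fin m ⊕ C) → W ⊕ (Fin m ⊕ C) → Prop
  | .inr (.inl a), .inr (.inl b), .inl w => A a b w
  | .inr (.inl b), .inl w, .inr (.inl a) => A a b w
  | .inl w, .inr (.inl a), .inr (.inl b) => A a b w
  | _, _, _ => False

private def dfrI {W C : Type} {m : ℕ} (ε : ℕ) :
    W ⊕ (Fin m ⊕ C) → W ⊕ (Fin m ⊕ C) → W ⊕ (Fin m ⊕ C) → Prop
  | .inr (.inl a), .inr (.inl b), .inr (.inl d) => ε = 1 ∧ a = b ∧ b = d
  | _, _, _ => False

private theorem dfrA_pss {W C : Type} {m : ℕ} {A : Fin m → Fin m → W → Prop}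
    (h2 : ∀ a i s s', A a i s → A a i s' → s = s')
    (h3 : ∀ a i i' s, A a i s → A a i' s → i = i')
    (h4 : ∀ a a' i s, A a i s → A a' i s → a = a') : PSS (dfrA (C := C) A) := by
  refine ⟨?_, ?_⟩
  · rintro (x | x | x) (y | y | y) (z | z | z) h <;> simp only [dfrA] at h ⊢ <;> exact h
  · rintro (x | x | x) (y | y | y) (z | z | z) (w | w | w) h h' <;>
      simp only [dfrA] at h h' ⊢
    · rw [h3 _ _ _ _ h h']
    · rw [h4 _ _ _ _ h h']
    · rw [h2 _ _ _ _ h h']

private theorem dfrI_pss {W C : Type} {m : ℕ} (ε : ℕ) : PSS (dfrI (W := W) (C := C) (m := m) ε) := by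
  refine ⟨?_, ?_⟩
  · rintro (x | x | x) (y | y | y) (z | z | z) h <;> simp only [dfrI] at h ⊢
    exact ⟨h.1, h.2.2, (h.2.1.trans h.2.2).symm⟩
  · rintro (x | x | x) (y | y | y) (z | z | z) (w | w | w) h h' <;>
      simp only [dfrI] at h h' ⊢
    rw [← h.2.2, ← h'.2.2]

private def dfrDA {W C : Type} {m : ℕ} (A : Fin m → Fin m → W → Prop) (ε : ℕ) :
    W ⊕ (Fin m ⊕ C) → W ⊕ (Fin m ⊕ C) → Prop
  | .inr (.inl a), .inr (.inl b) => ¬ (ε = 1 ∧ a = b)
  | .inr (.inl b), .inl w => ∃ a, A a b w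
  | .inl w, .inr (.inl a) => ∃ b, A a b w
  | _, _ => False

private def dfrDI {W C : Type} {m : ℕ} (ε : ℕ) :
    W ⊕ (Fin m ⊕ C) → W ⊕ (Fin m ⊕ C) → Prop
  | .inr (.inl a), .inr (.inl b) => ε = 1 ∧ a = b
  | _, _ => False

private theorem dfr_domA {W C : Type} {m : ℕ} {A : Fin m → Fin m → W → Prop} {ε : ℕ}
    (h1 : ∀ a i, (∃ s, A a i s) ↔ ¬ (ε = 1 ∧ a = i)) (x y : W ⊕ (Fin m ⊕ C)) :
    Dom (dfrA A) x y ↔ dfrDA A ε x y := by
  unfold Dom
  rcases x with x | x | x <;> rcases y with y | y | y <;>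
    simp only [Sum.exists, dfrA, dfrDA, exists_false, or_false, false_or]
  exact h1 x y

private theorem dfr_domI {W C : Type} {m : ℕ} {ε : ℕ} (x y : W ⊕ (Fin m ⊕ C)) :
    Dom (dfrI ε) x y ↔ dfrDI ε x y := by
  unfold Dom
  rcases x with x | x | x <;> rcases y with y | y | y <;>
    simp only [Sum.exists, dfrI, dfrDI, exists_false, or_false, false_or]
  constructor
  · rintro ⟨_, h1, h2, _⟩; exact ⟨h1, h2⟩
  · rintro ⟨h1, h2⟩; exact ⟨y, h1, h2, rfl⟩

private def dfrN {W : Type} {m : ℕ} (R : W → W → Prop) (A : Fin m → Fin m → W → Prop) :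
    W ⊕ Fin m → W ⊕ Fin m → Prop
  | .inl u, .inl v => R u v
  | .inl w, .inr a => ¬ ∃ b, A a b w
  | .inr b, .inl w => ¬ ∃ a, A a b w
  | .inr _, .inr _ => False

theorem deferral {W : Type} [Fintype W] (R : W → W → Prop) (m k1 ε : ℕ) (hε : ε ≤ 1)
    (hn : Fintype.card W + ε = m + k1) (g : W → ℕ) (hg : ∀ w, g w ≤ m)
    (hsum : ∑ w, g w + ε * m = m * m) :
    ∃ N : W ⊕ Fin m → W ⊕ Fin m → Prop,
      (∀ u v, N (.inl u) (.inl v) ↔ R u v) ∧ (∀ a b, ¬ N (.inr a) (.inr b)) ∧
      (∀ w, cnt (fun b => N (.inl w) (.inr b)) + g w = m) ∧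
      (∀ w, cnt (fun b => N (.inr b) (.inl w)) + g w = m) ∧
      (∀ b, cnt (fun w => N (.inl w) (.inr b)) = k1) ∧
      (∀ b, cnt (fun w => N (.inr b) (.inl w)) = k1) ∧
      ∀ C : Type, Good N C → Good R (Fin m ⊕ C) := by
  classical
  obtain ⟨A, h1, h2, h3, h4, h5, h6⟩ := dfr_array' m k1 ε hε hn g hg hsum
  -- number of symbols in a row
  have hcell : ∀ (M : Fin m → W → Prop), (∀ b w w', M b w → M b w' → w = w') →
      (∀ b b' w, M b w → M b' w → b = b') →
      cnt (fun w => ∃ b, M b w) = cnt (fun b => ∃ w, M b w) := by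
    intro M hM1 hM2
    rw [cnt_eq_card, cnt_eq_card]
    refine Finset.card_bij (fun w hw => (Finset.mem_filter.1 hw).2.choose) ?_ ?_ ?_
    · intro w hw
      simp only [Finset.mem_filter, Finset.mem_univ, true_and]
      exact ⟨w, (Finset.mem_filter.1 hw).2.choose_spec⟩
    · intro w hw w' hw' h
      have e1 := (Finset.mem_filter.1 hw).2.choose_spec
      have e2 := (Finset.mem_filter.1 hw').2.choose_spec
      rw [← h] at e2
      exact hM1 _ _ _ e1 e2
    · intro b hb
      obtain ⟨w, hw⟩ := (Finset.mem_filter.1 hb).2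
      have hw' : w ∈ univ.filter (fun w => ∃ b, M b w) := by
        simp only [Finset.mem_filter, Finset.mem_univ, true_and]
        exact ⟨b, hw⟩
      refine ⟨w, hw', ?_⟩
      exact hM2 _ _ _ (Finset.mem_filter.1 hw').2.choose_spec hw
  have hcnt : ∀ a : Fin m, cnt (fun b : Fin m => ¬ (ε = 1 ∧ a = b)) + ε = m := by
    intro a
    rcases Nat.le_one_iff_eq_zero_or_eq_one.1 hε with rfl | rfl
    · rw [cnt_congr (q := fun _ => True) (fun b => by simp), cnt_true]
      simp
    · have h7 := cnt_not (fun b : Fin m => (1 = 1 ∧ a = b))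
      rw [cnt_eq_one (p := fun b : Fin m => (1 = 1 ∧ a = b)) ⟨a, rfl, rfl⟩
        (fun w w' h h' => h.2.symm.trans h'.2), Fintype.card_fin] at h7
      omega
  have hcnt' : ∀ a : Fin m, cnt (fun b : Fin m => ¬ (ε = 1 ∧ b = a)) + ε = m := by
    intro a
    have h7 : cnt (fun b : Fin m => ¬ (ε = 1 ∧ b = a)) = cnt (fun b : Fin m => ¬ (ε = 1 ∧ a = b)) :=
      cnt_congr (fun b => by rw [eq_comm (a := b)])
    have := hcnt a
    omega
  refine ⟨dfrN R A, fun u v => Iff.rfl, fun a b h => h, ?_, ?_, ?_, ?_, ?_⟩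
  · intro w
    have h7 := cnt_not (fun a => ∃ i, A a i w)
    rw [h5 w, Fintype.card_fin] at h7
    have : cnt (fun b => dfrN R A (.inl w) (.inr b)) = cnt (fun a => ¬ ∃ i, A a i w) := rfl
    omega
  · intro w
    have h7 := cnt_not (fun i => ∃ a, A a i w)
    rw [h6 w, Fintype.card_fin] at h7
    have : cnt (fun b => dfrN R A (.inr b) (.inl w)) = cnt (fun i => ¬ ∃ a, A a i w) := rfl
    omega
  · intro a
    have h7 := cnt_not (fun w => ∃ b, A a b w)
    have h8 : cnt (fun w => dfrN R A (.inl w) (.inr a)) = cnt (fun w => ¬ ∃ b, A a b w) := rfl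
    have h9 := hcell (fun b w => A a b w) (fun b w w' => h2 a b w w')
      (fun b b' w => h3 a b b' w)
    have h10 := hcnt a
    rw [← cnt_congr (h1 a)] at h10
    omega
  · intro b
    have h7 := cnt_not (fun w => ∃ a, A a b w)
    have h8 : cnt (fun w => dfrN R A (.inr b) (.inl w)) = cnt (fun w => ¬ ∃ a, A a b w) := rfl
    have h9 := hcell (fun a w => A a b w) (fun a w w' => h2 a b w w')
      (fun a a' w => h4 a a' b w)
    have h10 := hcnt' b
    rw [← cnt_congr (fun a => h1 a b)] at h10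
    omega
  · rintro C ⟨T, t1, t2⟩
    let f : W ⊕ (Fin m ⊕ C) ≃ (W ⊕ Fin m) ⊕ C := (Equiv.sumAssoc W (Fin m) C).symm
    have hT1 : PSS (fun x y z => T (f x) (f y) (f z)) :=
      ⟨fun x y z h => t1.rot _ _ _ h, fun x y z z' h h' => f.injective (t1.func _ _ _ _ h h')⟩
    have hD1 : ∀ x y, Dom (fun x y z => T (f x) (f y) (f z)) x y ↔
        G C (dfrN R A) (f x) (f y) := by
      intro x y
      rw [← t2]
      constructor
      · rintro ⟨z, hz⟩; exact ⟨f z, hz⟩
      · rintro ⟨z, hz⟩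
        refine ⟨f.symm z, ?_⟩
        simpa using hz
    have hU1 := hT1.union (dfrA_pss (C := C) h2 h3 h4) (by
      intro x y hx hy
      rw [hD1] at hx
      rw [dfr_domA h1] at hy
      rcases x with x | x | x <;> rcases y with y | y | y <;>
        simp only [f, Equiv.sumAssoc_symm_apply_inl, Equiv.sumAssoc_symm_apply_inr_inl,
          Equiv.sumAssoc_symm_apply_inr_inr, G, dfrN, dfrDA] at hx hy
      · exact hx hy
      · exact hx hy)
    have hU2 := hU1.union (dfrI_pss (W := W) (C := C) (m := m) ε) (by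
      intro x y hx hy
      rw [Dom_union, hD1, dfr_domA h1] at hx
      rw [dfr_domI] at hy
      rcases x with x | x | x <;> rcases y with y | y | y <;>
        simp only [f, Equiv.sumAssoc_symm_apply_inl, Equiv.sumAssoc_symm_apply_inr_inl,
          Equiv.sumAssoc_symm_apply_inr_inr, G, dfrN, dfrDA, dfrDI, or_false, false_or] at hx hy
      exact hx hy)
    refine ⟨_, hU2, ?_⟩
    intro x y
    rw [Dom_union, Dom_union, hD1, dfr_domA h1, dfr_domI]
    rcases x with x | x | x <;> rcases y with y | y | y <;>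
      simp only [f, Equiv.sumAssoc_symm_apply_inl, Equiv.sumAssoc_symm_apply_inr_inl,
        Equiv.sumAssoc_symm_apply_inr_inr, G, dfrN, dfrDA, dfrDI, or_false, false_or, iff_true]
    · exact (em _).symm
    · exact (em _).symm
    · exact (em _).symm

end Pool.Agent.Helper40.SSQ
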