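import Mathlib
import Pool.Agent.Helper40.SSQ.Defs

set_option autoImplicit false

/-! # Module F: degrees of the reduced digraph and the parity formula -/

namespace Pool.Agent.Helper40.SSQ

open Finset

theorem deg_cnt_two (p : Fin 2 → Prop) : cnt p = b2n (p 0) + b2n (p 1) := by
  unfold cnt; rw [Fin.sum_univ_two]

theorem deg_row {W : Type} [Fintype W] (M : W → W → Prop)
    (hf : ∀ u v v', M u v → M u v' → v = v') (u : W) :
    cnt (fun v => M u v) + b2n (nd M u) = 1 := by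
  by_cases h : nd M u
  · rw [b2n_pos h, cnt_eq_zero.2 h]
  · rw [b2n_neg h]
    unfold nd at h
    push Not at h
    rw [cnt_eq_one h (fun v v' => hf u v v')]

theorem deg_col {W : Type} [Fintype W] (M : W → W → Prop)
    (hi : ∀ u u' v, M u v → M u' v → u = u') (v : W) :
    cnt (fun u => M u v) + b2n (nr M v) = 1 := by
  by_cases h : nr M v
  · rw [b2n_pos h, cnt_eq_zero.2 h]
  · rw [b2n_neg h]
    unfold nr at h
    push Not at h
    rw [cnt_eq_one h (fun u u' => hi u u' v)]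

theorem deg_pt {W : Type} (N : W → W → Prop) (M : Fin 2 → W → W → Prop) (hM : Mat N M)
    (u v : W) :
    b2n (N u v ∧ ∀ i, ¬ M i u v) + (b2n (M 0 u v) + b2n (M 1 u v)) = b2n (N u v) := by
  by_cases h0 : M 0 u v
  · have h1 : ¬ M 1 u v := fun h1 => by
      have := hM.disj 0 1 u v h0 h1
      exact absurd this (by decide)
    rw [b2n_pos h0, b2n_neg h1, b2n_pos (hM.sub 0 u v h0),
      b2n_neg (fun h : N u v ∧ ∀ i, ¬ M i u v => h.2 0 h0)]
  · by_cases h1 : M 1 u v
    · rw [b2n_neg h0, b2n_pos h1, b2n_pos (hM.sub 1 u v h1),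
        b2n_neg (fun h : N u v ∧ ∀ i, ¬ M i u v => h.2 1 h1)]
    · rw [b2n_neg h0, b2n_neg h1]
      have : (N u v ∧ ∀ i, ¬ M i u v) ↔ N u v := by
        refine ⟨fun h => h.1, fun h => ⟨h, fun i => ?_⟩⟩
        rcases Fin.exists_fin_two.1 ⟨i, rfl⟩ with rfl | rfl
        · exact h0
        · exact h1
      rw [b2n_congr this]
      rfl

theorem outd_NN_inl {W : Type} [Fintype W] (N : W → W → Prop) (M : Fin 2 → W → W → Prop)
    (RB : Fin 2 → Fin 2 → Prop) (hM : Mat N M) (w : W) :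
    outd (NN N M RB) (.inl w) + 2 = outd N w + (b2n (nd (M 0) w) + b2n (nd (M 1) w)) +
      (b2n (nr (M 0) w) + b2n (nr (M 1) w)) := by
  have e1 : outd (NN N M RB) (.inl w) = cnt (fun v => N w v ∧ ∀ i, ¬ M i w v) +
      (b2n (nr (M 0) w) + b2n (nr (M 1) w)) := by
    unfold outd
    rw [cnt_sum, deg_cnt_two]
    rfl
  have e2 : cnt (fun v => N w v ∧ ∀ i, ¬ M i w v) +
      (cnt (fun v => M 0 w v) + cnt (fun v => M 1 w v)) = outd N w := by
    unfold outd cnt
    rw [← Finset.sum_add_distrib, ← Finset.sum_add_distrib]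
    exact Finset.sum_congr rfl (fun v _ => deg_pt N M hM w v)
  have e3 := deg_row (M 0) (hM.func 0) w
  have e4 := deg_row (M 1) (hM.func 1) w
  omega

theorem indg_NN_inl {W : Type} [Fintype W] (N : W → W → Prop) (M : Fin 2 → W → W → Prop)
    (RB : Fin 2 → Fin 2 → Prop) (hM : Mat N M) (w : W) :
    indg (NN N M RB) (.inl w) + 2 = indg N w + (b2n (nd (M 0) w) + b2n (nd (M 1) w)) +
      (b2n (nr (M 0) w) + b2n (nr (M 1) w)) := by
  have e1 : indg (NN N M RB) (.inl w) = cnt (fun v => N v w ∧ ∀ i, ¬ M i v w) +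
      (b2n (nd (M 0) w) + b2n (nd (M 1) w)) := by
    unfold indg
    rw [cnt_sum, deg_cnt_two]
    rfl
  have e2 : cnt (fun v => N v w ∧ ∀ i, ¬ M i v w) +
      (cnt (fun v => M 0 v w) + cnt (fun v => M 1 v w)) = indg N w := by
    unfold indg cnt
    rw [← Finset.sum_add_distrib, ← Finset.sum_add_distrib]
    exact Finset.sum_congr rfl (fun v _ => deg_pt N M hM v w)
  have e3 := deg_col (M 0) (hM.inj 0) w
  have e4 := deg_col (M 1) (hM.inj 1) w
  omega

theorem outd_NN_inr {W : Type} [Fintype W] (N : W → W → Prop) (M : Fin 2 → W → W → Prop)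
    (RB : Fin 2 → Fin 2 → Prop) (i : Fin 2) :
    outd (NN N M RB) (.inr i) = cnt (nd (M i)) + cnt (fun j => RB i j) := by
  unfold outd
  rw [cnt_sum]
  rfl

theorem indg_NN_inr {W : Type} [Fintype W] (N : W → W → Prop) (M : Fin 2 → W → W → Prop)
    (RB : Fin 2 → Fin 2 → Prop) (i : Fin 2) :
    indg (NN N M RB) (.inr i) = cnt (nr (M i)) + cnt (fun j => RB j i) := by
  unfold indg
  rw [cnt_sum]
  rfl

theorem deg_arcs {W : Type} [Fintype W] (R : W → W → Prop) (P Q : W → Prop)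
    (h : ∀ u v, R u v → (P u ↔ Q v)) : sumOn P (outd R) = sumOn Q (indg R) := by
  unfold sumOn outd indg cnt
  simp_rw [Finset.mul_sum]
  rw [Finset.sum_comm]
  refine Finset.sum_congr rfl (fun v _ => Finset.sum_congr rfl (fun u _ => ?_))
  by_cases hR : R u v
  · rw [b2n_congr (h u v hR)]
  · rw [b2n_neg hR, mul_zero, mul_zero]

/-- the number of arcs of `N` outside `N1` -/
theorem deg_diff_out {W : Type} [Fintype W] (N N1 : W → W → Prop)
    (hN1 : ∀ u v, N1 u v → N u v) (w : W) :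
    outd N1 w + outd (fun u v => N u v ∧ ¬ N1 u v) w = outd N w := by
  unfold outd cnt
  rw [← Finset.sum_add_distrib]
  refine Finset.sum_congr rfl (fun v _ => ?_)
  by_cases h1 : N1 w v
  · rw [b2n_pos h1, b2n_pos (hN1 _ _ h1), b2n_neg (fun h : N w v ∧ ¬ N1 w v => h.2 h1)]
  · rw [b2n_neg h1, zero_add]
    exact b2n_congr ⟨fun h => h.1, fun h => ⟨h, h1⟩⟩

theorem deg_diff_in {W : Type} [Fintype W] (N N1 : W → W → Prop)
    (hN1 : ∀ u v, N1 u v → N u v) (w : W) :
    indg N1 w + indg (fun u v => N u v ∧ ¬ N1 u v) w = indg N w := by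
  unfold indg cnt
  rw [← Finset.sum_add_distrib]
  refine Finset.sum_congr rfl (fun v _ => ?_)
  by_cases h1 : N1 v w
  · rw [b2n_pos h1, b2n_pos (hN1 _ _ h1), b2n_neg (fun h : N v w ∧ ¬ N1 v w => h.2 h1)]
  · rw [b2n_neg h1, zero_add]
    exact b2n_congr ⟨fun h => h.1, fun h => ⟨h, h1⟩⟩

theorem deg_cast_sub (d y : ℕ) (h : y ≤ 2 * d - 2) :
    ((2 * d - 2 - y : ℕ) : ZMod 2) = (y : ZMod 2) := by
  have h20 : (2 : ZMod 2) = 0 := rfl
  have h1 : (2 * d - 2 - y) + y = 2 * (d - 1) := by omega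
  have h2 : (((2 * d - 2 - y) + y : ℕ) : ZMod 2) = ((2 * (d - 1) : ℕ) : ZMod 2) := by rw [h1]
  rw [Nat.cast_add, Nat.cast_mul, Nat.cast_ofNat, h20, zero_mul] at h2
  have h3 : ((2 * d - 2 - y : ℕ) : ZMod 2) = - (y : ZMod 2) := eq_neg_of_add_eq_zero_left h2
  rw [h3]
  exact ZMod.neg_eq_self_mod_two _

theorem parity_formula {W : Type} [Fintype W] (N N1 : W → W → Prop) (M : Fin 2 → W → W → Prop)
    (RB : Fin 2 → Fin 2 → Prop) (d : ℕ) (hd : 2 ≤ d)
    (hbal : ∀ w, outd N w = indg N w) (hle : ∀ w, outd N w ≤ 2 * d)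
    (hN1 : ∀ u v, N1 u v → N u v) (hs : ∀ w, outd N1 w + indg N1 w = outd N w)
    (hM : Mat N1 M)
    (hdo : ∀ w, outd N1 w + (b2n (nd (M 0) w) + b2n (nd (M 1) w)) ≤ d)
    (hdi : ∀ w, indg N1 w + (b2n (nr (M 0) w) + b2n (nr (M 1) w)) ≤ d)
    (hRB : ∀ i, cnt (fun j => RB i j) = cnt (fun j => RB j i))
    (hb : ∀ i, cnt (nd (M i)) + cnt (fun j => RB i j) ≤ 2 * d - 2)
    (A B : W ⊕ Fin 2 → Prop) (hcl : Closed (NN N M RB) (2 * d - 2) A B) :
    Even (sumOn A (fun x => 2 * d - 2 - outd (NN N M RB) x) +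
      ((b2n (A (.inr 0)) * (d + cnt (fun j => RB 0 j)) + b2n (B (.inr 0)) * (d + cnt (nd (M 0)))) +
       (b2n (A (.inr 1)) * (d + cnt (fun j => RB 1 j)) +
        b2n (B (.inr 1)) * (d + cnt (nd (M 1)))))) := by
  have hMN : Mat N M := ⟨fun i u v h => hN1 u v (hM.sub i u v h), hM.func, hM.inj, hM.disj⟩
  set K := NN N M RB with hK
  have hol : ∀ w, outd K (.inl w) + 2 = outd N w + (b2n (nd (M 0) w) + b2n (nd (M 1) w)) +
      (b2n (nr (M 0) w) + b2n (nr (M 1) w)) := outd_NN_inl N M RB hMN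
  have hil : ∀ w, indg K (.inl w) + 2 = indg N w + (b2n (nd (M 0) w) + b2n (nd (M 1) w)) +
      (b2n (nr (M 0) w) + b2n (nr (M 1) w)) := indg_NN_inl N M RB hMN
  have hor : ∀ i, outd K (.inr i) = cnt (nd (M i)) + cnt (fun j => RB i j) := outd_NN_inr N M RB
  have hir : ∀ i, indg K (.inr i) = cnt (nr (M i)) + cnt (fun j => RB j i) := indg_NN_inr N M RB
  have hbalK : ∀ x, outd K x = indg K x := by
    rintro (w | i)
    · have h1 := hol w
      have h2 := hil w
      have h3 := hbal w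
      omega
    · rw [hor, hir, cnt_nd_eq_nr (M i) (hM.func i) (hM.inj i), hRB]
  have hleK : ∀ x, outd K x ≤ 2 * d - 2 := by
    rintro (w | i)
    · have h1 := hol w
      have h2 := hs w
      have h3 := hdo w
      have h4 := hdi w
      omega
    · rw [hor]; exact hb i
  -- (1)
  have h1 : sumOn (fun w => A (.inl w)) (indg N1) = sumOn (fun w => B (.inl w)) (outd N1) := by
    have e1 := deg_arcs (fun u v => N u v ∧ ¬ N1 u v) (fun w => A (.inl w))
      (fun w => B (.inl w)) (by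
        rintro u v ⟨huv, hn⟩
        refine hcl.1 (.inl u) (.inl v) ⟨huv, fun i hi => hn (hM.sub i u v hi)⟩)
    have e2 : ∀ w, outd (fun u v => N u v ∧ ¬ N1 u v) w = indg N1 w := by
      intro w
      have a1 := deg_diff_out N N1 hN1 w
      have a2 := hs w
      omega
    have e3 : ∀ w, indg (fun u v => N u v ∧ ¬ N1 u v) w = outd N1 w := by
      intro w
      have a1 := deg_diff_in N N1 hN1 w
      have a2 := hs w
      have a3 := hbal w
      omega
    rw [sumOn_congr (fun w => Iff.rfl) (fun w _ => (e2 w).symm), e1]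
    exact sumOn_congr (fun w => Iff.rfl) (fun w _ => e3 w)
  -- (2)
  have h2 : cnt A = cnt B := by
    have e1 : sumOn A (outd K) = sumOn B (outd K) := by
      rw [deg_arcs K A B hcl.1]
      exact sumOn_congr (fun _ => Iff.rfl) (fun x _ => (hbalK x).symm)
    have e2 : sumOn A (fun x => 2 * d - 2 - outd K x) = sumOn B (fun x => 2 * d - 2 - outd K x) := by
      unfold sumOn
      refine Finset.sum_congr rfl (fun x _ => ?_)
      by_cases hx : outd K x < 2 * d - 2
      · rw [b2n_congr (hcl.2 x hx)]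
      · have : 2 * d - 2 - outd K x = 0 := by omega
        simp only [this, mul_zero]
    have e3 : ∀ P : W ⊕ Fin 2 → Prop, cnt P * (2 * d - 2) =
        sumOn P (fun x => 2 * d - 2 - outd K x) + sumOn P (outd K) := by
      intro P
      rw [← sumOn_add, ← sumOn_const]
      refine sumOn_congr (fun _ => Iff.rfl) (fun x _ => ?_)
      have := hleK x
      omega
    have e4 : cnt A * (2 * d - 2) = cnt B * (2 * d - 2) := by rw [e3, e3, e1, e2]
    exact Nat.eq_of_mul_eq_mul_right (by omega) e4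
  rw [cnt_sum, cnt_sum, deg_cnt_two, deg_cnt_two] at h2
  -- (4)
  have h4 : ∀ i, ∑ w, b2n (A (.inl w)) * b2n (nr (M i) w) = b2n (B (.inr i)) * cnt (nd (M i)) := by
    intro i
    rw [cnt_nd_eq_nr (M i) (hM.func i) (hM.inj i)]
    unfold cnt
    rw [Finset.mul_sum]
    refine Finset.sum_congr rfl (fun w _ => ?_)
    by_cases hw : nr (M i) w
    · rw [b2n_congr (hcl.1 (.inl w) (.inr i) hw)]
    · rw [b2n_neg hw, mul_zero, mul_zero]
  have h5 : ∀ i, ∑ w, b2n (B (.inl w)) * b2n (nd (M i) w) = b2n (A (.inr i)) * cnt (nd (M i)) := by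
    intro i
    unfold cnt
    rw [Finset.mul_sum]
    refine Finset.sum_congr rfl (fun w _ => ?_)
    by_cases hw : nd (M i) w
    · rw [b2n_congr (hcl.1 (.inr i) (.inl w) hw)]
    · rw [b2n_neg hw, mul_zero, mul_zero]
  -- the pointwise congruence
  have h20 : (2 : ZMod 2) = 0 := rfl
  have hpt : ∀ w, (b2n (A (.inl w)) : ZMod 2) * (outd K (.inl w) : ZMod 2) =
      (b2n (A (.inl w)) : ZMod 2) * (indg N1 w : ZMod 2) +
      (b2n (B (.inl w)) : ZMod 2) * (outd N1 w : ZMod 2) +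
      (d : ZMod 2) * ((b2n (A (.inl w)) : ZMod 2) + (b2n (B (.inl w)) : ZMod 2)) +
      (b2n (A (.inl w)) : ZMod 2) * ((b2n (nr (M 0) w) : ZMod 2) + (b2n (nr (M 1) w) : ZMod 2)) +
      (b2n (B (.inl w)) : ZMod 2) * ((b2n (nd (M 0) w) : ZMod 2) + (b2n (nd (M 1) w) : ZMod 2)) := by
    intro w
    have a1 : (outd K (.inl w) : ZMod 2) = (outd N1 w : ZMod 2) + (indg N1 w : ZMod 2) +
        ((b2n (nd (M 0) w) : ZMod 2) + (b2n (nd (M 1) w) : ZMod 2)) +
        ((b2n (nr (M 0) w) : ZMod 2) + (b2n (nr (M 1) w) : ZMod 2)) := by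
      have b1 := hol w
      rw [← hs w] at b1
      have b2 := congrArg (Nat.cast : ℕ → ZMod 2) b1
      push_cast at b2
      linear_combination b2 - h20
    by_cases hA : A (.inl w) <;> by_cases hB : B (.inl w)
    · rw [b2n_pos hA, b2n_pos hB, a1]
      push_cast
      linear_combination (-(d : ZMod 2)) * h20
    · have hx : ¬ outd K (.inl w) < 2 * d - 2 := fun h => hB ((hcl.2 _ h).1 hA)
      have b1 := hol w
      have b2 := hs w
      have b3 := hdo w
      have b4 := hdi w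
      have c1 : indg N1 w + (b2n (nr (M 0) w) + b2n (nr (M 1) w)) = d := by omega
      have c2 : outd N1 w + (b2n (nd (M 0) w) + b2n (nd (M 1) w)) = d := by omega
      have c1' := congrArg (Nat.cast : ℕ → ZMod 2) c1
      have c2' := congrArg (Nat.cast : ℕ → ZMod 2) c2
      push_cast at c1' c2'
      rw [b2n_pos hA, b2n_neg hB, a1]
      push_cast
      linear_combination c2'
    · have hx : ¬ outd K (.inl w) < 2 * d - 2 := fun h => hA ((hcl.2 _ h).2 hB)
      have b1 := hol w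
      have b2 := hs w
      have b3 := hdo w
      have b4 := hdi w
      have c2 : outd N1 w + (b2n (nd (M 0) w) + b2n (nd (M 1) w)) = d := by omega
      have c2' := congrArg (Nat.cast : ℕ → ZMod 2) c2
      push_cast at c2'
      rw [b2n_neg hA, b2n_pos hB]
      push_cast
      linear_combination - c2' - (d : ZMod 2) * h20
    · rw [b2n_neg hA, b2n_neg hB]
      push_cast
      ring
  have hsum := Finset.sum_congr (rfl : (univ : Finset W) = univ) (fun w _ => hpt w)
  simp only [mul_add] at hsum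
  simp only [Finset.sum_add_distrib] at hsum
  have h1' := congrArg (Nat.cast : ℕ → ZMod 2) h1
  have h2' := congrArg (Nat.cast : ℕ → ZMod 2) h2
  have h40 := congrArg (Nat.cast : ℕ → ZMod 2) (h4 0)
  have h41 := congrArg (Nat.cast : ℕ → ZMod 2) (h4 1)
  have h50 := congrArg (Nat.cast : ℕ → ZMod 2) (h5 0)
  have h51 := congrArg (Nat.cast : ℕ → ZMod 2) (h5 1)
  unfold sumOn at h1'
  unfold cnt at h2'
  push_cast at h1' h2' h40 h41 h50 h51
  rw [← Finset.mul_sum, ← Finset.mul_sum, h40, h41, h50, h51, h1'] at hsum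
  have hg : ((sumOn A (fun x => 2 * d - 2 - outd K x) : ℕ) : ZMod 2) =
      ∑ w, (b2n (A (.inl w)) : ZMod 2) * (outd K (.inl w) : ZMod 2) +
      ((b2n (A (.inr 0)) : ZMod 2) * (outd K (.inr 0) : ZMod 2) +
       (b2n (A (.inr 1)) : ZMod 2) * (outd K (.inr 1) : ZMod 2)) := by
    rw [sumOn_sum]
    unfold sumOn
    rw [Fin.sum_univ_two]
    push_cast
    rw [deg_cast_sub d _ (hleK _), deg_cast_sub d _ (hleK _)]
    congr 1
    exact Finset.sum_congr rfl (fun w _ => by rw [deg_cast_sub d _ (hleK _)])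
  rw [← ZMod.natCast_eq_zero_iff_even]
  push_cast
  rw [hg, hsum, hor 0, hor 1]
  push_cast
  generalize (∑ x, (b2n (B (Sum.inl x)) : ZMod 2) * (outd N1 x : ZMod 2)) = SI at *
  generalize (∑ x, (b2n (A (Sum.inl x)) : ZMod 2)) = Sa at *
  generalize (∑ x, (b2n (B (Sum.inl x)) : ZMod 2)) = Sb at *
  generalize (b2n (A (Sum.inr 0)) : ZMod 2) = A0 at *
  generalize (b2n (A (Sum.inr 1)) : ZMod 2) = A1 at *
  generalize (b2n (B (Sum.inr 0)) : ZMod 2) = B0 at *
  generalize (b2n (B (Sum.inr 1)) : ZMod 2) = B1 at *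
  generalize (cnt (nd (M 0)) : ZMod 2) = x0 at *
  generalize (cnt (nd (M 1)) : ZMod 2) = x1 at *
  generalize (cnt (fun j => RB 0 j) : ZMod 2) = r0 at *
  generalize (cnt (fun j => RB 1 j) : ZMod 2) = r1 at *
  linear_combination (d : ZMod 2) * h2' +
    (SI + B0 * x0 + B1 * x1 + A0 * x0 + A1 * x1 + A0 * r0 + A1 * r1 +
      (d : ZMod 2) * (Sb + B0 + B1)) * h20

end Pool.Agent.Helper40.SSQ
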