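import Mathlib
import Pool.Agent.Helper40.SSQ.Defs
import Pool.Agent.Helper74.SSQ.Color

set_option autoImplicit false

namespace Pool.Agent.Helper40.SSQ

open Finset

namespace Equit

/-- König's theorem with counts. -/
theorem konig' {E L R : Type} [Fintype E] [Fintype L] [Fintype R] (l : E → L) (r : E → R)
    (w : ℕ) (hl : ∀ u, cnt (fun e => l e = u) = w) (hr : ∀ v, cnt (fun e => r e = v) = w) :
    ∃ c : E → Fin w, (∀ u i, cnt (fun e => l e = u ∧ c e = i) = 1) ∧
      (∀ v i, cnt (fun e => r e = v ∧ c e = i) = 1) := by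
  classical
  obtain ⟨c, h1, h2, h3⟩ := Pool.Agent.Helper74.SSQ.konig l r w univ
    (fun u => by rw [← cnt_eq_card]; exact hl u) (fun v => by rw [← cnt_eq_card]; exact hr v)
  refine ⟨fun e => ⟨c e, h1 e (mem_univ e)⟩, fun u i => ?_, fun v i => ?_⟩
  · rw [← h2 u i i.2, cnt_eq_card]
    congr 1
    ext e
    simp [Fin.ext_iff]
  · rw [← h3 v i i.2, cnt_eq_card]
    congr 1
    ext e
    simp [Fin.ext_iff]

theorem sum_fiber {X Y : Type} [Fintype X] [Fintype Y] (f : X → Y) (p : X → Prop) :
    ∑ y, cnt (fun x => f x = y ∧ p x) = cnt p := by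
  classical
  unfold cnt
  rw [Finset.sum_comm]
  refine Finset.sum_congr rfl fun x _ => ?_
  rw [Finset.sum_eq_single (f x)]
  · exact b2n_congr ⟨fun h => h.2, fun h => ⟨rfl, h⟩⟩
  · intro y _ hy
    exact b2n_neg fun h => hy h.1.symm
  · intro h; exact absurd (mem_univ _) h

theorem cnt_sigma {W : Type} [Fintype W] (g : W → ℕ) (w : W) :
    cnt (fun x : Σ w, Fin (g w) => x.1 = w) = g w := by
  classical
  unfold cnt
  rw [Fintype.sum_sigma, Finset.sum_eq_single w]
  · simp
  · intro v _ hv
    apply Finset.sum_eq_zero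
    intro j _
    exact b2n_neg hv
  · intro h; exact absurd (mem_univ _) h

theorem cnt_sub {X : Type} [Fintype X] (p q : X → Prop) [Fintype {x // p x}] :
    cnt (fun x : {x // p x} => q x.1) = cnt (fun x => p x ∧ q x) := by
  classical
  rw [cnt_eq_card, cnt_eq_card]
  rw [← Finset.card_map (Function.Embedding.subtype p)]
  congr 1
  ext x
  simp only [mem_map, mem_filter, mem_univ, true_and, Function.Embedding.coe_subtype]
  constructor
  · rintro ⟨a, ha, rfl⟩; exact ⟨a.2, ha⟩
  · rintro ⟨h1, h2⟩; exact ⟨⟨x, h1⟩, h2, rfl⟩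

theorem cnt_arc_fst {W : Type} [Fintype W] (N : W → W → Prop) (w : W)
    [Fintype {p : W × W // N p.1 p.2}] :
    cnt (fun p : {p : W × W // N p.1 p.2} => p.1.1 = w) = outd N w := by
  classical
  rw [cnt_sub (fun p : W × W => N p.1 p.2) (fun p => p.1 = w)]
  unfold outd cnt
  rw [Fintype.sum_prod_type, Finset.sum_eq_single w]
  · exact Finset.sum_congr rfl fun v _ => b2n_congr ⟨fun h => h.1, fun h => ⟨h, rfl⟩⟩
  · intro u _ hu
    apply Finset.sum_eq_zero
    intro v _
    exact b2n_neg fun h => hu h.2
  · intro h; exact absurd (mem_univ _) h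

theorem cnt_arc_snd {W : Type} [Fintype W] (N : W → W → Prop) (w : W)
    [Fintype {p : W × W // N p.1 p.2}] :
    cnt (fun p : {p : W × W // N p.1 p.2} => p.1.2 = w) = indg N w := by
  classical
  rw [cnt_sub (fun p : W × W => N p.1 p.2) (fun p => p.2 = w)]
  unfold indg cnt
  rw [Fintype.sum_prod_type]
  refine Finset.sum_congr rfl fun v _ => ?_
  rw [Finset.sum_eq_single w]
  · exact b2n_congr ⟨fun h => h.1, fun h => ⟨h, rfl⟩⟩
  · intro u _ hu
    exact b2n_neg fun h => hu h.2
  · intro h; exact absurd (mem_univ _) h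

/-- The distribution of the leaves over the dummy vertices. -/
def dist {q d r : ℕ} : (Fin q × Fin d) ⊕ Fin r → Option (Fin q)
  | .inl x => some x.1
  | .inr _ => none

theorem cnt_dist {q d r : ℕ} (y : Option (Fin q)) :
    cnt (fun z : (Fin q × Fin d) ⊕ Fin r => dist z = y) = match y with
      | some _ => d
      | none => r := by
  classical
  rw [cnt_sum]
  cases y with
  | none =>
    have h1 : cnt (fun w : Fin q × Fin d => dist (r := r) (Sum.inl w) = none) = 0 :=
      cnt_eq_zero.2 fun w => by simp [dist]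
    have h2 : cnt (fun v : Fin r => dist (q := q) (d := d) (Sum.inr v) = none) = r := by
      rw [cnt_congr (q := fun _ => True) (fun w => by simp [dist]), cnt_true, Fintype.card_fin]
    rw [h1, h2, zero_add]
  | some a =>
    have h1 : cnt (fun w : Fin q × Fin d => dist (r := r) (Sum.inl w) = some a) = d := by
      unfold cnt
      rw [Fintype.sum_prod_type, Finset.sum_eq_single a]
      · simp [dist]
      · intro b _ hb
        apply Finset.sum_eq_zero
        intro v _
        exact b2n_neg fun h => hb (by simpa [dist] using h)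
      · intro h; exact absurd (mem_univ _) h
    have h2 : cnt (fun v : Fin r => dist (q := q) (d := d) (Sum.inr v) = some a) = 0 :=
      cnt_eq_zero.2 fun w => by simp [dist]
    rw [h1, h2, add_zero]

end Equit

open Equit in
/-- Equitable edge-colouring. -/
theorem equitable {W : Type} [Fintype W] (N1 : W → W → Prop) (d q r : ℕ) (hr : r < d)
    (ho : ∀ w, outd N1 w ≤ d) (hi : ∀ w, indg N1 w ≤ d)
    (hq : ∑ w, (d - outd N1 w) = d * q + r) :
    ∃ M : Fin d → W → W → Prop,
      (∀ u v, N1 u v ↔ ∃ i, M i u v) ∧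
      (∀ i j u v, M i u v → M j u v → i = j) ∧
      (∀ i u v v', M i u v → M i u v' → v = v') ∧
      (∀ i u u' v, M i u v → M i u' v → u = u') ∧
      ∃ S : Finset (Fin d), S.card = r ∧ (∀ i ∈ S, cnt (nd (M i)) = q + 1) ∧
        (∀ i, i ∉ S → cnt (nd (M i)) = q) := by
  classical
  have hqi : ∑ w, (d - indg N1 w) = d * q + r := by
    have h1 : ∑ w, (d - outd N1 w) + ∑ w, outd N1 w = ∑ _w : W, d := by
      rw [← Finset.sum_add_distrib]
      exact Finset.sum_congr rfl fun w _ => Nat.sub_add_cancel (ho w)
    have h2 : ∑ w, (d - indg N1 w) + ∑ w, indg N1 w = ∑ _w : W, d := by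
      rw [← Finset.sum_add_distrib]
      exact Finset.sum_congr rfl fun w _ => Nat.sub_add_cancel (hi w)
    have h3 := sum_outd_eq_sum_indg N1
    omega
  have cO : Fintype.card (Σ w, Fin (d - outd N1 w)) =
      Fintype.card ((Fin q × Fin d) ⊕ Fin r) := by
    simp only [Fintype.card_sigma, Fintype.card_fin, Fintype.card_sum, Fintype.card_prod]
    rw [hq, mul_comm]
  have cI : Fintype.card (Σ w, Fin (d - indg N1 w)) =
      Fintype.card ((Fin q × Fin d) ⊕ Fin r) := by
    simp only [Fintype.card_sigma, Fintype.card_fin, Fintype.card_sum, Fintype.card_prod]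
    rw [hqi, mul_comm]
  have φ := Fintype.equivOfCardEq cO
  have ψ := Fintype.equivOfCardEq cI
  let A := {p : W × W // N1 p.1 p.2}
  let O := Σ w, Fin (d - outd N1 w)
  let I := Σ w, Fin (d - indg N1 w)
  let E := A ⊕ O ⊕ I ⊕ Fin (d - r)
  let l : E → W ⊕ Option (Fin q) := fun e => match e with
    | .inl p => .inl p.1.1
    | .inr (.inl x) => .inl x.1
    | .inr (.inr (.inl x)) => .inr (dist (ψ x))
    | .inr (.inr (.inr _)) => .inr none
  let rr : E → W ⊕ Option (Fin q) := fun e => match e with
    | .inl p => .inl p.1.2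
    | .inr (.inl x) => .inr (dist (φ x))
    | .inr (.inr (.inl x)) => .inl x.1
    | .inr (.inr (.inr _)) => .inr none
  have hl : ∀ u, cnt (fun e => l e = u) = d := by
    intro u
    rw [cnt_sum, cnt_sum, cnt_sum]
    rcases u with w | y
    · have e1 : cnt (fun p : A => l (.inl p) = .inl w) = outd N1 w := by
        rw [← cnt_arc_fst N1 w]
        exact cnt_congr fun p => Sum.inl_injective.eq_iff
      have e2 : cnt (fun x : O => l (.inr (.inl x)) = .inl w) = d - outd N1 w := by
        rw [← cnt_sigma (fun w => d - outd N1 w) w]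
        exact cnt_congr fun p => Sum.inl_injective.eq_iff
      have e3 : cnt (fun x : I => l (.inr (.inr (.inl x))) = .inl w) = 0 :=
        cnt_eq_zero.2 fun x => by simp [l]
      have e4 : cnt (fun x : Fin (d - r) => l (.inr (.inr (.inr x))) = .inl w) = 0 :=
        cnt_eq_zero.2 fun x => by simp [l]
      rw [e1, e2, e3, e4]
      have := ho w
      omega
    · have e1 : cnt (fun p : A => l (.inl p) = .inr y) = 0 :=
        cnt_eq_zero.2 fun x => by simp [l]
      have e2 : cnt (fun x : O => l (.inr (.inl x)) = .inr y) = 0 :=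
        cnt_eq_zero.2 fun x => by simp [l]
      have e3 : cnt (fun x : I => l (.inr (.inr (.inl x))) = .inr y) =
          cnt (fun z : (Fin q × Fin d) ⊕ Fin r => dist z = y) := by
        rw [← cnt_equiv ψ]
        exact cnt_congr fun p => Sum.inr_injective.eq_iff
      rw [e1, e2, e3, cnt_dist]
      cases y with
      | none =>
        have e4 : cnt (fun x : Fin (d - r) => l (.inr (.inr (.inr x))) = .inr none) = d - r := by
          rw [cnt_congr (q := fun _ => True) (fun w => by simp [l]), cnt_true, Fintype.card_fin]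
        rw [e4]
        simp only
        omega
      | some a =>
        have e4 : cnt (fun x : Fin (d - r) => l (.inr (.inr (.inr x))) = .inr (some a)) = 0 :=
          cnt_eq_zero.2 fun x => by simp [l]
        rw [e4]
        simp only
        omega
  have hrr : ∀ u, cnt (fun e => rr e = u) = d := by
    intro u
    rw [cnt_sum, cnt_sum, cnt_sum]
    rcases u with w | y
    · have e1 : cnt (fun p : A => rr (.inl p) = .inl w) = indg N1 w := by
        rw [← cnt_arc_snd N1 w]
        exact cnt_congr fun p => Sum.inl_injective.eq_iff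
      have e3 : cnt (fun x : O => rr (.inr (.inl x)) = .inl w) = 0 :=
        cnt_eq_zero.2 fun x => by simp [rr]
      have e2 : cnt (fun x : I => rr (.inr (.inr (.inl x))) = .inl w) = d - indg N1 w := by
        rw [← cnt_sigma (fun w => d - indg N1 w) w]
        exact cnt_congr fun p => Sum.inl_injective.eq_iff
      have e4 : cnt (fun x : Fin (d - r) => rr (.inr (.inr (.inr x))) = .inl w) = 0 :=
        cnt_eq_zero.2 fun x => by simp [rr]
      rw [e1, e2, e3, e4]
      have := hi w
      omega
    · have e1 : cnt (fun p : A => rr (.inl p) = .inr y) = 0 :=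
        cnt_eq_zero.2 fun x => by simp [rr]
      have e2 : cnt (fun x : I => rr (.inr (.inr (.inl x))) = .inr y) = 0 :=
        cnt_eq_zero.2 fun x => by simp [rr]
      have e3 : cnt (fun x : O => rr (.inr (.inl x)) = .inr y) =
          cnt (fun z : (Fin q × Fin d) ⊕ Fin r => dist z = y) := by
        rw [← cnt_equiv φ]
        exact cnt_congr fun p => Sum.inr_injective.eq_iff
      rw [e1, e2, e3, cnt_dist]
      cases y with
      | none =>
        have e4 : cnt (fun x : Fin (d - r) => rr (.inr (.inr (.inr x))) = .inr none) = d - r := by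
          rw [cnt_congr (q := fun _ => True) (fun w => by simp [rr]), cnt_true, Fintype.card_fin]
        rw [e4]
        simp only
        omega
      | some a =>
        have e4 : cnt (fun x : Fin (d - r) => rr (.inr (.inr (.inr x))) = .inr (some a)) = 0 :=
          cnt_eq_zero.2 fun x => by simp [rr]
        rw [e4]
        simp only
        omega
  obtain ⟨c, hc1, hc2⟩ := konig' l rr d hl hrr
  have huniq1 : ∀ (u : W ⊕ Option (Fin q)) (i : Fin d) (e e' : E), l e = u → c e = i →
      l e' = u → c e' = i → e = e' := by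
    intro u i e e' h1 h2 h3 h4
    exact (exists_unique_of_cnt_eq_one (hc1 u i)).unique ⟨h1, h2⟩ ⟨h3, h4⟩
  have huniq2 : ∀ (u : W ⊕ Option (Fin q)) (i : Fin d) (e e' : E), rr e = u → c e = i →
      rr e' = u → c e' = i → e = e' := by
    intro u i e e' h1 h2 h3 h4
    exact (exists_unique_of_cnt_eq_one (hc2 u i)).unique ⟨h1, h2⟩ ⟨h3, h4⟩
  let M : Fin d → W → W → Prop := fun i u v => ∃ h : N1 u v, c (.inl ⟨(u, v), h⟩) = i
  refine ⟨M, ?_, ?_, ?_, ?_, ?_⟩
  · intro u v
    exact ⟨fun h => ⟨_, h, rfl⟩, fun ⟨_, h, _⟩ => h⟩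
  · rintro i j u v ⟨h1, h2⟩ ⟨h3, h4⟩
    rw [← h2, ← h4]
  · rintro i u v v' ⟨h1, h2⟩ ⟨h3, h4⟩
    have h5 := Sum.inl_injective (huniq1 (.inl u) i _ _ rfl h2 rfl h4)
    exact congrArg (fun p : A => p.1.2) h5
  · rintro i u u' v ⟨h1, h2⟩ ⟨h3, h4⟩
    have h5 := Sum.inl_injective (huniq2 (.inl v) i _ _ rfl h2 rfl h4)
    exact congrArg (fun p : A => p.1.1) h5
  · -- number of out-leaves of colour i
    have hA : ∀ i, cnt (nd (M i)) = cnt (fun x : O => c (.inr (.inl x)) = i) := by
      intro i
      rw [← sum_fiber (fun x : O => x.1) (fun x => c (.inr (.inl x)) = i)]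
      unfold cnt
      refine Finset.sum_congr rfl fun w _ => ?_
      have h1 := hc1 (.inl w) i
      rw [cnt_sum, cnt_sum, cnt_sum] at h1
      have e1 : cnt (fun p : A => l (.inl p) = .inl w ∧ c (.inl p) = i) =
          b2n (¬ nd (M i) w) := by
        by_cases h : nd (M i) w
        · rw [b2n_neg (not_not.2 h)]
          apply cnt_eq_zero.2
          rintro ⟨⟨u, v⟩, hp⟩ ⟨h2, h3⟩
          have h2' : u = w := Sum.inl_injective h2
          subst h2'
          exact h v ⟨hp, h3⟩
        · rw [b2n_pos h]
          unfold nd at h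
          push Not at h
          obtain ⟨v, h2, h3⟩ := h
          apply cnt_eq_one ⟨⟨(w, v), h2⟩, rfl, h3⟩
          rintro a b ⟨g1, g2⟩ ⟨g3, g4⟩
          exact Sum.inl_injective (huniq1 _ _ _ _ g1 g2 g3 g4)
      have e2 : cnt (fun x : O => l (.inr (.inl x)) = .inl w ∧ c (.inr (.inl x)) = i) =
          ∑ x : O, b2n (x.1 = w ∧ c (.inr (.inl x)) = i) := by
        unfold cnt
        exact Finset.sum_congr rfl fun x _ =>
          b2n_congr (and_congr_left' Sum.inl_injective.eq_iff)
      have e3 : cnt (fun x : I => l (.inr (.inr (.inl x))) = .inl w ∧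
          c (.inr (.inr (.inl x))) = i) = 0 := cnt_eq_zero.2 fun x => by simp [l]
      have e4 : cnt (fun x : Fin (d - r) => l (.inr (.inr (.inr x))) = .inl w ∧
          c (.inr (.inr (.inr x))) = i) = 0 := cnt_eq_zero.2 fun x => by simp [l]
      rw [e1, e2, e3, e4] at h1
      have h2 := b2n_not (nd (M i) w)
      change b2n (nd (M i) w) = ∑ x : O, b2n (x.1 = w ∧ c (.inr (.inl x)) = i)
      omega
    have hB : ∀ i, cnt (fun x : O => c (.inr (.inl x)) = i) +
        cnt (fun x : Fin (d - r) => c (.inr (.inr (.inr x))) = i) = q + 1 := by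
      intro i
      rw [← sum_fiber (fun x : O => dist (φ x)) (fun x => c (.inr (.inl x)) = i),
        ← sum_fiber (fun _ : Fin (d - r) => (none : Option (Fin q)))
          (fun x => c (.inr (.inr (.inr x))) = i), ← Finset.sum_add_distrib]
      have : ∀ y : Option (Fin q), cnt (fun x : O => dist (φ x) = y ∧ c (.inr (.inl x)) = i) +
          cnt (fun x : Fin (d - r) => none = y ∧ c (.inr (.inr (.inr x))) = i) = 1 := by
        intro y
        have h1 := hc2 (.inr y) i
        rw [cnt_sum, cnt_sum, cnt_sum] at h1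
        have e1 : cnt (fun p : A => rr (.inl p) = .inr y ∧ c (.inl p) = i) = 0 :=
          cnt_eq_zero.2 fun x => by simp [rr]
        have e2 : cnt (fun x : O => rr (.inr (.inl x)) = .inr y ∧ c (.inr (.inl x)) = i) =
            cnt (fun x : O => dist (φ x) = y ∧ c (.inr (.inl x)) = i) :=
          cnt_congr fun x => and_congr_left' Sum.inr_injective.eq_iff
        have e3 : cnt (fun x : I => rr (.inr (.inr (.inl x))) = .inr y ∧
            c (.inr (.inr (.inl x))) = i) = 0 := cnt_eq_zero.2 fun x => by simp [rr]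
        have e4 : cnt (fun x : Fin (d - r) => rr (.inr (.inr (.inr x))) = .inr y ∧
            c (.inr (.inr (.inr x))) = i) =
            cnt (fun x : Fin (d - r) => none = y ∧ c (.inr (.inr (.inr x))) = i) :=
          cnt_congr fun x => and_congr_left' Sum.inr_injective.eq_iff
        rw [e1, e2, e3, e4] at h1
        omega
      rw [Finset.sum_congr rfl (fun y _ => this y)]
      simp
    let S : Finset (Fin d) := univ \ univ.image (fun x : Fin (d - r) => c (.inr (.inr (.inr x))))
    have hinj : Function.Injective (fun x : Fin (d - r) => c (.inr (.inr (.inr x)))) := by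
      intro x y hxy
      have := huniq1 (.inr none) _ (.inr (.inr (.inr x))) (.inr (.inr (.inr y))) rfl rfl rfl
        hxy.symm
      exact Sum.inr_injective (Sum.inr_injective (Sum.inr_injective this))
    refine ⟨S, ?_, ?_, ?_⟩
    · rw [Finset.card_sdiff_of_subset (subset_univ _), Finset.card_image_of_injective _ hinj]
      simp only [card_univ, Fintype.card_fin]
      omega
    · intro i hiS
      have h0 : cnt (fun x : Fin (d - r) => c (.inr (.inr (.inr x))) = i) = 0 := by
        apply cnt_eq_zero.2
        intro x hx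
        simp only [S, mem_sdiff, mem_univ, true_and, mem_image, not_exists] at hiS
        exact hiS x hx
      have := hB i
      rw [hA i]
      omega
    · intro i hiS
      have h0 : cnt (fun x : Fin (d - r) => c (.inr (.inr (.inr x))) = i) = 1 := by
        simp only [S, mem_sdiff, mem_univ, true_and, mem_image, not_exists, not_forall,
          not_not] at hiS
        apply cnt_eq_one hiS
        intro x y hx hy
        exact hinj (hx.trans hy.symm)
      have := hB i
      rw [hA i]
      omega

end Pool.Agent.Helper40.SSQ
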