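import Mathlib
import Pool.Agent.Helper40.SSQ.Defs

set_option autoImplicit false

/-! Module E: lifting a completion of the reduced digraph. -/

namespace Pool.Agent.Helper40.SSQ

open Finset

private def liftM {W C : Type} (M : Fin 2 → W → W → Prop) :
    W ⊕ (Fin 2 ⊕ C) → W ⊕ (Fin 2 ⊕ C) → W ⊕ (Fin 2 ⊕ C) → Prop
  | .inl u, .inl v, .inr (.inl i) => M i u v
  | .inl v, .inr (.inl i), .inl u => M i u v
  | .inr (.inl i), .inl u, .inl v => M i u v
  | _, _, _ => False

private def liftP {W C : Type} (PB : Fin 2 → Fin 2 → Fin 2 → Prop) :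
    W ⊕ (Fin 2 ⊕ C) → W ⊕ (Fin 2 ⊕ C) → W ⊕ (Fin 2 ⊕ C) → Prop
  | .inr (.inl i), .inr (.inl j), .inr (.inl k) => PB i j k
  | _, _, _ => False

private theorem liftM_pss {W C : Type} {N : W → W → Prop} {M : Fin 2 → W → W → Prop}
    (hM : Mat N M) : PSS (liftM (C := C) M) := by
  refine ⟨?_, ?_⟩
  · rintro (x | x | x) (y | y | y) (z | z | z) h <;> simp only [liftM] at h ⊢ <;> exact h
  · rintro (x | x | x) (y | y | y) (z | z | z) (w | w | w) h h' <;>
      simp only [liftM] at h h' ⊢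
    · rw [hM.disj _ _ _ _ h h']
    · rw [hM.inj _ _ _ _ h h']
    · rw [hM.func _ _ _ _ h h']

private theorem liftP_pss {W C : Type} {PB : Fin 2 → Fin 2 → Fin 2 → Prop}
    (hPB : PSS PB) : PSS (liftP (W := W) (C := C) PB) := by
  refine ⟨?_, ?_⟩
  · rintro (x | x | x) (y | y | y) (z | z | z) h <;> simp only [liftP] at h ⊢
    exact hPB.rot _ _ _ h
  · rintro (x | x | x) (y | y | y) (z | z | z) (w | w | w) h h' <;>
      simp only [liftP] at h h' ⊢
    rw [hPB.func _ _ _ _ h h']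

private def domM {W C : Type} (M : Fin 2 → W → W → Prop) :
    W ⊕ (Fin 2 ⊕ C) → W ⊕ (Fin 2 ⊕ C) → Prop
  | .inl u, .inl v => ∃ i, M i u v
  | .inl v, .inr (.inl i) => ¬ nr (M i) v
  | .inr (.inl i), .inl u => ¬ nd (M i) u
  | _, _ => False

private def domP {W C : Type} (RB : Fin 2 → Fin 2 → Prop) :
    W ⊕ (Fin 2 ⊕ C) → W ⊕ (Fin 2 ⊕ C) → Prop
  | .inr (.inl i), .inr (.inl j) => ¬ RB i j
  | _, _ => False

private theorem dom_liftM {W C : Type} (M : Fin 2 → W → W → Prop)
    (x y : W ⊕ (Fin 2 ⊕ C)) : Dom (liftM M) x y ↔ domM M x y := by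
  unfold Dom
  rcases x with x | x | x <;> rcases y with y | y | y <;>
    simp only [Sum.exists, liftM, domM, nd, nr, not_forall, not_not, exists_false, or_false,
      false_or]

private theorem dom_liftP {W C : Type} {PB : Fin 2 → Fin 2 → Fin 2 → Prop}
    {RB : Fin 2 → Fin 2 → Prop} (hdom : ∀ i j, Dom PB i j ↔ ¬ RB i j)
    (x y : W ⊕ (Fin 2 ⊕ C)) : Dom (liftP PB) x y ↔ domP RB x y := by
  unfold Dom
  rcases x with x | x | x <;> rcases y with y | y | y <;>
    simp only [Sum.exists, liftP, domP, exists_false, or_false, false_or]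
  exact hdom x y

theorem step_lift {W : Type} (N : W → W → Prop) (M : Fin 2 → W → W → Prop)
    (RB : Fin 2 → Fin 2 → Prop) (PB : Fin 2 → Fin 2 → Fin 2 → Prop) (hPB : PSS PB)
    (hdom : ∀ i j, Dom PB i j ↔ ¬ RB i j) (hM : Mat N M) (C : Type) (f : W × W)
    (hc : Compl (NN N M RB) C (Sum.inl f.1, Sum.inl f.2)) : Compl N (Fin 2 ⊕ C) f := by
  obtain ⟨T, h1, h2, c, hc1, hc2⟩ := hc
  let g : W ⊕ (Fin 2 ⊕ C) ≃ (W ⊕ Fin 2) ⊕ C := (Equiv.sumAssoc W (Fin 2) C).symm
  have hT1 : PSS (fun x y z => T (g x) (g y) (g z)) :=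
    ⟨fun x y z h => h1.rot _ _ _ h, fun x y z z' h h' => g.injective (h1.func _ _ _ _ h h')⟩
  have hD1 : ∀ x y, Dom (fun x y z => T (g x) (g y) (g z)) x y ↔
      G C (NN N M RB) (g x) (g y) := by
    intro x y
    rw [← h2]
    constructor
    · rintro ⟨z, hz⟩; exact ⟨g z, hz⟩
    · rintro ⟨z, hz⟩
      refine ⟨g.symm z, ?_⟩
      simpa using hz
  have hU1 := hT1.union (liftM_pss (C := C) hM) (by
    intro x y hx hy
    rw [hD1] at hx
    rw [dom_liftM] at hy
    rcases x with x | x | x <;> rcases y with y | y | y <;>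
      simp only [g, Equiv.sumAssoc_symm_apply_inl, Equiv.sumAssoc_symm_apply_inr_inl,
        Equiv.sumAssoc_symm_apply_inr_inr, G, NN, domM] at hx hy
    · obtain ⟨i, hi⟩ := hy
      exact hx.2 i hi
    · exact hy hx
    · exact hy hx)
  have hU2 := hU1.union (liftP_pss (W := W) (C := C) hPB) (by
    intro x y hx hy
    rw [Dom_union, hD1, dom_liftM] at hx
    rw [dom_liftP hdom] at hy
    rcases x with x | x | x <;> rcases y with y | y | y <;>
      simp only [g, Equiv.sumAssoc_symm_apply_inl, Equiv.sumAssoc_symm_apply_inr_inl,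
        Equiv.sumAssoc_symm_apply_inr_inr, G, NN, domM, domP, or_false] at hx hy
    exact hy hx)
  refine ⟨_, hU2, ?_, Sum.inr c, Or.inl (Or.inl ?_), Or.inl (Or.inl ?_)⟩
  · intro x y
    rw [Dom_union, Dom_union, hD1, dom_liftM, dom_liftP hdom]
    rcases x with x | x | x <;> rcases y with y | y | y <;>
      simp only [g, Equiv.sumAssoc_symm_apply_inl, Equiv.sumAssoc_symm_apply_inr_inl,
        Equiv.sumAssoc_symm_apply_inr_inr, G, NN, domM, domP, or_false, iff_true]
    · constructor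
      · rintro (h | ⟨i, hi⟩)
        · exact h.1
        · exact hM.sub _ _ _ hi
      · intro h
        by_cases hx : ∃ i, M i x y
        · exact Or.inr hx
        · exact Or.inl ⟨h, fun i hi => hx ⟨i, hi⟩⟩
    · exact em _
    · exact em _
    · exact em _
  · simpa [g] using hc1
  · simpa [g] using hc2

end Pool.Agent.Helper40.SSQ
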