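import Mathlib
import Pool.Agent.Helper40.SSQ.Defs

set_option autoImplicit false

/-!
Signed Euler lemma. Half-edges are paired at each vertex (an involution `p`) so that the classes
generated by the mate involution `m` and by `p` are as large as possible; then each class is a
component, it is a closed trail, and the signs can be chosen along the trail.
-/

namespace Pool.Agent.Helper40.SSQ

open Finset

section sg

variable {X : Type}

/-- Involution without fixed points. -/
structure FI (p : X → X) : Prop where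
  inv : ∀ y, p (p y) = y
  ne : ∀ y, p y ≠ y

/-- one step along the trail -/
def tr (m p : X → X) : X → X := fun y => p (m y)

variable {m p : X → X}

theorem FI.inj (h : FI p) : Function.Injective p := by
  intro a b hab
  rw [← h.inv a, ← h.inv b, hab]

theorem tr_inj (hm : FI m) (hp : FI p) : Function.Injective (tr m p) :=
  hp.inj.comp hm.inj

theorem tr_m_tr (hm : FI m) (hp : FI p) (w : X) : tr m p (m (tr m p w)) = m w := by
  unfold tr
  rw [hm.inv, hp.inv]

theorem tr_iter_m (hm : FI m) (hp : FI p) (i : ℕ) (z : X) :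
    (tr m p)^[i] (m ((tr m p)^[i] z)) = m z := by
  induction i with
  | zero => rfl
  | succ i ih =>
    rw [Function.iterate_succ_apply' (tr m p) i z, Function.iterate_succ_apply, tr_m_tr hm hp, ih]

/-- a point and its mate are on different cycles -/
theorem tr_iter_ne (hm : FI m) (hp : FI p) (i : ℕ) (y : X) : (tr m p)^[i] y ≠ m y := by
  intro h
  rcases Nat.even_or_odd' i with ⟨j, hj | hj⟩
  · rw [hj, two_mul, Function.iterate_add_apply, ← tr_iter_m hm hp j y] at h
    exact hm.ne _ ((tr_inj hm hp).iterate j h).symm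
  · have e : i = j + (j + 1) := by omega
    rw [e, Function.iterate_add_apply, ← tr_iter_m hm hp j y] at h
    have h2 := (tr_inj hm hp).iterate j h
    rw [Function.iterate_succ_apply'] at h2
    exact hp.ne _ h2

theorem exists_period [Finite X] (hm : FI m) (hp : FI p) (y : X) :
    ∃ N, (tr m p)^[N + 1] y = y := by
  have h := (tr_inj hm hp).mem_periodicPts y
  obtain ⟨n, hn, h1⟩ := h
  exact ⟨n - 1, by rw [Nat.sub_add_cancel hn]; exact h1⟩

/-- the classes -/
def Rel (m p : X → X) : X → X → Prop := Relation.ReflTransGen (fun a b => b = m a ∨ b = p a)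

theorem Rel.symm (hm : FI m) (hp : FI p) {a b : X} (h : Rel m p a b) : Rel m p b a := by
  induction h with
  | refl => exact Relation.ReflTransGen.refl
  | tail _ h2 ih =>
    rename_i b c _
    refine Relation.ReflTransGen.head ?_ ih
    rcases h2 with h2 | h2
    · left; rw [h2, hm.inv]
    · right; rw [h2, hp.inv]

theorem Rel.mm (a : X) {b : X} (h : Rel m p a b) : Rel m p a (m b) := h.tail (Or.inl rfl)
theorem Rel.pp (a : X) {b : X} (h : Rel m p a b) : Rel m p a (p b) := h.tail (Or.inr rfl)

theorem Rel.iter {a : X} (i : ℕ) : Rel m p a ((tr m p)^[i] a) := by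
  induction i with
  | zero => exact Relation.ReflTransGen.refl
  | succ i ih =>
    rw [Function.iterate_succ_apply']
    exact Rel.pp _ (Rel.mm _ ih)

theorem rel_iff [Finite X] (hm : FI m) (hp : FI p) (y z : X) :
    Rel m p y z ↔ ∃ i, z = (tr m p)^[i] y ∨ z = m ((tr m p)^[i] y) := by
  constructor
  · intro h
    induction h with
    | refl => exact ⟨0, Or.inl rfl⟩
    | tail _ h2 ih =>
      rename_i b c _
      obtain ⟨i, hi⟩ := ih
      rcases h2 with h2 | h2
      · rcases hi with hi | hi
        · exact ⟨i, Or.inr (by rw [h2, hi])⟩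
        · exact ⟨i, Or.inl (by rw [h2, hi, hm.inv])⟩
      · rcases hi with hi | hi
        · obtain ⟨N, hN⟩ := exists_period hm hp y
          refine ⟨i + N, Or.inr ?_⟩
          have e : (tr m p)^[i] y = (tr m p)^[i + N + 1] y := by
            rw [add_assoc, Function.iterate_add_apply, hN]
          rw [h2, hi, e, Function.iterate_succ_apply']
          unfold tr
          rw [hp.inv]
        · refine ⟨i + 1, Or.inl ?_⟩
          rw [h2, hi, Function.iterate_succ_apply']
          rfl
  · rintro ⟨i, rfl | rfl⟩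
    · exact Rel.iter i
    · exact Rel.mm _ (Rel.iter i)

/-- removing the pair `{h, p h}` does not disconnect the class -/
theorem rel_cut [Finite X] (hm : FI m) (hp : FI p) {p' : X → X} {h h' : X}
    (hnr : ¬ Rel m p h h')
    (hag : ∀ y, y ≠ h → y ≠ p h → y ≠ h' → y ≠ p h' → p' y = p y) : Rel m p' h (p h) := by
  by_contra hcon
  have key : ∀ i, Rel m p' h ((tr m p)^[i] h) := by
    intro i
    induction i with
    | zero => exact Relation.ReflTransGen.refl
    | succ i ih =>
      have hy : Rel m p' h (m ((tr m p)^[i] h)) := Rel.mm _ ih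
      have hyp : Rel m p h (m ((tr m p)^[i] h)) := Rel.mm _ (Rel.iter i)
      rw [Function.iterate_succ_apply']
      have h1 : p' (m ((tr m p)^[i] h)) = tr m p ((tr m p)^[i] h) := by
        refine hag _ ?_ ?_ ?_ ?_
        · intro h2
          apply tr_iter_ne hm hp i h
          rw [← hm.inv ((tr m p)^[i] h), h2]
        · intro h2
          rw [h2] at hy
          exact hcon hy
        · intro h2
          rw [h2] at hyp
          exact hnr hyp
        · intro h2
          rw [h2] at hyp
          apply hnr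
          have := Rel.pp _ hyp
          rwa [hp.inv] at this
      rw [← h1]
      exact Rel.pp _ hy
  obtain ⟨N, hN⟩ := exists_period hm hp h
  apply hcon
  have h1 : m ((tr m p)^[N] h) = p h := by
    conv_rhs => rw [← hN, Function.iterate_succ_apply']
    unfold tr
    rw [hp.inv]
  rw [← h1]
  exact Rel.mm _ (key N)

/-- two classes which share a vertex can be merged -/
theorem rel_merge [Finite X] {V : Type} (hm : FI m) (hp : FI p) (e : X → V)
    (he : ∀ y, e (p y) = e y) {h h' : X} (hhh : e h = e h') (hnr : ¬ Rel m p h h') :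
    ∃ p' : X → X, FI p' ∧ (∀ y, e (p' y) = e y) ∧ (∀ a b, Rel m p a b → Rel m p' a b) ∧
      Rel m p' h h' := by
  classical
  set τ : Equiv.Perm X := Equiv.swap (p h) h' with hτ
  have hττ : ∀ y, τ (τ y) = y := fun y => Equiv.swap_apply_self _ _ y
  have hn1 : h ≠ h' := fun h1 => hnr (h1 ▸ Relation.ReflTransGen.refl)
  have hn2 : p h ≠ h' := fun h1 => hnr (h1 ▸ Rel.pp _ Relation.ReflTransGen.refl)
  have hn3 : p h' ≠ h := fun h1 => hn2 (by rw [← h1, hp.inv])
  have heτ : ∀ y, e (τ y) = e y := by
    intro y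
    by_cases h1 : y = p h
    · rw [h1, hτ, Equiv.swap_apply_left, he, hhh]
    · by_cases h2 : y = h'
      · rw [h2, hτ, Equiv.swap_apply_right, he, hhh]
      · rw [hτ, Equiv.swap_apply_of_ne_of_ne h1 h2]
  set p' : X → X := fun y => τ (p (τ y)) with hp'
  have hFI : FI p' := by
    refine ⟨fun y => ?_, fun y h1 => ?_⟩
    · show τ (p (τ (τ (p (τ y))))) = y
      rw [hττ, hp.inv, hττ]
    · have h2 : τ (p (τ y)) = y := h1
      apply hp.ne (τ y)
      rw [← hττ (p (τ y)), h2]
  have hp'h : p' h = h' := by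
    show τ (p (τ h)) = h'
    rw [hτ, Equiv.swap_apply_of_ne_of_ne (hp.ne h).symm hn1, Equiv.swap_apply_left]
  have hag : ∀ y, y ≠ h → y ≠ p h → y ≠ h' → y ≠ p h' → p' y = p y := by
    intro y h1 h2 h3 h4
    show τ (p (τ y)) = p y
    rw [hτ, Equiv.swap_apply_of_ne_of_ne h2 h3, Equiv.swap_apply_of_ne_of_ne]
    · intro h5
      exact h1 (hp.inj h5)
    · intro h5
      apply h4
      rw [← h5, hp.inv]
  have hrel : Rel m p' h h' := by
    have := Rel.pp (m := m) (p := p') h (b := h) Relation.ReflTransGen.refl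
    rwa [hp'h] at this
  have hcut1 : Rel m p' h (p h) := rel_cut hm hp hnr hag
  have hcut2 : Rel m p' h' (p h') :=
    rel_cut hm hp (fun h1 => hnr (Rel.symm hm hp h1))
      (fun y h1 h2 h3 h4 => hag y h3 h4 h1 h2)
  refine ⟨p', hFI, fun y => ?_, ?_, hrel⟩
  · show e (τ (p (τ y))) = e y
    rw [heτ, he, heτ]
  · intro a b hab
    induction hab with
    | refl => exact Relation.ReflTransGen.refl
    | tail _ h2 ih =>
      rename_i b c _
      refine Relation.ReflTransGen.trans ih ?_
      rcases h2 with h2 | h2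
      · rw [h2]
        exact Rel.mm _ Relation.ReflTransGen.refl
      · rw [h2]
        by_cases h3 : b = h
        · rw [h3]; exact hcut1
        · by_cases h4 : b = p h
          · rw [h4, hp.inv]; exact Rel.symm hm hFI hcut1
          · by_cases h5 : b = h'
            · rw [h5]; exact hcut2
            · by_cases h6 : b = p h'
              · rw [h6, hp.inv]; exact Rel.symm hm hFI hcut2
              · rw [← hag b h3 h4 h5 h6]
                exact Rel.pp _ Relation.ReflTransGen.refl

/-- pairing of the half-edges at each vertex -/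
theorem exists_pairing [Fintype X] {V : Type} (e : X → V)
    (hdeg : ∀ x : V, ∃ t : ℕ, (∑ h : X, b2n (e h = x)) = 2 * t) :
    ∃ p : X → X, FI p ∧ ∀ y, e (p y) = e y := by
  classical
  have h1 : ∀ x : V, ∃ q : {h : X // e h = x} → {h : X // e h = x},
      (∀ y, q (q y) = y) ∧ ∀ y, q y ≠ y := by
    intro x
    obtain ⟨t, ht⟩ := hdeg x
    have hc : Fintype.card {h : X // e h = x} = Fintype.card (Fin t × Bool) := by
      rw [Fintype.card_subtype, Fintype.card_prod, Fintype.card_fin, Fintype.card_bool,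
        mul_comm, ← ht]
      exact (cnt_eq_card (fun h : X => e h = x)).symm
    obtain E := Fintype.equivOfCardEq hc
    refine ⟨fun y => E.symm ((E y).1, !(E y).2), fun y => ?_, fun y h2 => ?_⟩
    · show E.symm ((E (E.symm ((E y).1, !(E y).2))).1, !(E (E.symm ((E y).1, !(E y).2))).2) = y
      rw [Equiv.apply_symm_apply, Bool.not_not]
      exact E.symm_apply_apply y
    · have h3 := congrArg E h2
      rw [Equiv.apply_symm_apply] at h3
      have h4 := congrArg Prod.snd h3
      simp only at h4
      cases hb : (E y).2 <;> rw [hb] at h4 <;> exact absurd h4 (by decide)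
  choose q hq1 hq2 using h1
  have hval : ∀ (x : V) (h : X) (hx : e h = x), (q (e h) ⟨h, rfl⟩).1 = (q x ⟨h, hx⟩).1 := by
    intro x h hx
    subst hx
    rfl
  refine ⟨fun h => (q (e h) ⟨h, rfl⟩).1, ⟨fun y => ?_, fun y h2 => ?_⟩, fun y => ?_⟩
  · show (q (e (q (e y) ⟨y, rfl⟩).1) ⟨(q (e y) ⟨y, rfl⟩).1, rfl⟩).1 = y
    rw [hval (e y) (q (e y) ⟨y, rfl⟩).1 (q (e y) ⟨y, rfl⟩).2]
    have := hq1 (e y) ⟨y, rfl⟩
    have h3 := congrArg Subtype.val this
    exact h3
  · exact hq2 (e y) ⟨y, rfl⟩ (Subtype.ext h2)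
  · exact (q (e y) ⟨y, rfl⟩).2

theorem exists_connected [Fintype X] {V : Type} (hm : FI m) (e : X → V)
    (hdeg : ∀ x : V, ∃ t : ℕ, (∑ h : X, b2n (e h = x)) = 2 * t) :
    ∃ p : X → X, FI p ∧ (∀ y, e (p y) = e y) ∧ ∀ h h', e h = e h' → Rel m p h h' := by
  classical
  by_contra hcon
  push Not at hcon
  have key : ∀ n : ℕ, ∃ p : X → X, FI p ∧ (∀ y, e (p y) = e y) ∧
      n ≤ (univ.filter (fun q : X × X => Rel m p q.1 q.2)).card := by
    intro n
    induction n with
    | zero =>
      obtain ⟨p, hp, he⟩ := exists_pairing e hdeg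
      exact ⟨p, hp, he, Nat.zero_le _⟩
    | succ n ih =>
      obtain ⟨p, hp, he, hn⟩ := ih
      obtain ⟨h, h', hhh, hnr⟩ := hcon p hp he
      obtain ⟨p', hp', he', hmono, hrel⟩ := rel_merge hm hp e he hhh hnr
      refine ⟨p', hp', he', ?_⟩
      refine lt_of_le_of_lt hn (Finset.card_lt_card ?_)
      rw [Finset.ssubset_iff_of_subset]
      · exact ⟨(h, h'), by simpa using hrel, by simpa using hnr⟩
      · intro q hq
        simp only [Finset.mem_filter, Finset.mem_univ, true_and] at hq ⊢
        exact hmono _ _ hq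
  obtain ⟨p, _, _, hn⟩ := key (Fintype.card (X × X) + 1)
  have := Finset.card_le_univ (univ.filter (fun q : X × X => Rel m p q.1 q.2))
  omega

/-! ### signs along the trails -/

/-- the product of the sign changes along the trail -/
def trp (m p : X → X) (c : X → ℤ) (y : X) (i : ℕ) : ℤ :=
  ∏ j ∈ range i, (- c ((tr m p)^[j] y))

theorem trp_succ (c : X → ℤ) (y : X) (i : ℕ) :
    trp m p c y (i + 1) = trp m p c y i * (- c ((tr m p)^[i] y)) := by
  unfold trp
  rw [Finset.prod_range_succ]

theorem trp_add (c : X → ℤ) (y : X) (i j : ℕ) (h : (tr m p)^[i] y = y) :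
    trp m p c y (i + j) = trp m p c y i * trp m p c y j := by
  unfold trp
  rw [Finset.prod_range_add]
  congr 1
  refine Finset.prod_congr rfl fun k _ => ?_
  rw [add_comm i k, Function.iterate_add_apply, h]

theorem trp_pm {c : X → ℤ} (hc : ∀ y, c y = 1 ∨ c y = -1) (y : X) (i : ℕ) :
    trp m p c y i = 1 ∨ trp m p c y i = -1 := by
  induction i with
  | zero => left; rfl
  | succ i ih =>
    rw [trp_succ]
    rcases ih with h | h <;> rcases hc ((tr m p)^[i] y) with h2 | h2 <;> rw [h, h2] <;> norm_num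

theorem trp_eq (hm : FI m) (hp : FI p) {c : X → ℤ}
    (hper : ∀ y i, (tr m p)^[i] y = y → trp m p c y i = 1) {r : X} {i j : ℕ}
    (h : (tr m p)^[i] r = (tr m p)^[j] r) : trp m p c r i = trp m p c r j := by
  have key : ∀ i j : ℕ, i ≤ j → (tr m p)^[i] r = (tr m p)^[j] r →
      trp m p c r i = trp m p c r j := by
    intro i j hij h
    obtain ⟨k, rfl⟩ := Nat.exists_eq_add_of_le hij
    rw [Function.iterate_add_apply] at h
    have h2 := ((tr_inj hm hp).iterate i h).symm
    rw [add_comm, trp_add c r k i h2, hper r k h2, one_mul]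
  rcases le_total i j with hij | hij
  · exact key i j hij h
  · exact (key j i hij h.symm).symm

theorem iter_ne_m_iter (hm : FI m) (hp : FI p) (r : X) (k i : ℕ) :
    (tr m p)^[k] r ≠ m ((tr m p)^[i] r) := by
  intro h
  rcases le_total i k with hik | hik
  · obtain ⟨l, rfl⟩ := Nat.exists_eq_add_of_le hik
    rw [add_comm, Function.iterate_add_apply] at h
    exact tr_iter_ne hm hp l _ h
  · obtain ⟨l, rfl⟩ := Nat.exists_eq_add_of_le hik
    apply tr_iter_ne hm hp l ((tr m p)^[k] r)
    rw [← Function.iterate_add_apply, add_comm l k, h, hm.inv]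

theorem exists_sign [Finite X] (hm : FI m) (hp : FI p) (c : X → ℤ)
    (hc : ∀ y, c y = 1 ∨ c y = -1) (hcm : ∀ y, c (m y) = c y)
    (hper : ∀ y i, (tr m p)^[i] y = y → trp m p c y i = 1) :
    ∃ s : X → ℤ, (∀ y, s y = 1 ∨ s y = -1) ∧ (∀ y, s (m y) = c y * s y) ∧
      ∀ y, s (p y) = - s y := by
  classical
  let S : Setoid X := ⟨Rel m p, ⟨fun _ => Relation.ReflTransGen.refl,
    fun h => Rel.symm hm hp h, fun h h' => Relation.ReflTransGen.trans h h'⟩⟩
  let rep : X → X := fun y => Quotient.out (Quotient.mk S y)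
  have hrep : ∀ y, Rel m p (rep y) y := fun y => Quotient.exact (Quotient.out_eq (Quotient.mk S y))
  have hrepeq : ∀ y z, Rel m p y z → rep y = rep z := by
    intro y z h
    show Quotient.out (Quotient.mk S y) = Quotient.out (Quotient.mk S z)
    rw [Quotient.sound (s := S) h]
  let s : X → ℤ := fun y =>
    if h : ∃ i, (tr m p)^[i] (rep y) = y then trp m p c (rep y) h.choose
    else if h : ∃ i, m ((tr m p)^[i] (rep y)) = y then c y * trp m p c (rep y) h.choose else 1
  have s1 : ∀ y i, (tr m p)^[i] (rep y) = y → s y = trp m p c (rep y) i := by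
    intro y i hi
    have h : ∃ i, (tr m p)^[i] (rep y) = y := ⟨i, hi⟩
    show (if h : ∃ i, (tr m p)^[i] (rep y) = y then trp m p c (rep y) h.choose
      else if h : ∃ i, m ((tr m p)^[i] (rep y)) = y then c y * trp m p c (rep y) h.choose
        else 1) = _
    rw [dif_pos h]
    exact trp_eq hm hp hper (h.choose_spec.trans hi.symm)
  have s2 : ∀ y i, m ((tr m p)^[i] (rep y)) = y → s y = c y * trp m p c (rep y) i := by
    intro y i hi
    have h : ¬ ∃ i, (tr m p)^[i] (rep y) = y := by
      rintro ⟨k, hk⟩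
      exact iter_ne_m_iter hm hp (rep y) k i (hk.trans hi.symm)
    have h' : ∃ i, m ((tr m p)^[i] (rep y)) = y := ⟨i, hi⟩
    show (if h : ∃ i, (tr m p)^[i] (rep y) = y then trp m p c (rep y) h.choose
      else if h : ∃ i, m ((tr m p)^[i] (rep y)) = y then c y * trp m p c (rep y) h.choose
        else 1) = _
    rw [dif_neg h, dif_pos h']
    rw [trp_eq hm hp hper (hm.inj (h'.choose_spec.trans hi.symm))]
  have hcases : ∀ y, ∃ i, (tr m p)^[i] (rep y) = y ∨ m ((tr m p)^[i] (rep y)) = y := by
    intro y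
    obtain ⟨i, hi⟩ := (rel_iff hm hp _ _).1 (hrep y)
    rcases hi with hi | hi
    · exact ⟨i, Or.inl hi.symm⟩
    · exact ⟨i, Or.inr hi.symm⟩
  have hmr : ∀ y, rep (m y) = rep y := fun y => (hrepeq y (m y) (Rel.mm _ Relation.ReflTransGen.refl)).symm
  have hpr : ∀ y, rep (p y) = rep y := fun y => (hrepeq y (p y) (Rel.pp _ Relation.ReflTransGen.refl)).symm
  have hsq : ∀ y, c y * c y = 1 := by
    intro y
    rcases hc y with h | h <;> rw [h] <;> norm_num
  refine ⟨s, ?_, ?_, ?_⟩
  · intro y
    obtain ⟨i, hi | hi⟩ := hcases y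
    · rw [s1 y i hi]
      exact trp_pm hc _ _
    · rw [s2 y i hi]
      rcases hc y with h | h <;> rcases trp_pm (m := m) (p := p) hc (rep y) i with h2 | h2 <;>
        rw [h, h2] <;> norm_num
  · intro y
    obtain ⟨i, hi | hi⟩ := hcases y
    · rw [s1 y i hi, s2 (m y) i (by rw [hmr, hi]), hmr, hcm]
    · have h6 : (tr m p)^[i] (rep y) = m y := by
        rw [← hm.inv ((tr m p)^[i] (rep y)), hi]
      rw [s2 y i hi, s1 (m y) i (by rw [hmr]; exact h6), hmr, ← mul_assoc, hsq, one_mul]
  · intro y
    obtain ⟨i, hi | hi⟩ := hcases y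
    · obtain ⟨N, hN⟩ := exists_period hm hp (rep y)
      have hi2 : (tr m p)^[(i + N) + 1] (rep y) = y := by
        rw [add_assoc, Function.iterate_add_apply, hN, hi]
      have hpy : m ((tr m p)^[i + N] (rep (p y))) = p y := by
        rw [hpr]
        conv_rhs => rw [← hi2, Function.iterate_succ_apply']
        unfold tr
        rw [hp.inv]
      rw [s1 y _ hi2, s2 (p y) _ hpy, trp_succ, hpr]
      have h5 : c (p y) = c ((tr m p)^[i + N] (rep y)) := by
        rw [← hpy, hcm, hpr]
      rw [h5]
      ring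
    · have hpy : (tr m p)^[i + 1] (rep (p y)) = p y := by
        rw [hpr, Function.iterate_succ_apply']
        show p (m ((tr m p)^[i] (rep y))) = p y
        rw [hi]
      rw [s2 y i hi, s1 (p y) _ hpy, hpr, trp_succ]
      have h5 : c y = c ((tr m p)^[i] (rep y)) := by
        conv_lhs => rw [← hi, hcm]
      rw [h5]
      ring

/-- the number of positive half-edges of a class determines the product along the trail -/
theorem trp_one [Fintype X] (hm : FI m) (hp : FI p) (σ : X → Prop) (hσ : ∀ y, σ (m y) ↔ σ y)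
    (c : X → ℤ) (hc1 : ∀ y, σ y → c y = 1) (hc2 : ∀ y, ¬ σ y → c y = -1) (y : X)
    (h4 : 4 ∣ ∑ z : X, b2n (Rel m p y z ∧ σ z)) (i : ℕ) (hi : (tr m p)^[i] y = y) :
    trp m p c y i = 1 := by
  classical
  set n : ℕ := Function.minimalPeriod (tr m p) y with hn
  have hnper : (tr m p)^[n] y = y := Function.isPeriodicPt_minimalPeriod (tr m p) y
  have hnpos : 0 < n := by
    obtain ⟨N, hN⟩ := exists_period hm hp y
    exact Function.IsPeriodicPt.minimalPeriod_pos (Nat.succ_pos N) hN
  have hinj : ∀ a < n, ∀ b < n, (tr m p)^[a] y = (tr m p)^[b] y → a = b := by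
    intro a ha b hb hab
    exact Function.iterate_injOn_Iio_minimalPeriod ha hb hab
  -- the sum over the class
  have hsum : ∑ z : X, b2n (Rel m p y z ∧ σ z) =
      2 * ∑ j ∈ range n, b2n (σ ((tr m p)^[j] y)) := by
    have h1 : ∑ z : X, b2n (Rel m p y z ∧ σ z) =
        ∑ z ∈ (range n).image (fun j => (tr m p)^[j] y) ∪
          (range n).image (fun j => m ((tr m p)^[j] y)), b2n (σ z) := by
      rw [← Finset.sum_filter_add_sum_filter_not univ
        (fun z => z ∈ (range n).image (fun j => (tr m p)^[j] y) ∪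
          (range n).image (fun j => m ((tr m p)^[j] y)))]
      have hmem : ∀ z, z ∈ (range n).image (fun j => (tr m p)^[j] y) ∪
          (range n).image (fun j => m ((tr m p)^[j] y)) ↔ Rel m p y z := by
        intro z
        rw [rel_iff hm hp, Finset.mem_union, Finset.mem_image, Finset.mem_image]
        constructor
        · rintro (⟨j, _, rfl⟩ | ⟨j, _, rfl⟩)
          · exact ⟨j, Or.inl rfl⟩
          · exact ⟨j, Or.inr rfl⟩
        · rintro ⟨j, hj | hj⟩
          · left
            refine ⟨j % n, Finset.mem_range.2 (Nat.mod_lt _ hnpos), ?_⟩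
            rw [hj]
            exact Function.iterate_mod_minimalPeriod_eq
          · right
            refine ⟨j % n, Finset.mem_range.2 (Nat.mod_lt _ hnpos), ?_⟩
            rw [hj]
            exact congrArg m Function.iterate_mod_minimalPeriod_eq
      have h2 : ∑ z ∈ univ.filter (fun z => ¬ (z ∈ (range n).image (fun j => (tr m p)^[j] y) ∪
          (range n).image (fun j => m ((tr m p)^[j] y)))), b2n (Rel m p y z ∧ σ z) = 0 := by
        refine Finset.sum_eq_zero fun z hz => ?_
        rw [Finset.mem_filter, hmem] at hz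
        exact b2n_neg fun h => hz.2 h.1
      rw [h2, add_zero]
      have h3 : univ.filter (fun z => z ∈ (range n).image (fun j => (tr m p)^[j] y) ∪
          (range n).image (fun j => m ((tr m p)^[j] y))) =
          (range n).image (fun j => (tr m p)^[j] y) ∪
          (range n).image (fun j => m ((tr m p)^[j] y)) := by
        ext z
        simp
      rw [h3]
      refine Finset.sum_congr rfl fun z hz => ?_
      rw [hmem] at hz
      exact b2n_congr ⟨fun h => h.2, fun h => ⟨hz, h⟩⟩
    rw [h1, Finset.sum_union, Finset.sum_image, Finset.sum_image, two_mul]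
    · congr 1
      refine Finset.sum_congr rfl fun j _ => ?_
      exact b2n_congr (hσ _)
    · intro a ha b hb hab
      exact hinj a (Finset.mem_range.1 ha) b (Finset.mem_range.1 hb) (hm.inj hab)
    · intro a ha b hb hab
      exact hinj a (Finset.mem_range.1 ha) b (Finset.mem_range.1 hb) hab
    · rw [Finset.disjoint_left]
      intro z h2 h3
      rw [Finset.mem_image] at h2 h3
      obtain ⟨a, _, ha⟩ := h2
      obtain ⟨b, _, hb⟩ := h3
      exact iter_ne_m_iter hm hp y a b (ha.trans hb.symm)
  have heven : Even (∑ j ∈ range n, b2n (σ ((tr m p)^[j] y))) := by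
    rw [hsum] at h4
    obtain ⟨k, hk⟩ := h4
    exact ⟨k, by omega⟩
  have hprod : trp m p c y n = 1 := by
    have h1 : trp m p c y n = ∏ j ∈ range n, (-1 : ℤ) ^ (b2n (σ ((tr m p)^[j] y))) := by
      refine Finset.prod_congr rfl fun j _ => ?_
      by_cases h : σ ((tr m p)^[j] y)
      · rw [b2n_pos h, hc1 _ h]; norm_num
      · rw [b2n_neg h, hc2 _ h]; norm_num
    rw [h1, Finset.prod_pow_eq_pow_sum]
    exact heven.neg_one_pow
  have hdvd : n ∣ i := Function.IsPeriodicPt.minimalPeriod_dvd hi
  obtain ⟨k, rfl⟩ := hdvd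
  clear hi
  induction k with
  | zero => rfl
  | succ k ih =>
    rw [Nat.mul_succ, add_comm, trp_add c y n _ hnper, hprod, ih, one_mul]

end sg

/-- Signed Euler lemma. `H` is a finite set of half-edges, `m` the mate involution, `e h` the
vertex of the half-edge `h`; an edge is positive if `σ` holds. All degrees even, and every closed
set of vertices contains an even number of positive edges (each has two half-edges). Then the
half-edges can be given signs, equal on positive edges, opposite on negative edges, with sum zero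
at each vertex. -/
theorem sgEuler {α V : Type} [DecidableEq α] (H : Finset α) (m : α → α) (e : α → V) (σ : α → Prop)
    (hm : ∀ h ∈ H, m h ∈ H ∧ m h ≠ h ∧ m (m h) = h ∧ (σ (m h) ↔ σ h))
    (hdeg : ∀ x : V, ∃ t : ℕ, (∑ h ∈ H, b2n (e h = x)) = 2 * t)
    (hpar : ∀ K : V → Prop, (∀ h ∈ H, K (e h) → K (e (m h))) →
      4 ∣ ∑ h ∈ H, b2n (K (e h) ∧ σ h)) :
    ∃ s : α → ℤ, (∀ h ∈ H, s h = 1 ∨ s h = -1) ∧
      (∀ h ∈ H, (σ h → s (m h) = s h) ∧ (¬ σ h → s (m h) = - s h)) ∧
      ∀ x : V, ∑ h ∈ H, (b2n (e h = x) : ℤ) * s h = 0 := by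
  classical
  let m' : H → H := fun h => ⟨m h.1, (hm h.1 h.2).1⟩
  have hFm : FI m' := by
    refine ⟨fun y => Subtype.ext (hm y.1 y.2).2.2.1, fun y h => ?_⟩
    exact (hm y.1 y.2).2.1 (congrArg Subtype.val h)
  have hdeg' : ∀ x : V, ∃ t : ℕ, (∑ h : H, b2n (e h.1 = x)) = 2 * t := by
    intro x
    obtain ⟨t, ht⟩ := hdeg x
    exact ⟨t, by rw [← ht]; exact Finset.sum_coe_sort H (fun h => b2n (e h = x))⟩
  obtain ⟨p, hFp, hep, hconn⟩ := exists_connected hFm (fun h : H => e h.1) hdeg'
  have h4 : ∀ y : H, 4 ∣ ∑ z : H, b2n (Rel m' p y z ∧ σ z.1) := by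
    intro y
    have hK : ∀ h : H, (∃ h' : H, e h'.1 = e h.1 ∧ Rel m' p y h') ↔ Rel m' p y h := by
      intro h
      constructor
      · rintro ⟨h', h1, h2⟩
        exact Relation.ReflTransGen.trans h2 (hconn h' h h1)
      · intro h1
        exact ⟨h, rfl, h1⟩
    have h1 := hpar (fun x => ∃ h' : H, e h'.1 = x ∧ Rel m' p y h') (by
      intro h hh h2
      have h3 := (hK ⟨h, hh⟩).1 h2
      exact ⟨m' ⟨h, hh⟩, rfl, Rel.mm _ h3⟩)
    have h2 : ∑ z : H, b2n (Rel m' p y z ∧ σ z.1) =
        ∑ h ∈ H, b2n ((∃ h' : H, e h'.1 = e h ∧ Rel m' p y h') ∧ σ h) := by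
      rw [← Finset.sum_coe_sort H
        (fun h => b2n ((∃ h' : H, e h'.1 = e h ∧ Rel m' p y h') ∧ σ h))]
      refine Finset.sum_congr rfl fun z _ => b2n_congr ?_
      rw [hK z]
    rw [h2]
    exact h1
  let c : H → ℤ := fun y => if σ y.1 then 1 else -1
  obtain ⟨s, hs1, hs2, hs3⟩ := exists_sign hFm hFp c
    (fun y => by
      show (if σ y.1 then (1 : ℤ) else -1) = 1 ∨ (if σ y.1 then (1 : ℤ) else -1) = -1
      by_cases h : σ y.1
      · left; rw [if_pos h]
      · right; rw [if_neg h])
    (fun y => by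
      show (if σ (m y.1) then (1 : ℤ) else -1) = if σ y.1 then 1 else -1
      by_cases h : σ y.1
      · rw [if_pos h, if_pos ((hm y.1 y.2).2.2.2.2 h)]
      · rw [if_neg h, if_neg (fun h' => h ((hm y.1 y.2).2.2.2.1 h'))])
    (fun y i hi => trp_one hFm hFp (fun y : H => σ y.1) (fun y => (hm y.1 y.2).2.2.2) c
      (fun y h => if_pos h) (fun y h => if_neg h) y (h4 y) i hi)
  refine ⟨fun h => if hh : h ∈ H then s ⟨h, hh⟩ else 1, ?_, ?_, ?_⟩
  · intro h hh
    simp only [dif_pos hh]
    exact hs1 _
  · intro h hh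
    simp only [dif_pos hh, dif_pos (hm h hh).1]
    have h1 := hs2 ⟨h, hh⟩
    constructor
    · intro hσ
      have h2 : c ⟨h, hh⟩ = 1 := if_pos hσ
      rw [h2, one_mul] at h1
      exact h1
    · intro hσ
      have h2 : c ⟨h, hh⟩ = -1 := if_neg hσ
      rw [h2] at h1
      rw [← neg_one_mul]
      exact h1
  · intro x
    rw [← Finset.sum_coe_sort H
      (fun h => (b2n (e h = x) : ℤ) * (if hh : h ∈ H then s ⟨h, hh⟩ else 1))]
    have h1 : ∀ z : H, (b2n (e z.1 = x) : ℤ) * (if hh : z.1 ∈ H then s ⟨z.1, hh⟩ else 1) =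
        (b2n (e z.1 = x) : ℤ) * s z := by
      intro z
      rw [dif_pos z.2]
    rw [Finset.sum_congr rfl (fun z _ => h1 z)]
    have h2 := Equiv.sum_comp (Function.Involutive.toPerm p hFp.inv)
      (fun z : H => (b2n (e z.1 = x) : ℤ) * s z)
    have h3 : ∀ z : H, (b2n (e ((Function.Involutive.toPerm p hFp.inv) z).1 = x) : ℤ) *
        s ((Function.Involutive.toPerm p hFp.inv) z) = - ((b2n (e z.1 = x) : ℤ) * s z) := by
      intro z
      show (b2n (e (p z).1 = x) : ℤ) * s (p z) = _
      rw [hep z, hs3 z]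
      ring
    rw [Finset.sum_congr rfl (fun z _ => h3 z), Finset.sum_neg_distrib] at h2
    linarith

end Pool.Agent.Helper40.SSQ
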