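import Mathlib
import Pool.Agent.Helper40.SSQ.Defs
import Pool.Agent.Helper40.SSQ.EulerSg

set_option autoImplicit false

namespace Pool.Agent.Helper40.SSQ

open Finset

section splitaux

variable {W : Type}

/-- half-edges: arcs and dummy edges, with two ends -/
abbrev HE (W : Type) (d : ℕ) : Type := ((W × W) ⊕ (W × Fin (2 * d))) × Bool

/-- the half-edges which occur -/
def inH [Fintype W] (N : W → W → Prop) (d : ℕ) : HE W d → Prop
  | (.inl p, _) => N p.1 p.2
  | (.inr q, _) => q.2.1 < 2 * d - outd N q.1

/-- the vertex of a half-edge -/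
def eH (d : ℕ) : HE W d → W ⊕ W
  | (.inl p, false) => .inl p.1
  | (.inl p, true) => .inr p.2
  | (.inr q, false) => .inl q.1
  | (.inr q, true) => .inr q.1

/-- arcs are positive -/
def sH (d : ℕ) : HE W d → Prop
  | (.inl _, _) => True
  | (.inr _, _) => False

open Classical in
theorem sumH [Fintype W] {M : Type} [AddCommMonoid M] (N : W → W → Prop) (d : ℕ)
    (F : HE W d → M) :
    ∑ h ∈ univ.filter (inH N d), F h =
      (∑ u, ∑ v, if N u v then F (.inl (u, v), true) + F (.inl (u, v), false) else 0) +
      ∑ w, ∑ j : Fin (2 * d), if j.1 < 2 * d - outd N w then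
        F (.inr (w, j), true) + F (.inr (w, j), false) else 0 := by
  rw [Finset.sum_filter, Fintype.sum_prod_type, Fintype.sum_sum_type, Fintype.sum_prod_type,
    Fintype.sum_prod_type]
  congr 1
  · refine Finset.sum_congr rfl fun u _ => Finset.sum_congr rfl fun v _ => ?_
    rw [Fintype.sum_bool]
    by_cases h : N u v
    · rw [if_pos h, if_pos (show inH N d (.inl (u, v), true) from h),
        if_pos (show inH N d (.inl (u, v), false) from h)]
    · rw [if_neg h, if_neg (show ¬ inH N d (.inl (u, v), true) from h),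
        if_neg (show ¬ inH N d (.inl (u, v), false) from h), add_zero]
  · refine Finset.sum_congr rfl fun w _ => Finset.sum_congr rfl fun j _ => ?_
    rw [Fintype.sum_bool]
    by_cases h : j.1 < 2 * d - outd N w
    · rw [if_pos h, if_pos (show inH N d (.inr (w, j), true) from h),
        if_pos (show inH N d (.inr (w, j), false) from h)]
    · rw [if_neg h, if_neg (show ¬ inH N d (.inr (w, j), true) from h),
        if_neg (show ¬ inH N d (.inr (w, j), false) from h), add_zero]

theorem count_fin (n m : ℕ) (h : m ≤ n) : (∑ j : Fin n, if j.1 < m then 1 else 0) = m := by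
  rw [Fin.sum_univ_eq_sum_range (fun j => if j < m then 1 else 0) n, ← Finset.sum_filter]
  have : (range n).filter (fun j => j < m) = range m := by
    ext j
    simp only [Finset.mem_filter, Finset.mem_range]
    omega
  rw [this]
  simp

theorem count_fin_int (n m : ℕ) (h : m ≤ n) :
    (∑ j : Fin n, if j.1 < m then (1 : ℤ) else 0) = (m : ℤ) := by
  have h1 := count_fin n m h
  have h2 : ((∑ j : Fin n, if j.1 < m then 1 else 0 : ℕ) : ℤ) = (m : ℤ) := by rw [h1]
  push_cast at h2
  exact h2

theorem b2n_inl (a b : W) : b2n ((Sum.inl a : W ⊕ W) = Sum.inl b) = b2n (a = b) :=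
  b2n_congr ⟨fun h => Sum.inl.inj h, fun h => by rw [h]⟩

theorem b2n_inr (a b : W) : b2n ((Sum.inr a : W ⊕ W) = Sum.inr b) = b2n (a = b) :=
  b2n_congr ⟨fun h => Sum.inr.inj h, fun h => by rw [h]⟩

theorem b2n_inlr (a b : W) : b2n ((Sum.inl a : W ⊕ W) = Sum.inr b) = 0 :=
  b2n_neg (by simp)

theorem b2n_inrl (a b : W) : b2n ((Sum.inr a : W ⊕ W) = Sum.inl b) = 0 :=
  b2n_neg (by simp)

open Classical in
/-- vertex sums on the out side -/
theorem sumH_inl [Fintype W] (N : W → W → Prop) (d : ℕ) (w : W) (g : HE W d → ℤ) :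
    ∑ h ∈ univ.filter (inH N d), (b2n (eH d h = .inl w) : ℤ) * g h =
      (∑ v, if N w v then g (.inl (w, v), false) else 0) +
      ∑ j : Fin (2 * d), if j.1 < 2 * d - outd N w then g (.inr (w, j), false) else 0 := by
  rw [sumH]
  congr 1
  · rw [Finset.sum_eq_single w]
    · refine Finset.sum_congr rfl fun v _ => ?_
      by_cases h : N w v
      · rw [if_pos h, if_pos h]
        show (b2n ((Sum.inr v : W ⊕ W) = .inl w) : ℤ) * _ +
          (b2n ((Sum.inl w : W ⊕ W) = .inl w) : ℤ) * _ = _
        rw [b2n_inrl, b2n_pos rfl]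
        simp
      · rw [if_neg h, if_neg h]
    · intro u _ hu
      refine Finset.sum_eq_zero fun v _ => ?_
      by_cases h : N u v
      · rw [if_pos h]
        show (b2n ((Sum.inr v : W ⊕ W) = .inl w) : ℤ) * _ +
          (b2n ((Sum.inl u : W ⊕ W) = .inl w) : ℤ) * _ = _
        rw [b2n_inrl, b2n_inl, b2n_neg hu]
        simp
      · rw [if_neg h]
    · intro h
      exact absurd (Finset.mem_univ w) h
  · rw [Finset.sum_eq_single w]
    · refine Finset.sum_congr rfl fun j _ => ?_
      by_cases h : j.1 < 2 * d - outd N w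
      · rw [if_pos h, if_pos h]
        show (b2n ((Sum.inr w : W ⊕ W) = .inl w) : ℤ) * _ +
          (b2n ((Sum.inl w : W ⊕ W) = .inl w) : ℤ) * _ = _
        rw [b2n_inrl, b2n_pos rfl]
        simp
      · rw [if_neg h, if_neg h]
    · intro u _ hu
      refine Finset.sum_eq_zero fun j _ => ?_
      by_cases h : j.1 < 2 * d - outd N u
      · rw [if_pos h]
        show (b2n ((Sum.inr u : W ⊕ W) = .inl w) : ℤ) * _ +
          (b2n ((Sum.inl u : W ⊕ W) = .inl w) : ℤ) * _ = _
        rw [b2n_inrl, b2n_inl, b2n_neg hu]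
        simp
      · rw [if_neg h]
    · intro h
      exact absurd (Finset.mem_univ w) h

open Classical in
/-- vertex sums on the in side -/
theorem sumH_inr [Fintype W] (N : W → W → Prop) (d : ℕ) (w : W) (g : HE W d → ℤ) :
    ∑ h ∈ univ.filter (inH N d), (b2n (eH d h = .inr w) : ℤ) * g h =
      (∑ u, if N u w then g (.inl (u, w), true) else 0) +
      ∑ j : Fin (2 * d), if j.1 < 2 * d - outd N w then g (.inr (w, j), true) else 0 := by
  rw [sumH]
  congr 1
  · refine Finset.sum_congr rfl fun u _ => ?_
    rw [Finset.sum_eq_single w]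
    · by_cases h : N u w
      · rw [if_pos h, if_pos h]
        show (b2n ((Sum.inr w : W ⊕ W) = .inr w) : ℤ) * _ +
          (b2n ((Sum.inl u : W ⊕ W) = .inr w) : ℤ) * _ = _
        rw [b2n_inlr, b2n_pos rfl]
        simp
      · rw [if_neg h, if_neg h]
    · intro v _ hv
      by_cases h : N u v
      · rw [if_pos h]
        show (b2n ((Sum.inr v : W ⊕ W) = .inr w) : ℤ) * _ +
          (b2n ((Sum.inl u : W ⊕ W) = .inr w) : ℤ) * _ = _
        rw [b2n_inlr, b2n_inr, b2n_neg hv]
        simp
      · rw [if_neg h]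
    · intro h
      exact absurd (Finset.mem_univ w) h
  · rw [Finset.sum_eq_single w]
    · refine Finset.sum_congr rfl fun j _ => ?_
      by_cases h : j.1 < 2 * d - outd N w
      · rw [if_pos h, if_pos h]
        show (b2n ((Sum.inr w : W ⊕ W) = .inr w) : ℤ) * _ +
          (b2n ((Sum.inl w : W ⊕ W) = .inr w) : ℤ) * _ = _
        rw [b2n_inlr, b2n_pos rfl]
        simp
      · rw [if_neg h, if_neg h]
    · intro u _ hu
      refine Finset.sum_eq_zero fun j _ => ?_
      by_cases h : j.1 < 2 * d - outd N u
      · rw [if_pos h]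
        show (b2n ((Sum.inr u : W ⊕ W) = .inr w) : ℤ) * _ +
          (b2n ((Sum.inl u : W ⊕ W) = .inr w) : ℤ) * _ = _
        rw [b2n_inlr, b2n_inr, b2n_neg hu]
        simp
      · rw [if_neg h]
    · intro h
      exact absurd (Finset.mem_univ w) h

open Classical in
theorem outd_ite [Fintype W] (N : W → W → Prop) (w : W) :
    (outd N w : ℤ) = ∑ v, if N w v then 1 else 0 := by
  unfold outd cnt
  push_cast
  refine Finset.sum_congr rfl fun v _ => ?_
  by_cases h : N w v
  · rw [b2n_pos h, if_pos h]; rfl
  · rw [b2n_neg h, if_neg h]; rfl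

open Classical in
theorem indg_ite [Fintype W] (N : W → W → Prop) (w : W) :
    (indg N w : ℤ) = ∑ u, if N u w then 1 else 0 := by
  unfold indg cnt
  push_cast
  refine Finset.sum_congr rfl fun v _ => ?_
  by_cases h : N v w
  · rw [b2n_pos h, if_pos h]; rfl
  · rw [b2n_neg h, if_neg h]; rfl

end splitaux

/-- Half of the arcs, balanced. -/
theorem split {W : Type} [Fintype W] (d : ℕ) (N : W → W → Prop) (f : W × W)
    (hbal : ∀ w, outd N w = indg N w) (hle : ∀ w, outd N w ≤ 2 * d)
    (hpar : ∀ A B : W → Prop, Closed N (2 * d) A B →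
      Even (sumOn A (fun w => 2 * d - outd N w))) :
    ∃ N1 : W → W → Prop, (∀ u v, N1 u v → N u v) ∧ ¬ N1 f.1 f.2 ∧
      (∀ w, outd N1 w + indg N1 w = outd N w) ∧ (∀ w, outd N1 w ≤ d) ∧
      (∀ w, indg N1 w ≤ d) := by
  classical
  obtain ⟨s, hs1, hs2, hs3⟩ := sgEuler (univ.filter (inH N d)) (fun h => (h.1, !h.2)) (eH d)
    (sH d) (by
      rintro ⟨h | h, b⟩ hh
      · simp only [Finset.mem_filter, Finset.mem_univ, true_and] at hh ⊢
        refine ⟨hh, ?_, by rw [Bool.not_not], Iff.rfl⟩
        cases b <;> simp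
      · simp only [Finset.mem_filter, Finset.mem_univ, true_and] at hh ⊢
        refine ⟨hh, ?_, by rw [Bool.not_not], Iff.rfl⟩
        cases b <;> simp)
    (by
      rintro (w | w)
      · refine ⟨d, ?_⟩
        have h1 := sumH_inl N d w (fun _ => 1)
        have h2 := outd_ite N w
        have h4 := hle w
        rw [← h2] at h1
        have h5 : (∑ j : Fin (2 * d), if j.1 < 2 * d - outd N w then (1 : ℤ) else 0) =
            ((2 * d - outd N w : ℕ) : ℤ) := count_fin_int _ _ (Nat.sub_le _ _)
        rw [h5] at h1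
        simp only [mul_one] at h1
        have h6 : ((∑ h ∈ univ.filter (inH N d), b2n (eH d h = .inl w) : ℕ) : ℤ) =
            (2 * d : ℕ) := by
          push_cast at h1 ⊢
          rw [h1]
          omega
        exact_mod_cast h6
      · refine ⟨d, ?_⟩
        have h1 := sumH_inr N d w (fun _ => 1)
        have h2 := indg_ite N w
        have h4 := hle w
        have h7 := hbal w
        rw [← h2] at h1
        have h5 : (∑ j : Fin (2 * d), if j.1 < 2 * d - outd N w then (1 : ℤ) else 0) =
            ((2 * d - outd N w : ℕ) : ℤ) := count_fin_int _ _ (Nat.sub_le _ _)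
        rw [h5] at h1
        simp only [mul_one] at h1
        have h6 : ((∑ h ∈ univ.filter (inH N d), b2n (eH d h = .inr w) : ℕ) : ℤ) =
            (2 * d : ℕ) := by
          push_cast at h1 ⊢
          rw [h1]
          omega
        exact_mod_cast h6)
    (by
      intro K hK
      have hK1 : ∀ u v, N u v → (K (.inl u) ↔ K (.inr v)) := by
        intro u v huv
        constructor
        · intro h
          exact hK (.inl (u, v), false) (by simpa [inH] using huv) h
        · intro h
          exact hK (.inl (u, v), true) (by simpa [inH] using huv) h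
      have hK2 : ∀ w, outd N w < 2 * d → (K (.inl w) ↔ K (.inr w)) := by
        intro w hw
        have hpos : 0 < 2 * d := by omega
        have hj : (0 : ℕ) < 2 * d - outd N w := by omega
        constructor
        · intro h
          exact hK (.inr (w, ⟨0, hpos⟩), false) (by simpa [inH] using hj) h
        · intro h
          exact hK (.inr (w, ⟨0, hpos⟩), true) (by simpa [inH] using hj) h
      have heven := hpar (fun w => K (.inl w)) (fun w => K (.inr w)) ⟨hK1, hK2⟩
      have h1 : ∑ h ∈ univ.filter (inH N d), b2n (K (eH d h) ∧ sH d h) =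
          2 * sumOn (fun w => K (.inl w)) (fun w => outd N w) := by
        rw [sumH]
        have h2 : (∑ w, ∑ j : Fin (2 * d), if j.1 < 2 * d - outd N w then
            b2n (K (eH d (.inr (w, j), true)) ∧ sH d (.inr (w, j), true)) +
            b2n (K (eH d (.inr (w, j), false)) ∧ sH d (.inr (w, j), false)) else 0) = 0 := by
          refine Finset.sum_eq_zero fun w _ => Finset.sum_eq_zero fun j _ => ?_
          rw [b2n_neg (fun h => h.2), b2n_neg (fun h => h.2)]
          simp
        rw [h2, add_zero]
        unfold sumOn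
        rw [Finset.mul_sum]
        refine Finset.sum_congr rfl fun u _ => ?_
        unfold outd cnt
        rw [Finset.mul_sum, Finset.mul_sum]
        refine Finset.sum_congr rfl fun v _ => ?_
        by_cases h : N u v
        · rw [if_pos h, b2n_pos h]
          show b2n (K (.inr v) ∧ True) + b2n (K (.inl u) ∧ True) = _
          have e1 : b2n (K (.inr v) ∧ True) = b2n (K (.inl u)) :=
            b2n_congr ⟨fun h' => (hK1 u v h).2 h'.1, fun h' => ⟨(hK1 u v h).1 h', trivial⟩⟩
          have e2 : b2n (K (.inl u) ∧ True) = b2n (K (.inl u)) :=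
            b2n_congr ⟨fun h' => h'.1, fun h' => ⟨h', trivial⟩⟩
          rw [e1, e2]
          ring
        · rw [if_neg h, b2n_neg h]
          simp
      rw [h1]
      have h3 : sumOn (fun w => K (.inl w)) (fun w => 2 * d - outd N w) +
          sumOn (fun w => K (.inl w)) (fun w => outd N w) =
          cnt (fun w => K (.inl w)) * (2 * d) := by
        rw [← sumOn_add, ← sumOn_const]
        refine sumOn_congr (fun _ => Iff.rfl) fun w _ => ?_
        have := hle w
        omega
      obtain ⟨k, hk⟩ := heven
      refine ⟨(cnt (fun w => K (.inl w)) * d - k : ℕ), ?_⟩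
      have h4 : cnt (fun w => K (.inl w)) * (2 * d) = 2 * (cnt (fun w => K (.inl w)) * d) := by
        ring
      omega)
  -- the signs of the arcs
  set a : W → W → ℤ := fun u v => s (.inl (u, v), false) with ha
  have ha1 : ∀ u v, N u v → a u v = 1 ∨ a u v = -1 := by
    intro u v huv
    exact hs1 _ (by simpa [inH] using huv)
  have ha2 : ∀ u v, N u v → s (.inl (u, v), true) = a u v := by
    intro u v huv
    exact (hs2 (.inl (u, v), false) (by simpa [inH] using huv)).1 trivial
  set t : W → ℤ := fun w => ∑ j : Fin (2 * d), if j.1 < 2 * d - outd N w then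
    s (.inr (w, j), false) else 0 with ht
  have hout : ∀ w, (∑ v, if N w v then a w v else 0) = - t w := by
    intro w
    have h1 := hs3 (.inl w)
    rw [sumH_inl] at h1
    linarith
  have hin : ∀ w, (∑ u, if N u w then a u w else 0) = t w := by
    intro w
    have h1 := hs3 (.inr w)
    rw [sumH_inr] at h1
    have h2 : (∑ u, if N u w then s (.inl (u, w), true) else 0) =
        ∑ u, if N u w then a u w else 0 := by
      refine Finset.sum_congr rfl fun u _ => ?_
      by_cases h : N u w
      · rw [if_pos h, if_pos h, ha2 u w h]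
      · rw [if_neg h, if_neg h]
    have h3 : (∑ j : Fin (2 * d), if j.1 < 2 * d - outd N w then s (.inr (w, j), true) else 0) =
        - t w := by
      rw [ht, ← Finset.sum_neg_distrib]
      refine Finset.sum_congr rfl fun j _ => ?_
      by_cases h : j.1 < 2 * d - outd N w
      · rw [if_pos h, if_pos h]
        exact (hs2 (.inr (w, j), false) (by simpa [inH] using h)).2 (fun h => h)
      · rw [if_neg h, if_neg h, neg_zero]
    rw [h2, h3] at h1
    linarith
  have htabs : ∀ w, |t w| ≤ ((2 * d - outd N w : ℕ) : ℤ) := by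
    intro w
    have h5 : (∑ j : Fin (2 * d), if j.1 < 2 * d - outd N w then (1 : ℤ) else 0) =
        ((2 * d - outd N w : ℕ) : ℤ) := count_fin_int _ _ (Nat.sub_le _ _)
    rw [← h5, ht]
    refine (Finset.abs_sum_le_sum_abs _ _).trans (Finset.sum_le_sum fun j _ => ?_)
    by_cases h : j.1 < 2 * d - outd N w
    · rw [if_pos h, if_pos h]
      rcases hs1 (.inr (w, j), false) (by simpa [inH] using h) with h' | h' <;> rw [h'] <;>
        norm_num
    · rw [if_neg h, if_neg h]
      norm_num
  obtain ⟨τ, hτ1, hτ2⟩ : ∃ τ : ℤ, (τ = 1 ∨ τ = -1) ∧ ¬ (N f.1 f.2 ∧ a f.1 f.2 = τ) := by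
    by_cases h : N f.1 f.2 ∧ a f.1 f.2 = 1
    · exact ⟨-1, Or.inr rfl, fun h' => by rw [h.2] at h'; norm_num at h'⟩
    · exact ⟨1, Or.inl rfl, h⟩
  obtain ⟨N1, hN1⟩ : ∃ N1 : W → W → Prop, ∀ u v, N1 u v ↔ (N u v ∧ a u v = τ) :=
    ⟨fun u v => N u v ∧ a u v = τ, fun _ _ => Iff.rfl⟩
  have hpt : ∀ u v, (2 * (if N1 u v then (1 : ℤ) else 0) - if N u v then 1 else 0) =
      τ * if N u v then a u v else 0 := by
    intro u v
    by_cases h : N u v
    · rw [if_pos h, if_pos h]
      by_cases h2 : a u v = τ
      · rw [if_pos ((hN1 u v).2 ⟨h, h2⟩), h2]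
        rcases hτ1 with h3 | h3 <;> rw [h3] <;> norm_num
      · rw [if_neg (fun h' => h2 ((hN1 u v).1 h').2)]
        rcases hτ1 with h3 | h3
        · rcases ha1 u v h with h4 | h4
          · exact absurd (h4.trans h3.symm) h2
          · rw [h3, h4]; norm_num
        · rcases ha1 u v h with h4 | h4
          · rw [h3, h4]; norm_num
          · exact absurd (h4.trans h3.symm) h2
    · rw [if_neg h, if_neg h, if_neg (fun h' => h ((hN1 u v).1 h').1)]
      ring
  have ho : ∀ w, 2 * (outd N1 w : ℤ) - outd N w = - τ * t w := by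
    intro w
    rw [outd_ite, outd_ite, Finset.mul_sum, ← Finset.sum_sub_distrib,
      Finset.sum_congr rfl (fun v _ => hpt w v), ← Finset.mul_sum, hout]
    ring
  have hi : ∀ w, 2 * (indg N1 w : ℤ) - indg N w = τ * t w := by
    intro w
    rw [indg_ite, indg_ite, Finset.mul_sum, ← Finset.sum_sub_distrib,
      Finset.sum_congr rfl (fun u _ => hpt u w), ← Finset.mul_sum, hin]
  have habs : ∀ w, -((2 * d - outd N w : ℕ) : ℤ) ≤ τ * t w ∧
      τ * t w ≤ ((2 * d - outd N w : ℕ) : ℤ) := by
    intro w
    have h := abs_le.1 (htabs w)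
    rcases hτ1 with h3 | h3 <;> rw [h3] <;> constructor <;> linarith [h.1, h.2]
  refine ⟨N1, fun u v h => ((hN1 u v).1 h).1, fun h => hτ2 ((hN1 _ _).1 h), ?_, ?_, ?_⟩
  · intro w
    have h1 := ho w
    have h2 := hi w
    have h3 := hbal w
    have h4 : 2 * (outd N1 w : ℤ) + 2 * (indg N1 w : ℤ) = 2 * (outd N w : ℤ) := by
      rw [← h3] at h2
      linarith
    omega
  · intro w
    have h1 := ho w
    have h2 := (habs w).1
    have h4 := hle w
    have h5 : 2 * (outd N1 w : ℤ) ≤ 2 * d := by
      have : ((2 * d - outd N w : ℕ) : ℤ) = 2 * d - outd N w := by omega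
      linarith
    omega
  · intro w
    have h1 := hi w
    have h2 := (habs w).2
    have h3 := hbal w
    have h4 := hle w
    have h5 : 2 * (indg N1 w : ℤ) ≤ 2 * d := by
      have : ((2 * d - outd N w : ℕ) : ℤ) = 2 * d - outd N w := by omega
      rw [← h3] at h1
      linarith
    omega

end Pool.Agent.Helper40.SSQ
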