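import Pool.Agent.Helper40.SSQ.Defs
import Pool.Agent.Helper74.SSQ.Color

set_option autoImplicit false

/-! Module G: recolouring two matchings in the tight case. -/

namespace Pool.Agent.Helper40.SSQ

open Finset

/-- Lemma P: pairing the elements of a set of even size, with a pair inside every class with at
least two elements. -/
theorem tr_pair {W : Type} (r : W → W → Prop) (hr : Equivalence r) :
    ∀ (n : ℕ) (S : Finset W), S.card = 2 * n → ∃ τ : W → W,
      (∀ x ∈ S, τ x ∈ S ∧ τ (τ x) = x ∧ τ x ≠ x) ∧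
      ∀ x ∈ S, ∀ y ∈ S, x ≠ y → r x y → ∃ z ∈ S, r x z ∧ r z (τ z) := by
  classical
  intro n
  induction n with
  | zero =>
    intro S hS
    have h0 : S = ∅ := by
      rw [← Finset.card_eq_zero]
      omega
    subst h0
    exact ⟨id, by simp, by simp⟩
  | succ n ih =>
    intro S hS
    obtain ⟨x, hx, y, hy, hxy, hrel⟩ : ∃ x ∈ S, ∃ y ∈ S, x ≠ y ∧
        ((∃ x' ∈ S, ∃ y' ∈ S, x' ≠ y' ∧ r x' y') → r x y) := by
      by_cases h : ∃ x' ∈ S, ∃ y' ∈ S, x' ≠ y' ∧ r x' y'
      · obtain ⟨x, hx, y, hy, h1, h2⟩ := h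
        exact ⟨x, hx, y, hy, h1, fun _ => h2⟩
      · have h1 : 1 < S.card := by omega
        obtain ⟨x, hx, y, hy, h1⟩ := Finset.one_lt_card.mp h1
        exact ⟨x, hx, y, hy, h1, fun h' => absurd h' h⟩
    have hyx : y ∈ S.erase x := Finset.mem_erase.mpr ⟨hxy.symm, hy⟩
    have hcard : ((S.erase x).erase y).card = 2 * n := by
      rw [Finset.card_erase_of_mem hyx, Finset.card_erase_of_mem hx]
      omega
    obtain ⟨τ, h1, h2⟩ := ih _ hcard
    have hmem : ∀ z, z ∈ (S.erase x).erase y ↔ z ≠ y ∧ z ≠ x ∧ z ∈ S := by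
      intro z
      rw [Finset.mem_erase, Finset.mem_erase]
    refine ⟨fun z => if z = x then y else if z = y then x else τ z, ?_, ?_⟩
    · intro z hz
      by_cases hzx : z = x
      · subst hzx
        simp only [if_true]
        refine ⟨hy, ?_, hxy.symm⟩
        simp [hxy.symm]
      · by_cases hzy : z = y
        · subst hzy
          simp only [if_neg hzx, if_true]
          exact ⟨hx, trivial, fun h => hzx h.symm⟩
        · have hz' : z ∈ (S.erase x).erase y := (hmem z).mpr ⟨hzy, hzx, hz⟩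
          obtain ⟨h3, h4, h5⟩ := h1 z hz'
          obtain ⟨h6, h7, h8⟩ := (hmem _).mp h3
          simp only [if_neg hzx, if_neg hzy, if_neg h6, if_neg h7]
          exact ⟨h8, h4, h5⟩
    · intro x' hx' y' hy' hne hr'
      have hrxy : r x y := hrel ⟨x', hx', y', hy', hne, hr'⟩
      by_cases hx'x : r x' x
      · refine ⟨x, hx, hx'x, ?_⟩
        simp only [if_true]
        exact hrxy
      · have hx'y : ¬ r x' y := fun h => hx'x (hr.trans h (hr.symm hrxy))
        have n1 : x' ≠ x := fun h => hx'x (h ▸ hr.refl x')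
        have n2 : x' ≠ y := fun h => hx'y (h ▸ hr.refl x')
        have n3 : y' ≠ x := fun h => hx'x (h ▸ hr')
        have n4 : y' ≠ y := fun h => hx'y (h ▸ hr')
        obtain ⟨z, hz, h3, h4⟩ := h2 x' ((hmem _).mpr ⟨n2, n1, hx'⟩) y'
          ((hmem _).mpr ⟨n4, n3, hy'⟩) hne hr'
        obtain ⟨h6, h7, h8⟩ := (hmem _).mp hz
        refine ⟨z, h8, h3, ?_⟩
        simp only [if_neg h6, if_neg h7]
        exact h4

/-- selection of one element in each class of size two, for two partitions -/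
theorem tr_select {E α β : Type} [Fintype E] (f : E → α) (g : E → β)
    (hf : ∀ e, cnt (fun e' => f e' = f e) = 2) (hg : ∀ e, cnt (fun e' => g e' = g e) = 2) :
    ∃ X : E → Prop, (∀ e e', e ≠ e' → f e = f e' → (X e ↔ ¬ X e')) ∧
      (∀ e e', e ≠ e' → g e = g e' → (X e ↔ ¬ X e')) := by
  classical
  let l : E → Set.range f := fun e => ⟨f e, e, rfl⟩
  let r : E → Set.range g := fun e => ⟨g e, e, rfl⟩
  have hl : ∀ u, ((univ : Finset E).filter (fun e => l e = u)).card = 2 := by
    rintro ⟨_, e, rfl⟩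
    rw [← hf e, cnt_eq_card]
    congr 1
    ext e'
    simp [l]
  have hr : ∀ u, ((univ : Finset E).filter (fun e => r e = u)).card = 2 := by
    rintro ⟨_, e, rfl⟩
    rw [← hg e, cnt_eq_card]
    congr 1
    ext e'
    simp [r]
  obtain ⟨M, -, hM1, hM2⟩ := Pool.Agent.Helper74.SSQ.exists_matching l r 2 univ (by norm_num) hl hr
  have key : ∀ {γ : Type} [DecidableEq γ] (k : E → γ), (∀ u, (univ.filter (fun e => k e = u)).card = 2 ∨
      True) → (∀ e, (univ.filter (fun e' => k e' = k e)).card = 2) →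
      (∀ e, (M.filter (fun e' => k e' = k e)).card = 1) →
      ∀ e e', e ≠ e' → k e = k e' → (e ∈ M ↔ ¬ e' ∈ M) := by
    intro γ _ k _ hk2 hk1 e e' hne heq
    have h2 : (univ.filter (fun e'' => k e'' = k e)) = {e, e'} := by
      symm
      apply Finset.eq_of_subset_of_card_le
      · intro z hz
        rw [Finset.mem_insert, Finset.mem_singleton] at hz
        rw [Finset.mem_filter]
        rcases hz with rfl | rfl
        · exact ⟨mem_univ _, rfl⟩
        · exact ⟨mem_univ _, heq.symm⟩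
      · rw [hk2 e, Finset.card_pair hne]
    obtain ⟨z, hz⟩ := Finset.card_eq_one.mp (hk1 e)
    have hmem : ∀ w, w ∈ M → k w = k e → w = z := by
      intro w hw hkw
      have : w ∈ M.filter (fun e' => k e' = k e) := Finset.mem_filter.mpr ⟨hw, hkw⟩
      rw [hz, Finset.mem_singleton] at this
      exact this
    have hzM : z ∈ M ∧ k z = k e := by
      have : z ∈ M.filter (fun e' => k e' = k e) := by rw [hz]; exact Finset.mem_singleton_self z
      exact Finset.mem_filter.mp this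
    have hz2 : z = e ∨ z = e' := by
      have : z ∈ (univ.filter (fun e'' => k e'' = k e)) :=
        Finset.mem_filter.mpr ⟨mem_univ _, hzM.2⟩
      rw [h2, Finset.mem_insert, Finset.mem_singleton] at this
      exact this
    constructor
    · intro h1 h3
      exact hne ((hmem e h1 rfl).trans (hmem e' h3 heq.symm).symm)
    · intro h1
      rcases hz2 with h | h
      · rw [← h]; exact hzM.1
      · exact absurd (h ▸ hzM.1) h1
  refine ⟨fun e => e ∈ M, fun e e' hne heq => ?_, fun e e' hne heq => ?_⟩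
  · exact key l (fun _ => Or.inr trivial) (fun e => hl (l e)) (fun e => hM1 (l e)) e e' hne
      (Subtype.ext heq)
  · exact key r (fun _ => Or.inr trivial) (fun e => hr (r e)) (fun e => hM2 (r e)) e e' hne
      (Subtype.ext heq)

open Classical in
/-- the class of a vertex -/
noncomputable def trCl {W : Type} (S : W → Prop) (τ : W → W) (v : W) : Finset W :=
  if S v then {v, τ v} else {v}

theorem trCl_eq {W : Type} {S : W → Prop} {τ : W → W}
    (hS : ∀ v, S v → S (τ v) ∧ τ (τ v) = v ∧ τ v ≠ v) (v v' : W) :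
    trCl S τ v' = trCl S τ v ↔ v' = v ∨ (S v ∧ v' = τ v) := by
  classical
  unfold trCl
  by_cases h : S v
  · obtain ⟨h1, h2, h3⟩ := hS v h
    rw [if_pos h]
    by_cases h' : S v'
    · rw [if_pos h']
      constructor
      · intro heq
        have : v' ∈ ({v, τ v} : Finset W) := by
          rw [← heq]
          simp
        rw [Finset.mem_insert, Finset.mem_singleton] at this
        rcases this with h4 | h4
        · exact Or.inl h4
        · exact Or.inr ⟨h, h4⟩
      · rintro (rfl | ⟨_, rfl⟩)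
        · rfl
        · rw [h2, Finset.pair_comm]
    · rw [if_neg h']
      constructor
      · intro heq
        exfalso
        have h4 : v ∈ ({v'} : Finset W) := by rw [heq]; simp
        have h5 : τ v ∈ ({v'} : Finset W) := by rw [heq]; simp
        rw [Finset.mem_singleton] at h4 h5
        exact h3 (h5.trans h4.symm)
      · rintro (rfl | ⟨_, rfl⟩)
        · exact absurd h h'
        · exact absurd h1 h'
  · rw [if_neg h]
    by_cases h' : S v'
    · obtain ⟨h1, h2, h3⟩ := hS v' h'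
      rw [if_pos h']
      constructor
      · intro heq
        exfalso
        have h4 : v' ∈ ({v} : Finset W) := by rw [← heq]; simp
        have h5 : τ v' ∈ ({v} : Finset W) := by rw [← heq]; simp
        rw [Finset.mem_singleton] at h4 h5
        exact h3 (h5.trans h4.symm)
      · rintro (rfl | ⟨h4, _⟩)
        · exact absurd h' h
        · exact absurd h4 h
    · rw [if_neg h', Finset.singleton_inj]
      constructor
      · intro h4; exact Or.inl h4
      · rintro (h4 | ⟨h4, _⟩)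
        · exact h4
        · exact absurd h4 h

theorem tr_class_card {E W : Type} [Fintype E] (k : E → W) (S : W → Prop) (τ : W → W)
    (hS : ∀ v, S v → S (τ v) ∧ τ (τ v) = v ∧ τ v ≠ v)
    (h1 : ∀ v, S v → cnt (fun e => k e = v) = 1)
    (h2 : ∀ e, ¬ S (k e) → cnt (fun e' => k e' = k e) = 2) (e : E) :
    cnt (fun e' => trCl S τ (k e') = trCl S τ (k e)) = 2 := by
  by_cases h : S (k e)
  · obtain ⟨h3, h4, h5⟩ := hS _ h
    have h6 : cnt (fun e' => trCl S τ (k e') = trCl S τ (k e)) =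
        cnt (fun e' => k e' = k e ∨ k e' = τ (k e)) := by
      apply cnt_congr
      intro e'
      rw [trCl_eq hS]
      constructor
      · rintro (h7 | ⟨_, h7⟩)
        · exact Or.inl h7
        · exact Or.inr h7
      · rintro (h7 | h7)
        · exact Or.inl h7
        · exact Or.inr ⟨h, h7⟩
    rw [h6, cnt_or, h1 _ h, h1 _ h3]
    rintro e' ⟨h7, h8⟩
    exact h5 (h8.symm.trans h7)
  · rw [← h2 e h]
    apply cnt_congr
    intro e'
    rw [trCl_eq hS]
    constructor
    · rintro (h7 | ⟨h7, _⟩)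
      · exact h7
      · exact absurd h7 h
    · intro h7; exact Or.inl h7

/-- the number of arcs with a given head -/
theorem tr_head {W : Type} [Fintype W] (F : W → W → Prop) [Fintype {p : W × W // F p.1 p.2}]
    (v : W) : cnt (fun e : {p : W × W // F p.1 p.2} => e.1.2 = v) = indg F v := by
  classical
  unfold indg
  rw [cnt_eq_card, cnt_eq_card]
  refine Finset.card_bij (fun e _ => e.1.1) ?_ ?_ ?_
  · intro e he
    rw [Finset.mem_filter] at he ⊢
    refine ⟨mem_univ _, ?_⟩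
    rw [← he.2]
    exact e.2
  · intro e he e' he' heq
    rw [Finset.mem_filter] at he he'
    apply Subtype.ext
    exact Prod.ext heq (he.2.trans he'.2.symm)
  · intro u hu
    rw [Finset.mem_filter] at hu
    exact ⟨⟨(u, v), hu.2⟩, Finset.mem_filter.mpr ⟨mem_univ _, rfl⟩, rfl⟩

/-- the number of arcs with a given tail -/
theorem tr_tail {W : Type} [Fintype W] (F : W → W → Prop) [Fintype {p : W × W // F p.1 p.2}]
    (u : W) : cnt (fun e : {p : W × W // F p.1 p.2} => e.1.1 = u) = outd F u := by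
  classical
  unfold outd
  rw [cnt_eq_card, cnt_eq_card]
  refine Finset.card_bij (fun e _ => e.1.2) ?_ ?_ ?_
  · intro e he
    rw [Finset.mem_filter] at he ⊢
    refine ⟨mem_univ _, ?_⟩
    rw [← he.2]
    exact e.2
  · intro e he e' he' heq
    rw [Finset.mem_filter] at he he'
    apply Subtype.ext
    exact Prod.ext (he.2.trans he'.2.symm) heq
  · intro v hv
    rw [Finset.mem_filter] at hv
    exact ⟨⟨(u, v), hv.2⟩, Finset.mem_filter.mpr ⟨mem_univ _, rfl⟩, rfl⟩

/-- a matching has out-degree at most one -/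
theorem tr_one (W : Type) [Fintype W] (M : W → W → Prop) (hf : ∀ u v v', M u v → M u v' → v = v')
    (u : W) : outd M u + b2n (nd M u) = 1 := by
  unfold outd
  by_cases h : nd M u
  · rw [b2n_pos h, cnt_eq_zero.2 h]
  · rw [b2n_neg h]
    unfold nd at h
    push Not at h
    rw [cnt_eq_one h (fun v v' => hf u v v')]

theorem tr_outF {W : Type} [Fintype W] {N : W → W → Prop} {M : Fin 2 → W → W → Prop}
    (hM : Mat N M) (u : W) :
    outd (fun u v => ∃ i, M i u v) u + (b2n (nd (M 0) u) + b2n (nd (M 1) u)) = 2 := by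
  have h0 := tr_one W (M 0) (fun u v v' => hM.func 0 u v v') u
  have h1 := tr_one W (M 1) (fun u v v' => hM.func 1 u v v') u
  have h2 : outd (fun u v => ∃ i, M i u v) u = outd (M 0) u + outd (M 1) u := by
    unfold outd
    rw [← cnt_or]
    · apply cnt_congr
      intro v
      exact Fin.exists_fin_two
    · rintro v ⟨h3, h4⟩
      have := hM.disj 0 1 u v h3 h4
      exact absurd this (by decide)
  omega

/-- the transposed matchings -/
theorem tr_transpose {W : Type} {N : W → W → Prop} {M : Fin 2 → W → W → Prop}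
    (hM : Mat N M) : Mat (fun u v => N v u) (fun i u v => M i v u) :=
  ⟨fun i u v h => hM.sub i v u h, fun i u v v' h h' => hM.inj i v v' u h h',
    fun i u u' v h h' => hM.func i v u u' h h', fun i j u v h h' => hM.disj i j v u h h'⟩

theorem tr_inF {W : Type} [Fintype W] {N : W → W → Prop} {M : Fin 2 → W → W → Prop}
    (hM : Mat N M) (v : W) :
    indg (fun u v => ∃ i, M i u v) v + (b2n (nr (M 0) v) + b2n (nr (M 1) v)) = 2 :=
  tr_outF (tr_transpose hM) v

/-- the bipartite graph of the arcs and the slack -/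
def trJ {W : Type} (P : W → W → Prop) (D : W → ℕ) (κ : ℕ) : W ⊕ W → W ⊕ W → Prop
  | .inl u, .inr v => P u v ∨ (u = v ∧ D u < κ)
  | _, _ => False

/-- the double counting for a closed pair of sets -/
theorem tr_count {W : Type} [Fintype W] (P : W → W → Prop) (D a b : W → ℕ) (κ : ℕ)
    (h1 : ∀ u, outd P u + b u = D u) (h2 : ∀ v, indg P v + a v = D v) (h3 : ∀ w, D w ≤ κ)
    (A B : W → Prop) (hP : ∀ u v, P u v → (A u ↔ B v)) (hD : ∀ w, D w < κ → (A w ↔ B w))
    (ha : ∀ v, B v → a v = 0) : sumOn A b + κ * cnt B = κ * cnt A := by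
  have e1 : sumOn A (outd P) = sumOn B (indg P) := by
    unfold sumOn outd indg cnt
    simp only [Finset.mul_sum]
    rw [Finset.sum_comm]
    apply Finset.sum_congr rfl
    intro v _
    apply Finset.sum_congr rfl
    intro u _
    by_cases h : P u v
    · rw [b2n_congr (hP u v h)]
    · rw [b2n_neg h, mul_zero, mul_zero]
  have e2 : sumOn A (fun w => κ - D w) = sumOn B (fun w => κ - D w) := by
    unfold sumOn
    apply Finset.sum_congr rfl
    intro w _
    show b2n (A w) * (κ - D w) = b2n (B w) * (κ - D w)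
    by_cases h : D w < κ
    · rw [b2n_congr (hD w h)]
    · have : κ - D w = 0 := by omega
      rw [this, mul_zero, mul_zero]
  have e3 : sumOn A (outd P) + sumOn A b + sumOn A (fun w => κ - D w) = cnt A * κ := by
    rw [← sumOn_add, ← sumOn_add, ← sumOn_const]
    apply sumOn_congr (fun _ => Iff.rfl)
    intro w _
    have := h1 w
    have := h3 w
    omega
  have e4 : sumOn B (indg P) + sumOn B (fun w => κ - D w) = cnt B * κ := by
    rw [← sumOn_add, ← sumOn_const]
    apply sumOn_congr (fun _ => Iff.rfl)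
    intro w hw
    have := h2 w
    have := h3 w
    have := ha w hw
    omega
  have e5 : cnt A * κ = κ * cnt A := mul_comm _ _
  have e6 : cnt B * κ = κ * cnt B := mul_comm _ _
  omega

/-- the key contradiction -/
theorem tr_half {W : Type} [Fintype W] (P : W → W → Prop) (D a b : W → ℕ) (κ : ℕ) (hκ : 2 ≤ κ)
    (h1 : ∀ u, outd P u + b u = D u) (h2 : ∀ v, indg P v + a v = D v) (h3 : ∀ w, D w ≤ κ)
    (τ : W → W)
    (hτ : ∀ x y, b x = 1 → b y = 1 → x ≠ y →
      Relation.EqvGen (trJ P D κ) (.inl x) (.inl y) → ∃ z, b z = 1 ∧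
        Relation.EqvGen (trJ P D κ) (.inl x) (.inl z) ∧
        Relation.EqvGen (trJ P D κ) (.inl z) (.inl (τ z)))
    (q : W → Prop) (hq : cnt q = κ) (hqτ : ∀ x, b x = 1 → b (τ x) = 1 ∧ (q x ↔ ¬ q (τ x)))
    (A B : W → Prop) (hP : ∀ u v, P u v → (A u ↔ B v)) (hD : ∀ w, D w < κ → (A w ↔ B w))
    (hqA : ∀ w, q w → A w) (hb : ∀ u, A u → b u = b2n (q u)) (ha : ∀ v, B v → a v = 0) :
    False := by
  classical
  obtain ⟨w0, hw0⟩ := cnt_pos.mp (by omega : 0 < cnt q)
  let r : W ⊕ W → W ⊕ W → Prop := Relation.EqvGen (trJ P D κ)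
  have hK : ∀ x y, r x y → (Sum.elim A B x ↔ Sum.elim A B y) := by
    intro x y h
    induction h with
    | rel x y h =>
      rcases x with x | x <;> rcases y with y | y
      · exact absurd h id
      · rcases h with h | ⟨rfl, h⟩
        · exact hP x y h
        · exact hD x h
      · exact absurd h id
      · exact absurd h id
    | refl x => exact Iff.rfl
    | symm x y _ ih => exact ih.symm
    | trans x y z _ _ ih1 ih2 => exact ih1.trans ih2
  let AL : W → Prop := fun u => r (.inl w0) (.inl u)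
  let BL : W → Prop := fun v => r (.inl w0) (.inr v)
  have hAL : ∀ u, AL u → A u := fun u h => (hK _ _ h).mp (hqA w0 hw0)
  have hBL : ∀ v, BL v → B v := fun v h => (hK _ _ h).mp (hqA w0 hw0)
  have hstep : ∀ u v, r (.inl u) (.inr v) → (AL u ↔ BL v) := by
    intro u v h
    exact ⟨fun h' => Relation.EqvGen.trans _ _ _ h' h,
      fun h' => Relation.EqvGen.trans _ _ _ h' (Relation.EqvGen.symm _ _ h)⟩
  have hc := tr_count P D a b κ h1 h2 h3 AL BL
    (fun u v h => hstep u v (Relation.EqvGen.rel _ _ (Or.inl h)))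
    (fun w h => hstep w w (Relation.EqvGen.rel _ _ (Or.inr ⟨rfl, h⟩)))
    (fun v h => ha v (hBL v h))
  have hs : sumOn AL b = cnt (fun w => AL w ∧ q w) := by
    unfold sumOn cnt
    apply Finset.sum_congr rfl
    intro w _
    rw [b2n_and]
    by_cases h : AL w
    · rw [hb w (hAL w h)]
    · rw [b2n_neg h, zero_mul, zero_mul]
  have hle : cnt (fun w => AL w ∧ q w) ≤ κ := by
    rw [← hq]
    exact cnt_mono fun w h => h.2
  have hpos : 0 < cnt (fun w => AL w ∧ q w) :=
    cnt_pos.mpr ⟨w0, Relation.EqvGen.refl _, hw0⟩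
  rw [hs] at hc
  have heq : κ ≤ cnt (fun w => AL w ∧ q w) := by
    by_contra hlt
    push Not at hlt
    have h5 : cnt BL < cnt AL := by
      by_contra h6
      push Not at h6
      have := Nat.mul_le_mul_left κ h6
      omega
    have h6 : κ * (cnt BL + 1) ≤ κ * cnt AL := Nat.mul_le_mul_left κ h5
    rw [mul_add, mul_one] at h6
    omega
  have h2c : 1 < (univ.filter (fun w => AL w ∧ q w)).card := by
    rw [← cnt_eq_card]
    omega
  obtain ⟨x, hx, y, hy, hxy⟩ := Finset.one_lt_card.mp h2c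
  rw [Finset.mem_filter] at hx hy
  obtain ⟨_, hx1, hx2⟩ := hx
  obtain ⟨_, hy1, hy2⟩ := hy
  have bx : b x = 1 := by rw [hb x (hAL x hx1), b2n_pos hx2]
  have by' : b y = 1 := by rw [hb y (hAL y hy1), b2n_pos hy2]
  obtain ⟨z, hz, hz1, hz2⟩ := hτ x y bx by' hxy
    (Relation.EqvGen.trans _ _ _ (Relation.EqvGen.symm _ _ hx1) hy1)
  have hzA : AL z := Relation.EqvGen.trans _ _ _ hx1 hz1
  have hzA' : AL (τ z) := Relation.EqvGen.trans _ _ _ hzA hz2
  obtain ⟨h7, h8⟩ := hqτ z hz
  have qz : q z := by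
    have := hb z (hAL z hzA)
    rw [hz] at this
    exact b2n_ne_zero.mp (by omega)
  have qz' : q (τ z) := by
    have := hb (τ z) (hAL _ hzA')
    rw [h7] at this
    exact b2n_ne_zero.mp (by omega)
  exact h8.mp qz qz'

/-- the number of elements with value one is even -/
theorem tr_even {W : Type} [Fintype W] (b : W → ℕ) (hb : ∀ w, b w ≤ 2) (κ : ℕ)
    (hs : ∑ w, b w = 2 * κ) : ∃ n, cnt (fun w => b w = 1) = 2 * n := by
  have h1 : ∑ w, b w = cnt (fun w => b w = 1) + 2 * cnt (fun w => b w = 2) := by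
    unfold cnt
    rw [Finset.mul_sum, ← Finset.sum_add_distrib]
    apply Finset.sum_congr rfl
    intro w _
    have hw := hb w
    rcases (by omega : b w = 0 ∨ b w = 1 ∨ b w = 2) with h | h | h
    · rw [b2n_neg (by omega : ¬ b w = 1), b2n_neg (by omega : ¬ b w = 2)]
      omega
    · rw [b2n_pos h, b2n_neg (by omega : ¬ b w = 2)]
      omega
    · rw [b2n_neg (by omega : ¬ b w = 1), b2n_pos h]
      omega
  exact ⟨κ - cnt (fun w => b w = 2), by omega⟩

/-- exactly one new vertex on one side is impossible -/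
theorem tr_claim {W : Type} [Fintype W] (P : W → W → Prop) (D : W → ℕ) (κ : ℕ) (hκ : 2 ≤ κ)
    (M : Fin 2 → W → W → Prop)
    (h1 : ∀ u, outd P u + (b2n (nr (M 0) u) + b2n (nr (M 1) u)) = D u)
    (h2 : ∀ v, indg P v + (b2n (nd (M 0) v) + b2n (nd (M 1) v)) = D v) (h3 : ∀ w, D w ≤ κ)
    (τ : W → W)
    (hτ : ∀ x y, b2n (nr (M 0) x) + b2n (nr (M 1) x) = 1 →
      b2n (nr (M 0) y) + b2n (nr (M 1) y) = 1 → x ≠ y →
      Relation.EqvGen (trJ P D κ) (.inl x) (.inl y) → ∃ z,
        b2n (nr (M 0) z) + b2n (nr (M 1) z) = 1 ∧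
        Relation.EqvGen (trJ P D κ) (.inl x) (.inl z) ∧
        Relation.EqvGen (trJ P D κ) (.inl z) (.inl (τ z)))
    (hq : ∀ i, cnt (nr (M i)) = κ)
    (hqτ : ∀ i x, b2n (nr (M 0) x) + b2n (nr (M 1) x) = 1 →
      b2n (nr (M 0) (τ x)) + b2n (nr (M 1) (τ x)) = 1 ∧ (nr (M i) x ↔ ¬ nr (M i) (τ x)))
    (A B : W ⊕ Fin 2 → Prop)
    (hP : ∀ u v, P u v → (A (.inl u) ↔ B (.inl v)))
    (hr : ∀ i w, nr (M i) w → (A (.inl w) ↔ B (.inr i)))
    (hd : ∀ i w, nd (M i) w → (A (.inr i) ↔ B (.inl w)))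
    (hD : ∀ w, D w < κ → (A (.inl w) ↔ B (.inl w)))
    (i : Fin 2) (hB : B (.inr i)) (hB' : ∀ j, j ≠ i → ¬ B (.inr j)) (hA : ∀ j, ¬ A (.inr j)) :
    False := by
  refine tr_half P D (fun v => b2n (nd (M 0) v) + b2n (nd (M 1) v))
    (fun v => b2n (nr (M 0) v) + b2n (nr (M 1) v)) κ hκ h1 h2 h3 τ hτ (nr (M i)) (hq i) (hqτ i)
    (fun w => A (.inl w)) (fun w => B (.inl w)) hP hD (fun w hw => (hr i w hw).mpr hB) ?_ ?_
  · intro u hu
    have h4 : ∀ j, j ≠ i → b2n (nr (M j) u) = 0 := by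
      intro j hj
      apply b2n_neg
      intro h
      exact hB' j hj ((hr j u h).mp hu)
    show b2n (nr (M 0) u) + b2n (nr (M 1) u) = b2n (nr (M i) u)
    rcases (by omega : i = 0 ∨ i = 1) with rfl | rfl
    · rw [h4 1 (by decide), add_zero]
    · rw [h4 0 (by decide), zero_add]
  · intro v hv
    show b2n (nd (M 0) v) + b2n (nd (M 1) v) = 0
    have h4 : ∀ j, b2n (nd (M j) v) = 0 := by
      intro j
      apply b2n_neg
      intro h
      exact hA j ((hd j v h).mpr hv)
    rw [h4 0, h4 1]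

/-- the two missing colours are exchanged along the pairing -/
theorem tr_swap {W : Type} [Fintype W] (F Y : W → W → Prop) (S : W → Prop) (τ : W → W)
    (hS : ∀ v, S v → S (τ v) ∧ τ (τ v) = v ∧ τ v ≠ v)
    (h1 : ∀ v, S v → indg F v = 1)
    (hY : ∀ u v u' v', F u v → F u' v' → (u, v) ≠ (u', v') → trCl S τ v = trCl S τ v' →
      (Y u v ↔ ¬ Y u' v')) (i : Fin 2) (x : W) (hx : S x) :
    nr (fun u v => F u v ∧ (Y u v ↔ i = 0)) x ↔ ¬ nr (fun u v => F u v ∧ (Y u v ↔ i = 0)) (τ x) := by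
  obtain ⟨h2, h3, h4⟩ := hS x hx
  obtain ⟨u, hu, hu'⟩ := exists_unique_of_cnt_eq_one (h1 x hx)
  obtain ⟨v, hv, hv'⟩ := exists_unique_of_cnt_eq_one (h1 _ h2)
  have h5 := hY u x v (τ x) hu hv (by
    intro h
    exact h4 (Prod.ext_iff.mp h).2.symm) (by
    symm
    rw [trCl_eq hS]
    exact Or.inr ⟨hx, rfl⟩)
  have e1 : nr (fun u v => F u v ∧ (Y u v ↔ i = 0)) x ↔ ¬ (Y u x ↔ i = 0) := by
    unfold nr
    constructor
    · intro h h'
      exact h u ⟨hu, h'⟩
    · rintro h u' ⟨h6, h7⟩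
      have : u' = u := hu' u' h6
      subst this
      exact h h7
  have e2 : nr (fun u v => F u v ∧ (Y u v ↔ i = 0)) (τ x) ↔ ¬ (Y v (τ x) ↔ i = 0) := by
    unfold nr
    constructor
    · intro h h'
      exact h v ⟨hv, h'⟩
    · rintro h u' ⟨h6, h7⟩
      have : u' = v := hv' u' h6
      subst this
      exact h h7
  rw [e1, e2]
  tauto

/-- recolouring along two pairings -/
theorem tr_recol {W : Type} [Fintype W] {N : W → W → Prop} {M : Fin 2 → W → W → Prop}
    (hM : Mat N M) (κ : ℕ) (hx : ∀ i, cnt (nd (M i)) = κ) (τA τB : W → W)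
    (hA : ∀ x, b2n (nr (M 0) x) + b2n (nr (M 1) x) = 1 →
      b2n (nr (M 0) (τA x)) + b2n (nr (M 1) (τA x)) = 1 ∧ τA (τA x) = x ∧ τA x ≠ x)
    (hB : ∀ x, b2n (nd (M 0) x) + b2n (nd (M 1) x) = 1 →
      b2n (nd (M 0) (τB x)) + b2n (nd (M 1) (τB x)) = 1 ∧ τB (τB x) = x ∧ τB x ≠ x) :
    ∃ M' : Fin 2 → W → W → Prop, Mat N M' ∧
      (∀ u v, (∃ i, M' i u v) ↔ ∃ i, M i u v) ∧ (∀ i, cnt (nd (M' i)) = κ) ∧
      (∀ w, b2n (nd (M' 0) w) + b2n (nd (M' 1) w) = b2n (nd (M 0) w) + b2n (nd (M 1) w)) ∧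
      (∀ w, b2n (nr (M' 0) w) + b2n (nr (M' 1) w) = b2n (nr (M 0) w) + b2n (nr (M 1) w)) ∧
      (∀ i x, b2n (nr (M 0) x) + b2n (nr (M 1) x) = 1 →
        (nr (M' i) x ↔ ¬ nr (M' i) (τA x))) ∧
      (∀ i x, b2n (nd (M 0) x) + b2n (nd (M 1) x) = 1 →
        (nd (M' i) x ↔ ¬ nd (M' i) (τB x))) := by
  classical
  let F : W → W → Prop := fun u v => ∃ i, M i u v
  have hout : ∀ u, outd F u + (b2n (nd (M 0) u) + b2n (nd (M 1) u)) = 2 := tr_outF hM
  have hin : ∀ v, indg F v + (b2n (nr (M 0) v) + b2n (nr (M 1) v)) = 2 := tr_inF hM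
  let SA : W → Prop := fun x => b2n (nr (M 0) x) + b2n (nr (M 1) x) = 1
  let SB : W → Prop := fun x => b2n (nd (M 0) x) + b2n (nd (M 1) x) = 1
  obtain ⟨X, hX1, hX2⟩ := tr_select (E := {p : W × W // F p.1 p.2})
    (fun e => trCl SA τA e.1.2) (fun e => trCl SB τB e.1.1)
    (by
      intro e
      refine tr_class_card (fun e : {p : W × W // F p.1 p.2} => e.1.2) SA τA hA ?_ ?_ e
      · intro v hv
        rw [tr_head]
        have := hin v
        have hv' : b2n (nr (M 0) v) + b2n (nr (M 1) v) = 1 := hv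
        omega
      · intro e' he'
        rw [tr_head]
        have h1 := hin e'.1.2
        have h2 : ¬ (b2n (nr (M 0) e'.1.2) + b2n (nr (M 1) e'.1.2) = 1) := he'
        have h3 : 0 < indg F e'.1.2 := cnt_pos.mpr ⟨e'.1.1, e'.2⟩
        omega)
    (by
      intro e
      refine tr_class_card (fun e : {p : W × W // F p.1 p.2} => e.1.1) SB τB hB ?_ ?_ e
      · intro v hv
        rw [tr_tail]
        have := hout v
        have hv' : b2n (nd (M 0) v) + b2n (nd (M 1) v) = 1 := hv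
        omega
      · intro e' he'
        rw [tr_tail]
        have h1 := hout e'.1.1
        have h2 : ¬ (b2n (nd (M 0) e'.1.1) + b2n (nd (M 1) e'.1.1) = 1) := he'
        have h3 : 0 < outd F e'.1.1 := cnt_pos.mpr ⟨e'.1.2, e'.2⟩
        omega)
  let Y : W → W → Prop := fun u v => ∃ h : F u v, X ⟨(u, v), h⟩
  have hY : ∀ u v (h : F u v), Y u v ↔ X ⟨(u, v), h⟩ :=
    fun u v h => ⟨fun ⟨_, h'⟩ => h', fun h' => ⟨h, h'⟩⟩
  have hY1 : ∀ u v u' v', F u v → F u' v' → (u, v) ≠ (u', v') → trCl SA τA v = trCl SA τA v' →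
      (Y u v ↔ ¬ Y u' v') := by
    intro u v u' v' h h' hne heq
    rw [hY u v h, hY u' v' h']
    exact hX1 ⟨(u, v), h⟩ ⟨(u', v'), h'⟩ (fun h2 => hne (Subtype.ext_iff.mp h2)) heq
  have hY2 : ∀ u v u' v', F u v → F u' v' → (u, v) ≠ (u', v') → trCl SB τB u = trCl SB τB u' →
      (Y u v ↔ ¬ Y u' v') := by
    intro u v u' v' h h' hne heq
    rw [hY u v h, hY u' v' h']
    exact hX2 ⟨(u, v), h⟩ ⟨(u', v'), h'⟩ (fun h2 => hne (Subtype.ext_iff.mp h2)) heq
  let M' : Fin 2 → W → W → Prop := fun i u v => F u v ∧ (Y u v ↔ i = 0)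
  have hMat : Mat N M' := by
    refine ⟨?_, ?_, ?_, ?_⟩
    · rintro i u v ⟨⟨j, h⟩, _⟩
      exact hM.sub j u v h
    · rintro i u v v' ⟨h, h1⟩ ⟨h', h2⟩
      by_contra hne
      have := hY2 u v u v' h h' (fun h3 => hne (Prod.ext_iff.mp h3).2) rfl
      rw [h1, h2] at this
      tauto
    · rintro i u u' v ⟨h, h1⟩ ⟨h', h2⟩
      by_contra hne
      have := hY1 u v u' v h h' (fun h3 => hne (Prod.ext_iff.mp h3).1) rfl
      rw [h1, h2] at this
      tauto
    · rintro i j u v ⟨_, h1⟩ ⟨_, h2⟩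
      have h3 : i = 0 ↔ j = 0 := h1.symm.trans h2
      omega
  have hF : ∀ u v, (∃ i, M' i u v) ↔ ∃ i, M i u v := by
    intro u v
    constructor
    · rintro ⟨i, h, _⟩
      exact h
    · intro h
      by_cases hy : Y u v
      · exact ⟨0, h, by simp [hy]⟩
      · exact ⟨1, h, by simp [hy]⟩
  have ha : ∀ w, b2n (nd (M' 0) w) + b2n (nd (M' 1) w) = b2n (nd (M 0) w) + b2n (nd (M 1) w) := by
    intro w
    have h1 := tr_outF hMat w
    have h2 := hout w
    have h3 : outd (fun u v => ∃ i, M' i u v) w = outd F w := cnt_congr (fun v => hF w v)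
    omega
  have hb : ∀ w, b2n (nr (M' 0) w) + b2n (nr (M' 1) w) = b2n (nr (M 0) w) + b2n (nr (M 1) w) := by
    intro w
    have h1 := tr_inF hMat w
    have h2 := hin w
    have h3 : indg (fun u v => ∃ i, M' i u v) w = indg F w := cnt_congr (fun v => hF v w)
    omega
  have hsA : ∀ i x, b2n (nr (M 0) x) + b2n (nr (M 1) x) = 1 →
      (nr (M' i) x ↔ ¬ nr (M' i) (τA x)) := by
    intro i x hx
    refine tr_swap F Y SA τA hA ?_ hY1 i x hx
    intro v hv
    have := hin v
    have hv' : b2n (nr (M 0) v) + b2n (nr (M 1) v) = 1 := hv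
    omega
  have hsB : ∀ i x, b2n (nd (M 0) x) + b2n (nd (M 1) x) = 1 →
      (nd (M' i) x ↔ ¬ nd (M' i) (τB x)) := by
    intro i x hx
    refine tr_swap (fun u v => F v u) (fun u v => Y v u) SB τB hB ?_ ?_ i x hx
    · intro v hv
      have h1 := hout v
      have hv' : b2n (nd (M 0) v) + b2n (nd (M 1) v) = 1 := hv
      have h2 : indg (fun u v => F v u) v = outd F v := rfl
      omega
    · intro u v u' v' h h' hne heq
      exact hY2 v u v' u' h h' (fun h3 => hne (by
        rw [Prod.ext_iff] at h3 ⊢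
        exact ⟨h3.2, h3.1⟩)) heq
  have hcnt : cnt (nd (M' 0)) = cnt (nd (M' 1)) := by
    let σ : W → W := fun x => if SB x then τB x else x
    have hσ : Function.Involutive σ := by
      intro x
      by_cases h : SB x
      · have h' : SB (τB x) := (hB x h).1
        show (if SB (if SB x then τB x else x) then τB (if SB x then τB x else x)
          else (if SB x then τB x else x)) = x
        rw [if_pos h, if_pos h', (hB x h).2.1]
      · show (if SB (if SB x then τB x else x) then τB (if SB x then τB x else x)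
          else (if SB x then τB x else x)) = x
        rw [if_neg h, if_neg h]
    rw [← cnt_equiv hσ.toPerm (nd (M' 1))]
    apply cnt_congr
    intro x
    have h0 : ∀ y, b2n (nd (M' 0) y) = 0 ∨ b2n (nd (M' 0) y) = 1 := fun y => by
      have := b2n_le_one (nd (M' 0) y)
      omega
    show nd (M' 0) x ↔ nd (M' 1) (if SB x then τB x else x)
    have hax := ha x
    by_cases h : SB x
    · rw [if_pos h, hsB 0 x h]
      have h1 := (hB x h).1
      have h2 := ha (τB x)
      rw [h1] at h2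
      by_cases h3 : nd (M' 0) (τB x) <;> by_cases h4 : nd (M' 1) (τB x)
      · rw [b2n_pos h3, b2n_pos h4] at h2
        omega
      · exact ⟨fun h5 => absurd h3 h5, fun h5 => absurd h5 h4⟩
      · exact ⟨fun _ => h4, fun _ => h3⟩
      · rw [b2n_neg h3, b2n_neg h4] at h2
        omega
    · rw [if_neg h]
      have h' : ¬ (b2n (nd (M 0) x) + b2n (nd (M 1) x) = 1) := h
      by_cases h3 : nd (M' 0) x <;> by_cases h4 : nd (M' 1) x
      · exact ⟨fun _ => h4, fun _ => h3⟩
      · rw [b2n_pos h3, b2n_neg h4] at hax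
        omega
      · rw [b2n_neg h3, b2n_pos h4] at hax
        omega
      · exact ⟨fun h5 => absurd h5 h3, fun h5 => absurd h5 h4⟩
  have hsum : cnt (nd (M' 0)) + cnt (nd (M' 1)) = 2 * κ := by
    have h1 : cnt (nd (M' 0)) + cnt (nd (M' 1)) = cnt (nd (M 0)) + cnt (nd (M 1)) := by
      unfold cnt
      rw [← Finset.sum_add_distrib, ← Finset.sum_add_distrib]
      exact Finset.sum_congr rfl (fun w _ => ha w)
    rw [h1, hx 0, hx 1]
    ring
  refine ⟨M', hMat, hF, ?_, ha, hb, hsA, hsB⟩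
  intro i
  rcases (by omega : i = 0 ∨ i = 1) with rfl | rfl
  · omega
  · omega

/-- four propositions, an even number of which hold -/
theorem tr_parity (a0 a1 b0 b1 : Prop)
    (q1 : b0 → ¬ b1 → (¬ a0 ∧ ¬ a1) → False) (q2 : b1 → ¬ b0 → (¬ a0 ∧ ¬ a1) → False)
    (q3 : a0 → ¬ a1 → (¬ b0 ∧ ¬ b1) → False) (q4 : a1 → ¬ a0 → (¬ b0 ∧ ¬ b1) → False)
    (q5 : ¬ b0 → ¬ ¬ b1 → (¬ ¬ a0 ∧ ¬ ¬ a1) → False)
    (q6 : ¬ b1 → ¬ ¬ b0 → (¬ ¬ a0 ∧ ¬ ¬ a1) → False)
    (q7 : ¬ a0 → ¬ ¬ a1 → (¬ ¬ b0 ∧ ¬ ¬ b1) → False)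
    (q8 : ¬ a1 → ¬ ¬ a0 → (¬ ¬ b0 ∧ ¬ ¬ b1) → False) :
    Even (b2n a0 + b2n a1 + b2n b0 + b2n b1) := by
  by_cases c1 : a0 <;> by_cases c2 : a1 <;> by_cases c3 : b0 <;> by_cases c4 : b1 <;>
    simp [c1, c2, c3, c4] at q1 q2 q3 q4 q5 q6 q7 q8 ⊢ <;> decide

theorem tight_recolour {W : Type} [Fintype W] (N : W → W → Prop) (κ : ℕ) (hκ : 2 ≤ κ)
    (M : Fin 2 → W → W → Prop) (hM : Mat N M) (hbal : ∀ w, outd N w = indg N w)
    (hdeg : ∀ w, outd N w + (b2n (nd (M 0) w) + b2n (nd (M 1) w)) +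
      (b2n (nr (M 0) w) + b2n (nr (M 1) w)) ≤ κ + 2)
    (hx : ∀ i, cnt (nd (M i)) = κ) :
    ∃ M' : Fin 2 → W → W → Prop, Mat N M' ∧
      (∀ u v, (∃ i, M' i u v) ↔ ∃ i, M i u v) ∧ (∀ i, cnt (nd (M' i)) = κ) ∧
      (∀ w, b2n (nd (M' 0) w) + b2n (nd (M' 1) w) = b2n (nd (M 0) w) + b2n (nd (M 1) w)) ∧
      (∀ w, b2n (nr (M' 0) w) + b2n (nr (M' 1) w) = b2n (nr (M 0) w) + b2n (nr (M 1) w)) ∧
      ∀ A B : W ⊕ Fin 2 → Prop, Closed (NN N M' (fun _ _ => False)) κ A B →
        Even (b2n (A (.inr 0)) + b2n (A (.inr 1)) + b2n (B (.inr 0)) + b2n (B (.inr 1))) := by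
  classical
  let P : W → W → Prop := fun u v => N u v ∧ ∀ i, ¬ M i u v
  let b : W → ℕ := fun w => b2n (nr (M 0) w) + b2n (nr (M 1) w)
  let a : W → ℕ := fun w => b2n (nd (M 0) w) + b2n (nd (M 1) w)
  let D : W → ℕ := fun u => outd P u + b u
  have hNP : ∀ u v, b2n (N u v) = b2n (P u v) + b2n (∃ i, M i u v) := by
    intro u v
    rw [← b2n_or]
    · apply b2n_congr
      constructor
      · intro h
        by_cases h' : ∃ i, M i u v
        · exact Or.inr h'
        · push Not at h'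
          exact Or.inl ⟨h, h'⟩
      · rintro (h | ⟨i, h⟩)
        · exact h.1
        · exact hM.sub i u v h
    · rintro ⟨h, i, h'⟩
      exact h.2 i h'
  have ho : ∀ u, outd N u = outd P u + outd (fun u v => ∃ i, M i u v) u := by
    intro u
    unfold outd cnt
    rw [← Finset.sum_add_distrib]
    exact Finset.sum_congr rfl (fun v _ => hNP u v)
  have hi : ∀ v, indg N v = indg P v + indg (fun u v => ∃ i, M i u v) v := by
    intro v
    unfold indg cnt
    rw [← Finset.sum_add_distrib]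
    exact Finset.sum_congr rfl (fun u _ => hNP u v)
  have h1 : ∀ u, outd P u + b u = D u := fun u => rfl
  have h2 : ∀ v, indg P v + a v = D v := by
    intro v
    have e1 := ho v
    have e2 := hi v
    have e3 := hbal v
    have e4 := tr_outF hM v
    have e5 := tr_inF hM v
    show indg P v + (b2n (nd (M 0) v) + b2n (nd (M 1) v)) =
      outd P v + (b2n (nr (M 0) v) + b2n (nr (M 1) v))
    omega
  have h3 : ∀ w, D w ≤ κ := by
    intro v
    have e1 := ho v
    have e4 := tr_outF hM v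
    have e5 := hdeg v
    show outd P v + (b2n (nr (M 0) v) + b2n (nr (M 1) v)) ≤ κ
    omega
  have ha2 : ∀ w, a w ≤ 2 := by
    intro w
    have e1 := b2n_le_one (nd (M 0) w)
    have e2 := b2n_le_one (nd (M 1) w)
    show b2n (nd (M 0) w) + b2n (nd (M 1) w) ≤ 2
    omega
  have hb2 : ∀ w, b w ≤ 2 := by
    intro w
    have e1 := b2n_le_one (nr (M 0) w)
    have e2 := b2n_le_one (nr (M 1) w)
    show b2n (nr (M 0) w) + b2n (nr (M 1) w) ≤ 2
    omega
  have hnr : ∀ i, cnt (nr (M i)) = κ := by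
    intro i
    rw [← cnt_nd_eq_nr (M i) (hM.func i) (hM.inj i), hx i]
  have hsa : ∑ w, a w = 2 * κ := by
    have : ∑ w, a w = cnt (nd (M 0)) + cnt (nd (M 1)) := by
      unfold cnt
      rw [← Finset.sum_add_distrib]
    rw [this, hx 0, hx 1]
    ring
  have hsb : ∑ w, b w = 2 * κ := by
    have : ∑ w, b w = cnt (nr (M 0)) + cnt (nr (M 1)) := by
      unfold cnt
      rw [← Finset.sum_add_distrib]
    rw [this, hnr 0, hnr 1]
    ring
  have hpair : ∀ (g : W → ℕ), (∀ w, g w ≤ 2) → ∑ w, g w = 2 * κ → ∀ Q : W → W → Prop,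
      ∃ τ : W → W, (∀ x, g x = 1 → g (τ x) = 1 ∧ τ (τ x) = x ∧ τ x ≠ x) ∧
        ∀ x y, g x = 1 → g y = 1 → x ≠ y →
          Relation.EqvGen (trJ Q D κ) (.inl x) (.inl y) → ∃ z, g z = 1 ∧
            Relation.EqvGen (trJ Q D κ) (.inl x) (.inl z) ∧
            Relation.EqvGen (trJ Q D κ) (.inl z) (.inl (τ z)) := by
    intro g hg hs Q
    obtain ⟨n, hn⟩ := tr_even g hg κ hs
    rw [cnt_eq_card] at hn
    obtain ⟨τ, ht1, ht2⟩ := tr_pair
      (fun x y => Relation.EqvGen (trJ Q D κ) (.inl x) (.inl y))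
      ⟨fun x => Relation.EqvGen.refl _, fun h => Relation.EqvGen.symm _ _ h,
        fun h h' => Relation.EqvGen.trans _ _ _ h h'⟩ n _ hn
    refine ⟨τ, ?_, ?_⟩
    · intro x hx
      obtain ⟨e1, e2, e3⟩ := ht1 x (Finset.mem_filter.mpr ⟨mem_univ _, hx⟩)
      exact ⟨(Finset.mem_filter.mp e1).2, e2, e3⟩
    · intro x y hx hy hne h
      obtain ⟨z, e1, e2, e3⟩ := ht2 x (Finset.mem_filter.mpr ⟨mem_univ _, hx⟩) y
        (Finset.mem_filter.mpr ⟨mem_univ _, hy⟩) hne h
      exact ⟨z, (Finset.mem_filter.mp e1).2, e2, e3⟩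
  obtain ⟨τA, hA1, hA2⟩ := hpair b hb2 hsb P
  obtain ⟨τB, hB1, hB2⟩ := hpair a ha2 hsa (fun u v => P v u)
  obtain ⟨M', hM', hF, hc, ha, hb, hsA, hsB⟩ := tr_recol hM κ hx τA τB hA1 hB1
  refine ⟨M', hM', hF, hc, ha, hb, ?_⟩
  have hP' : ∀ u v, P u v ↔ (N u v ∧ ∀ i, ¬ M' i u v) := by
    intro u v
    have h4 := hF u v
    constructor
    · rintro ⟨h5, h6⟩
      refine ⟨h5, fun i hi => ?_⟩
      obtain ⟨j, hj⟩ := h4.mp ⟨i, hi⟩
      exact h6 j hj
    · rintro ⟨h5, h6⟩
      refine ⟨h5, fun i hi => ?_⟩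
      obtain ⟨j, hj⟩ := h4.mpr ⟨i, hi⟩
      exact h6 j hj
  have hnr' : ∀ i, cnt (nr (M' i)) = κ := by
    intro i
    rw [← cnt_nd_eq_nr (M' i) (hM'.func i) (hM'.inj i), hc i]
  have hDN : ∀ w, outd (NN N M' (fun _ _ => False)) (.inl w) = D w := by
    intro w
    unfold outd
    rw [cnt_sum]
    have e1 : cnt (fun v => NN N M' (fun _ _ => False) (.inl w) (.inl v)) = outd P w :=
      cnt_congr (fun v => (hP' w v).symm)
    have e2 : cnt (fun i => NN N M' (fun _ _ => False) (.inl w) (.inr i)) = b w := by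
      show ∑ i : Fin 2, b2n (nr (M' i) w) = b w
      rw [Fin.sum_univ_two]
      exact hb w
    rw [e1, e2]
  -- the two impossible situations
  have main : ∀ A B : W ⊕ Fin 2 → Prop, Closed (NN N M' (fun _ _ => False)) κ A B →
      (∀ i, B (.inr i) → (∀ j, j ≠ i → ¬ B (.inr j)) → (∀ j, ¬ A (.inr j)) → False) ∧
      (∀ i, A (.inr i) → (∀ j, j ≠ i → ¬ A (.inr j)) → (∀ j, ¬ B (.inr j)) → False) := by
    intro A B hAB
    have hP : ∀ u v, P u v → (A (.inl u) ↔ B (.inl v)) :=
      fun u v h => hAB.1 (.inl u) (.inl v) ((hP' u v).mp h)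
    have hr : ∀ i w, nr (M' i) w → (A (.inl w) ↔ B (.inr i)) :=
      fun i w h => hAB.1 (.inl w) (.inr i) h
    have hd : ∀ i w, nd (M' i) w → (A (.inr i) ↔ B (.inl w)) :=
      fun i w h => hAB.1 (.inr i) (.inl w) h
    have hD : ∀ w, D w < κ → (A (.inl w) ↔ B (.inl w)) := by
      intro w hw
      apply hAB.2 (.inl w)
      rw [hDN w]
      exact hw
    constructor
    · intro i h4 h5 h6
      refine tr_claim P D κ hκ M' (fun u => by rw [hb u]) (fun v => by rw [ha v]; exact h2 v) h3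
        τA ?_ hnr' ?_ A B hP hr hd hD i h4 h5 h6
      · intro x y hx hy hne h
        rw [hb x] at hx
        rw [hb y] at hy
        obtain ⟨z, e1, e2, e3⟩ := hA2 x y hx hy hne h
        refine ⟨z, ?_, e2, e3⟩
        rw [hb z]
        exact e1
      · intro i x hx
        rw [hb x] at hx
        rw [hb (τA x)]
        exact ⟨(hA1 x hx).1, hsA i x hx⟩
    · intro i h4 h5 h6
      refine tr_claim (fun u v => P v u) D κ hκ (fun i u v => M' i v u)
        (fun u => by
          have := ha u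
          have e2 := h2 u
          show indg P u + (b2n (nd (M' 0) u) + b2n (nd (M' 1) u)) = D u
          rw [this]
          exact e2)
        (fun v => by
          have := hb v
          show outd P v + (b2n (nr (M' 0) v) + b2n (nr (M' 1) v)) = D v
          rw [this]) h3
        τB ?_ hc ?_ B A (fun u v h => (hP v u h).symm) (fun i w h => (hd i w h).symm)
        (fun i w h => (hr i w h).symm) (fun w h => (hD w h).symm) i h4 h5 h6
      · intro x y hx hy hne h
        have hx' : b2n (nd (M' 0) x) + b2n (nd (M' 1) x) = 1 := hx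
        have hy' : b2n (nd (M' 0) y) + b2n (nd (M' 1) y) = 1 := hy
        rw [ha x] at hx'
        rw [ha y] at hy'
        obtain ⟨z, e1, e2, e3⟩ := hB2 x y hx' hy' hne h
        refine ⟨z, ?_, e2, e3⟩
        show b2n (nd (M' 0) z) + b2n (nd (M' 1) z) = 1
        rw [ha z]
        exact e1
      · intro i x hx
        have hx' : b2n (nd (M' 0) x) + b2n (nd (M' 1) x) = 1 := hx
        rw [ha x] at hx'
        refine ⟨?_, hsB i x hx'⟩
        show b2n (nd (M' 0) (τB x)) + b2n (nd (M' 1) (τB x)) = 1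
        rw [ha (τB x)]
        exact (hB1 x hx').1
  intro A B hAB
  obtain ⟨m1, m2⟩ := main A B hAB
  obtain ⟨m3, m4⟩ := main _ _ (closed_compl hAB)
  have f2 : ∀ (i : Fin 2) (p : Fin 2 → Prop), (∀ j, j ≠ i → p j) ↔ p (i + 1) := by
    intro i p
    constructor
    · intro h
      exact h (i + 1) (by omega)
    · intro h j hj
      have : j = i + 1 := by omega
      rw [this]
      exact h
  have f3 : ∀ (p : Fin 2 → Prop), (∀ j, p j) ↔ p 0 ∧ p 1 := fun p => Fin.forall_fin_two
  have e1 : (0 : Fin 2) + 1 = 1 := rfl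
  have e2 : (1 : Fin 2) + 1 = 0 := rfl
  have q1 := m1 0
  have q2 := m1 1
  have q3 := m2 0
  have q4 := m2 1
  have q5 := m3 0
  have q6 := m3 1
  have q7 := m4 0
  have q8 := m4 1
  rw [f2 0 (fun j => ¬ B (.inr j)), f3 (fun j => ¬ A (.inr j)), e1] at q1
  rw [f2 1 (fun j => ¬ B (.inr j)), f3 (fun j => ¬ A (.inr j)), e2] at q2
  rw [f2 0 (fun j => ¬ A (.inr j)), f3 (fun j => ¬ B (.inr j)), e1] at q3
  rw [f2 1 (fun j => ¬ A (.inr j)), f3 (fun j => ¬ B (.inr j)), e2] at q4
  rw [f2 0 (fun j => ¬ ¬ B (.inr j)), f3 (fun j => ¬ ¬ A (.inr j)), e1] at q5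
  rw [f2 1 (fun j => ¬ ¬ B (.inr j)), f3 (fun j => ¬ ¬ A (.inr j)), e2] at q6
  rw [f2 0 (fun j => ¬ ¬ A (.inr j)), f3 (fun j => ¬ ¬ B (.inr j)), e1] at q7
  rw [f2 1 (fun j => ¬ ¬ A (.inr j)), f3 (fun j => ¬ ¬ B (.inr j)), e2] at q8
  exact tr_parity _ _ _ _ q1 q2 q3 q4 q5 q6 q7 q8

end Pool.Agent.Helper40.SSQ
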