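import Mathlib
import Pool.Agent.Helper40.SSQ.Defs
import Pool.Agent.Helper40.SSQ.Split
import Pool.Agent.Helper40.SSQ.Equit
import Pool.Agent.Helper4.SSQ.Base
import Pool.Agent.Helper40.SSQ.Lift
import Pool.Agent.Helper40.SSQ.Deg
import Pool.Agent.Helper40.SSQ.Tight

set_option autoImplicit false

namespace Pool.Agent.Helper40.SSQ

open Finset

theorem cnt_fin2 (p : Fin 2 → Prop) : cnt p = b2n (p 0) + b2n (p 1) := by
  unfold cnt; rw [Fin.sum_univ_two]

theorem cnt_eq_sum_b2n {W : Type} [Fintype W] (p : W → Prop) : ∑ w, b2n (p w) = cnt p := rfl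

/-- the deficiency of `NN` -/
theorem defic_NN {W : Type} [Fintype W] (N : W → W → Prop) (M : Fin 2 → W → W → Prop)
    (RB : Fin 2 → Fin 2 → Prop) (k : ℕ) (hk : 2 ≤ k) (hM : Mat N M)
    (hdeg : ∀ w, outd N w + (b2n (nd (M 0) w) + b2n (nd (M 1) w)) +
      (b2n (nr (M 0) w) + b2n (nr (M 1) w)) ≤ k)
    (hb : ∀ i, cnt (nd (M i)) + cnt (fun j => RB i j) ≤ k - 2) :
    ∑ x, (k - 2 - outd (NN N M RB) x) + 3 * (cnt (nd (M 0)) + cnt (nd (M 1))) +
      (cnt (fun j => RB 0 j) + cnt (fun j => RB 1 j)) =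
      ∑ w, (k - outd N w) + 2 * (k - 2) := by
  rw [Fintype.sum_sum_type, Fin.sum_univ_two, outd_NN_inr, outd_NN_inr]
  have h1 : ∑ w, (k - outd N w) = ∑ w, (k - 2 - outd (NN N M RB) (.inl w)) +
      ((cnt (nd (M 0)) + cnt (nd (M 1))) + (cnt (nr (M 0)) + cnt (nr (M 1)))) := by
    unfold cnt
    rw [← Finset.sum_add_distrib, ← Finset.sum_add_distrib, ← Finset.sum_add_distrib,
      ← Finset.sum_add_distrib]
    apply Finset.sum_congr rfl
    intro w _
    have h2 := outd_NN_inl N M RB hM w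
    have h3 := hdeg w
    omega
  have e0 := cnt_nd_eq_nr (M 0) (hM.func 0) (hM.inj 0)
  have e1 := cnt_nd_eq_nr (M 1) (hM.func 1) (hM.inj 1)
  have b0 := hb 0
  have b1 := hb 1
  omega

theorem apply_step {W : Type} [Fintype W] (d : ℕ) (hd : 1 ≤ d)
    (ih : ∀ (W : Type) [Fintype W] (N : W → W → Prop) (f : W × W),
      N f.1 f.2 → (∀ w, outd N w = indg N w) → (∀ w, outd N w ≤ 2 * d) →
      (∑ w, (2 * d - outd N w) ≤ 2 * d * (2 * d - 2)) →
      (∀ A B : W → Prop, Closed N (2 * d) A B → Even (sumOn A (fun w => 2 * d - outd N w))) →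
      Compl N (Fin (2 * d)) f)
    (N : W → W → Prop) (f : W × W) (hf : N f.1 f.2)
    (hbal : ∀ w, outd N w = indg N w)
    (M : Fin 2 → W → W → Prop) (hM : Mat N M) (hMf : ∀ i, ¬ M i f.1 f.2)
    (hdeg : ∀ w, outd N w + (b2n (nd (M 0) w) + b2n (nd (M 1) w)) +
      (b2n (nr (M 0) w) + b2n (nr (M 1) w)) ≤ 2 * (d + 1))
    (RB : Fin 2 → Fin 2 → Prop) (PB : Fin 2 → Fin 2 → Fin 2 → Prop) (hPB : PSS PB)
    (hdom : ∀ i j, Dom PB i j ↔ ¬ RB i j)
    (hRB : ∀ i, cnt (fun j => RB i j) = cnt (fun j => RB j i))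
    (hb : ∀ i, cnt (nd (M i)) + cnt (fun j => RB i j) ≤ 2 * d)
    (hv : ∑ w, (2 * (d + 1) - outd N w) + 4 * d ≤ 2 * d * (2 * d - 2) +
      3 * (cnt (nd (M 0)) + cnt (nd (M 1))) +
      (cnt (fun j => RB 0 j) + cnt (fun j => RB 1 j)))
    (hpar : ∀ A B : W ⊕ Fin 2 → Prop, Closed (NN N M RB) (2 * d) A B →
      Even (sumOn A (fun x => 2 * d - outd (NN N M RB) x))) :
    Compl N (Fin (2 * (d + 1))) f := by
  have hk2 : 2 * (d + 1) - 2 = 2 * d := by omega
  have h1 := defic_NN N M RB (2 * (d + 1)) (by omega) hM hdeg (by rw [hk2]; exact hb)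
  rw [hk2] at h1
  have hc := ih (W ⊕ Fin 2) (NN N M RB) (Sum.inl f.1, Sum.inl f.2) ⟨hf, hMf⟩ (by
      rintro (w | i)
      · have h2 := outd_NN_inl N M RB hM w
        have h3 := indg_NN_inl N M RB hM w
        have h4 := hbal w
        omega
      · rw [outd_NN_inr, indg_NN_inr, cnt_nd_eq_nr (M i) (hM.func i) (hM.inj i), hRB]) (by
      rintro (w | i)
      · have h2 := outd_NN_inl N M RB hM w
        have h3 := hdeg w
        omega
      · rw [outd_NN_inr]; exact hb i) (by omega) hpar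
  have h2 := step_lift N M RB PB hPB hdom hM (Fin (2 * d)) f hc
  exact h2.equiv ((finSumFinEquiv).trans (finCongr (by omega)))

theorem pb_tight : PSS (fun i j l : Fin 2 => i + j + l = 0) ∧
    ∀ i j, Dom (fun i j l : Fin 2 => i + j + l = 0) i j ↔ ¬ (fun _ _ : Fin 2 => False) i j := by
  refine ⟨⟨by decide, by decide⟩, ?_⟩
  intro i j
  simp only [not_false_eq_true, iff_true]
  exact ⟨-(i + j), add_neg_cancel _⟩

theorem pb_digon : PSS (fun i j l : Fin 2 => i = j ∧ j = l) ∧
    ∀ i j, Dom (fun i j l : Fin 2 => i = j ∧ j = l) i j ↔ ¬ (fun i j : Fin 2 => i ≠ j) i j := by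
  refine ⟨⟨by decide, by decide⟩, ?_⟩
  intro i j
  simp only [ne_eq, not_not]
  constructor
  · rintro ⟨l, h, _⟩; exact h
  · intro h; exact ⟨j, h, rfl⟩

theorem pb_three : PSS (fun i j l : Fin 2 => i = 0 ∧ j = 0 ∧ l = 0) ∧
    ∀ i j, Dom (fun i j l : Fin 2 => i = 0 ∧ j = 0 ∧ l = 0) i j ↔
      ¬ (fun i j : Fin 2 => ¬ (i = 0 ∧ j = 0)) i j := by
  refine ⟨⟨by decide, by decide⟩, ?_⟩
  intro i j
  simp only [not_not]
  constructor
  · rintro ⟨l, h, h', _⟩; exact ⟨h, h'⟩
  · rintro ⟨h, h'⟩; exact ⟨0, h, h', rfl⟩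

theorem pb_one : PSS (fun i j l : Fin 2 => i.val + j.val + l.val = 1) ∧
    ∀ i j, Dom (fun i j l : Fin 2 => i.val + j.val + l.val = 1) i j ↔
      ¬ (fun i j : Fin 2 => i = 1 ∧ j = 1) i j := by
  refine ⟨⟨by decide, by decide⟩, ?_⟩
  unfold Dom
  decide

/-- step with two equal class sizes -/
theorem step_equal {W : Type} [Fintype W] (d : ℕ) (hd : 1 ≤ d)
    (ih : ∀ (W : Type) [Fintype W] (N : W → W → Prop) (f : W × W),
      N f.1 f.2 → (∀ w, outd N w = indg N w) → (∀ w, outd N w ≤ 2 * d) →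
      (∑ w, (2 * d - outd N w) ≤ 2 * d * (2 * d - 2)) →
      (∀ A B : W → Prop, Closed N (2 * d) A B → Even (sumOn A (fun w => 2 * d - outd N w))) →
      Compl N (Fin (2 * d)) f)
    (N N1 : W → W → Prop) (f : W × W) (hf : N f.1 f.2)
    (hbal : ∀ w, outd N w = indg N w) (hle : ∀ w, outd N w ≤ 2 * (d + 1))
    (hN1 : ∀ u v, N1 u v → N u v) (hN1f : ¬ N1 f.1 f.2)
    (hs : ∀ w, outd N1 w + indg N1 w = outd N w)
    (M : Fin 2 → W → W → Prop) (hM : Mat N1 M)
    (hdo : ∀ w, outd N1 w + (b2n (nd (M 0) w) + b2n (nd (M 1) w)) ≤ d + 1)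
    (hdi : ∀ w, indg N1 w + (b2n (nr (M 0) w) + b2n (nr (M 1) w)) ≤ d + 1)
    (x : ℕ) (hx : ∀ i, cnt (nd (M i)) = x) (hx2 : x ≤ 2 * d)
    (hvt : ∑ w, (2 * (d + 1) - outd N w) ≤ 2 * (d + 1) * (2 * d))
    (hvd : x + 1 ≤ 2 * d → ∑ w, (2 * (d + 1) - outd N w) + 4 * d ≤
      2 * d * (2 * d - 2) + 6 * x + 2) :
    Compl N (Fin (2 * (d + 1))) f := by
  have hMN : Mat N M := ⟨fun i u v h => hN1 _ _ (hM.sub i u v h), hM.func, hM.inj, hM.disj⟩
  have hk2 : 2 * (d + 1) - 2 = 2 * d := by omega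
  have hdeg : ∀ w, outd N w + (b2n (nd (M 0) w) + b2n (nd (M 1) w)) +
      (b2n (nr (M 0) w) + b2n (nr (M 1) w)) ≤ 2 * (d + 1) := by
    intro w
    have h1 := hs w
    have h2 := hdo w
    have h3 := hdi w
    omega
  by_cases hxd : x + 1 ≤ 2 * d
  · -- digon
    have hcr : ∀ i : Fin 2, cnt (fun j => (fun i j : Fin 2 => i ≠ j) i j) = 1 := by
      intro i
      fin_cases i <;> simp [cnt_fin2]
    have hcr' : ∀ i : Fin 2, cnt (fun j => (fun i j : Fin 2 => i ≠ j) j i) = 1 := by
      intro i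
      fin_cases i <;> simp [cnt_fin2]
    apply apply_step d hd ih N f hf hbal M hMN (fun i h => hN1f (hM.sub i _ _ h)) hdeg
      (fun i j => i ≠ j) _ pb_digon.1 pb_digon.2
    · intro i; rw [hcr, hcr']
    · intro i; rw [hcr, hx]; exact hxd
    · rw [hx, hx, hcr, hcr]
      have := hvd hxd
      omega
    · intro A B hcl
      have hp := parity_formula N N1 M (fun i j => i ≠ j) (d + 1) (by omega) hbal hle hN1 hs hM
        hdo hdi (by intro i; rw [hcr, hcr']) (by intro i; rw [hcr, hx, hk2]; exact hxd) A B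
        (by rw [hk2]; exact hcl)
      rw [hk2, hcr, hcr, hx, hx] at hp
      have c1 : A (.inr 0) ↔ B (.inr 1) := hcl.1 (.inr 0) (.inr 1) (by simp [NN])
      have c2 : A (.inr 1) ↔ B (.inr 0) := hcl.1 (.inr 1) (.inr 0) (by simp [NN])
      rw [← b2n_congr c1, ← b2n_congr c2] at hp
      have c3 : x + 1 < 2 * d → (A (.inr 0) ↔ A (.inr 1)) := by
        intro hlt
        rw [c2]
        apply hcl.2
        rw [outd_NN_inr, hcr, hx]
        exact hlt
      rcases Nat.lt_or_ge (x + 1) (2 * d) with hlt | hge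
      · rw [b2n_congr (c3 hlt)] at hp
        have e : b2n (A (.inr 1)) * (d + 1 + 1) + b2n (A (.inr 1)) * (d + 1 + x) +
            (b2n (A (.inr 1)) * (d + 1 + 1) + b2n (A (.inr 1)) * (d + 1 + x)) =
            2 * (b2n (A (.inr 1)) * (d + 1 + 1) + b2n (A (.inr 1)) * (d + 1 + x)) := by ring
        rw [e] at hp
        exact (Nat.even_add.1 hp).2 (even_two_mul _)
      · have hx1 : x + 1 = 2 * d := le_antisymm hxd hge
        have e : b2n (A (.inr 0)) * (d + 1 + 1) + b2n (A (.inr 1)) * (d + 1 + x) +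
            (b2n (A (.inr 1)) * (d + 1 + 1) + b2n (A (.inr 0)) * (d + 1 + x)) =
            2 * ((b2n (A (.inr 0)) + b2n (A (.inr 1))) * (2 * d + 1)) := by
          have : d + 1 + x = 3 * d := by omega
          rw [this]; ring
        rw [e] at hp
        exact (Nat.even_add.1 hp).2 (even_two_mul _)
  · -- tight
    have hx3 : x = 2 * d := by omega
    subst hx3
    obtain ⟨M', hM', hun, hx', hnd, hnr, hpar⟩ := tight_recolour N (2 * d) (by omega) M hMN hbal
      (by intro w; have := hdeg w; omega) hx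
    have hM1 : Mat N1 M' := by
      refine ⟨?_, hM'.func, hM'.inj, hM'.disj⟩
      intro i u v h
      obtain ⟨j, hj⟩ := (hun u v).1 ⟨i, h⟩
      exact hM.sub j u v hj
    have hcr : ∀ i : Fin 2, cnt (fun j => (fun _ _ : Fin 2 => False) i j) = 0 := by
      intro i; exact cnt_false
    have hcr' : ∀ i : Fin 2, cnt (fun j => (fun _ _ : Fin 2 => False) j i) = 0 := by
      intro i; exact cnt_false
    apply apply_step d hd ih N f hf hbal M' hM' (fun i h => hN1f (hM1.sub i _ _ h)) (by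
        intro w; rw [hnd, hnr]; exact hdeg w) (fun _ _ => False) _ pb_tight.1 pb_tight.2
    · intro i; rfl
    · intro i; rw [hcr i, hx', add_zero]
    · rw [hx', hx', hcr 0]
      have e : 2 * (d + 1) * (2 * d) + 4 * d = 2 * d * (2 * d - 2) + 12 * d := by
        obtain ⟨e, rfl⟩ : ∃ e, d = e + 1 := ⟨d - 1, by omega⟩
        have : 2 * (e + 1) - 2 = 2 * e := by omega
        rw [this]; ring
      omega
    · intro A B hcl
      have hp := parity_formula N N1 M' (fun _ _ => False) (d + 1) (by omega) hbal hle hN1 hs hM1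
        (by intro w; rw [hnd]; exact hdo w) (by intro w; rw [hnr]; exact hdi w)
        (by intro i; rfl) (by intro i; rw [hcr i, hx', hk2, add_zero]) A B
        (by rw [hk2]; exact hcl)
      rw [hk2, hcr 0, hx', hx'] at hp
      obtain ⟨t, ht⟩ := hpar A B hcl
      have e : b2n (A (.inr 0)) * (d + 1 + 0) + b2n (B (.inr 0)) * (d + 1 + 2 * d) +
            (b2n (A (.inr 1)) * (d + 1 + 0) + b2n (B (.inr 1)) * (d + 1 + 2 * d)) =
          (b2n (A (.inr 0)) + b2n (A (.inr 1)) + b2n (B (.inr 0)) + b2n (B (.inr 1))) * (d + 1) +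
            2 * ((b2n (B (.inr 0)) + b2n (B (.inr 1))) * d) := by ring
      rw [e, ht] at hp
      have e2 : (t + t) * (d + 1) + 2 * ((b2n (B (.inr 0)) + b2n (B (.inr 1))) * d) =
          2 * (t * (d + 1) + (b2n (B (.inr 0)) + b2n (B (.inr 1))) * d) := by ring
      rw [e2] at hp
      exact (Nat.even_add.1 hp).2 (even_two_mul _)

theorem sumOn_le {W : Type} [Fintype W] (A : W → Prop) (g : W → ℕ) : sumOn A g ≤ ∑ w, g w := by
  unfold sumOn
  apply Finset.sum_le_sum
  intro w _
  calc b2n (A w) * g w ≤ 1 * g w := Nat.mul_le_mul_right _ (b2n_le_one _)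
    _ = g w := one_mul _

/-- `k = 4`, class sizes `x + 1` and `x`. -/
theorem step_special {W : Type} [Fintype W]
    (ih : ∀ (W : Type) [Fintype W] (N : W → W → Prop) (f : W × W),
      N f.1 f.2 → (∀ w, outd N w = indg N w) → (∀ w, outd N w ≤ 2 * 1) →
      (∑ w, (2 * 1 - outd N w) ≤ 2 * 1 * (2 * 1 - 2)) →
      (∀ A B : W → Prop, Closed N (2 * 1) A B → Even (sumOn A (fun w => 2 * 1 - outd N w))) →
      Compl N (Fin (2 * 1)) f)
    (N N1 : W → W → Prop) (f : W × W) (hf : N f.1 f.2)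
    (hbal : ∀ w, outd N w = indg N w)
    (hN1 : ∀ u v, N1 u v → N u v) (hN1f : ¬ N1 f.1 f.2)
    (hs : ∀ w, outd N1 w + indg N1 w = outd N w)
    (M : Fin 2 → W → W → Prop) (hM : Mat N1 M)
    (hdo : ∀ w, outd N1 w + (b2n (nd (M 0) w) + b2n (nd (M 1) w)) ≤ 1 + 1)
    (hdi : ∀ w, indg N1 w + (b2n (nr (M 0) w) + b2n (nr (M 1) w)) ≤ 1 + 1)
    (x : ℕ) (hx : cnt (nd (M 0)) = x + 1) (hx' : cnt (nd (M 1)) = x) (hx2 : x ≤ 1)
    (hv : ∑ w, (2 * (1 + 1) - outd N w) = 4 * x + 2) :
    Compl N (Fin (2 * (1 + 1))) f := by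
  have hMN : Mat N M := ⟨fun i u v h => hN1 _ _ (hM.sub i u v h), hM.func, hM.inj, hM.disj⟩
  have hdeg : ∀ w, outd N w + (b2n (nd (M 0) w) + b2n (nd (M 1) w)) +
      (b2n (nr (M 0) w) + b2n (nr (M 1) w)) ≤ 2 * (1 + 1) := by
    intro w
    have h1 := hs w
    have h2 := hdo w
    have h3 := hdi w
    omega
  have fin : ∀ (RB : Fin 2 → Fin 2 → Prop) (PB : Fin 2 → Fin 2 → Fin 2 → Prop), PSS PB →
      (∀ i j, Dom PB i j ↔ ¬ RB i j) →
      (∀ i, cnt (fun j => RB i j) = cnt (fun j => RB j i)) →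
      (cnt (fun j => RB 0 j) + (x + 1) = 2) → (cnt (fun j => RB 1 j) + x = 2) →
      Compl N (Fin (2 * (1 + 1))) f := by
    intro RB PB hPB hdom hRB h0 h1
    have hb : ∀ i, cnt (nd (M i)) + cnt (fun j => RB i j) ≤ 2 := by
      intro i
      fin_cases i
      · simp only [Fin.zero_eta, Fin.isValue, hx]; omega
      · simp only [Fin.mk_one, Fin.isValue, hx']; omega
    apply apply_step 1 le_rfl ih N f hf hbal M hMN (fun i h => hN1f (hM.sub i _ _ h)) hdeg RB PB hPB
      hdom hRB hb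
    · rw [hx, hx', hv]; omega
    · intro A B _
      have h2 := defic_NN N M RB 4 (by omega) hMN hdeg hb
      rw [hx, hx'] at h2
      have h3 : ∑ w, (4 - outd N w) = 4 * x + 2 := hv
      have h4 := sumOn_le A (fun x => 2 * 1 - outd (NN N M RB) x)
      have h5 : ∑ x, (4 - 2 - outd (NN N M RB) x) = ∑ x, (2 * 1 - outd (NN N M RB) x) := rfl
      have h6 : sumOn A (fun x => 2 * 1 - outd (NN N M RB) x) = 0 := by omega
      rw [h6]
      exact Even.zero
  interval_cases x
  · apply fin _ _ pb_three.1 pb_three.2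
    · intro i; fin_cases i <;> simp [cnt_fin2]
    · simp [cnt_fin2]
    · simp [cnt_fin2]
  · apply fin _ _ pb_one.1 pb_one.2
    · intro i; fin_cases i <;> simp [cnt_fin2]
    · simp [cnt_fin2]
    · simp [cnt_fin2]

theorem outd_add_missing {W : Type} [Fintype W] (N1 : W → W → Prop) (d : ℕ)
    (M : Fin d → W → W → Prop) (hcov : ∀ u v, N1 u v ↔ ∃ i, M i u v)
    (hdis : ∀ i j u v, M i u v → M j u v → i = j)
    (hfun : ∀ i u v v', M i u v → M i u v' → v = v') (w : W) :
    outd N1 w + ∑ i, b2n (nd (M i) w) = d := by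
  have h1 : outd N1 w = ∑ i, cnt (fun v => M i w v) := by
    unfold outd cnt
    rw [Finset.sum_comm]
    apply Finset.sum_congr rfl
    intro v _
    by_cases h : N1 w v
    · obtain ⟨i, hi⟩ := (hcov w v).1 h
      rw [b2n_pos h, Finset.sum_eq_single i, b2n_pos hi]
      · intro j _ hj
        apply b2n_neg
        intro hj'
        exact hj (hdis _ _ _ _ hj' hi)
      · intro h; exact absurd (Finset.mem_univ _) h
    · rw [b2n_neg h]
      symm
      apply Finset.sum_eq_zero
      intro i _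
      apply b2n_neg
      intro hi
      exact h ((hcov w v).2 ⟨i, hi⟩)
  rw [h1, ← Finset.sum_add_distrib]
  have h2 : ∀ i : Fin d, cnt (fun v => M i w v) + b2n (nd (M i) w) = 1 := by
    intro i
    by_cases h : nd (M i) w
    · rw [b2n_pos h, cnt_eq_zero.2 h]
    · rw [b2n_neg h]
      unfold nd at h
      push Not at h
      rw [cnt_eq_one h (fun v v' => hfun i w v v')]
  rw [Finset.sum_congr rfl (fun i _ => h2 i)]
  simp

theorem two_le_sum {d : ℕ} (g : Fin d → ℕ) (i j : Fin d) (h : i ≠ j) : g i + g j ≤ ∑ l, g l := by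
  rw [← Finset.sum_pair h]
  exact Finset.sum_le_sum_of_subset (Finset.subset_univ _)

theorem eplus (d : ℕ) (hd : 1 ≤ d) : ∀ (W : Type) [Fintype W] (N : W → W → Prop) (f : W × W),
    N f.1 f.2 → (∀ w, outd N w = indg N w) → (∀ w, outd N w ≤ 2 * d) →
    (∑ w, (2 * d - outd N w) ≤ 2 * d * (2 * d - 2)) →
    (∀ A B : W → Prop, Closed N (2 * d) A B → Even (sumOn A (fun w => 2 * d - outd N w))) →
    Compl N (Fin (2 * d)) f := by
  have hbase : ∀ (d : ℕ), 1 ≤ d → ∀ (W : Type) [Fintype W] (N : W → W → Prop) (f : W × W),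
      N f.1 f.2 → (∀ w, outd N w = indg N w) → (∀ w, outd N w ≤ 2 * d) →
      ∑ w, (2 * d - outd N w) = 0 → Compl N (Fin (2 * d)) f := by
    intro d hd W _ N f hf hbal hle hv
    rw [Finset.sum_eq_zero_iff] at hv
    have h1 : ∀ w, outd N w = 2 * d := by
      intro w
      have h2 := hv w (Finset.mem_univ _)
      have h3 := hle w
      omega
    exact base N (2 * d) (by omega) h1 (fun w => by rw [← hbal, h1]) f hf
  induction d, hd using Nat.le_induction with
  | base =>
    intro W _ N f hf hbal hle hv _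
    exact hbase 1 le_rfl W N f hf hbal hle (by simpa using hv)
  | succ d hd ih =>
    intro W _ N f hf hbal hle hv hpar
    by_cases hv0 : ∑ w, (2 * (d + 1) - outd N w) = 0
    · exact hbase (d + 1) (by omega) W N f hf hbal hle hv0
    obtain ⟨N1, hN1, hN1f, hs, ho, hi⟩ := split (d + 1) N f hbal hle hpar
    obtain ⟨V, hV⟩ : ∃ V, V = ∑ w, (d + 1 - outd N1 w) := ⟨_, rfl⟩
    have hV2 : ∑ w, (2 * (d + 1) - outd N w) = 2 * V := by
      have e1 : ∑ w, (2 * (d + 1) - outd N w) =
          ∑ w, (d + 1 - outd N1 w) + ∑ w, (d + 1 - indg N1 w) := by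
        rw [← Finset.sum_add_distrib]
        apply Finset.sum_congr rfl
        intro w _
        have h1 := hs w
        have h2 := ho w
        have h3 := hi w
        omega
      have e2 : ∑ w, (d + 1 - outd N1 w) + ∑ w, outd N1 w =
          ∑ w, (d + 1 - indg N1 w) + ∑ w, indg N1 w := by
        rw [← Finset.sum_add_distrib, ← Finset.sum_add_distrib]
        apply Finset.sum_congr rfl
        intro w _
        have h2 := ho w
        have h3 := hi w
        omega
      rw [sum_outd_eq_sum_indg N1] at e2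
      omega
    obtain ⟨q, hq⟩ : ∃ q, q = V / (d + 1) := ⟨_, rfl⟩
    obtain ⟨r, hr⟩ : ∃ r, r = V % (d + 1) := ⟨_, rfl⟩
    have hqr : V = (d + 1) * q + r := by rw [hq, hr]; exact (Nat.div_add_mod _ _).symm
    have hrlt : r < d + 1 := by rw [hr]; exact Nat.mod_lt _ (by omega)
    obtain ⟨Mc, hcov, hdis, hfun, hinj, S, hS, hS1, hS2⟩ := equitable N1 (d + 1) q r hrlt ho hi
      (by rw [← hV, hqr])
    have hcovt : ∀ u v, (fun u v => N1 v u) u v ↔ ∃ i, (fun i u v => Mc i v u) i u v :=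
      fun u v => hcov v u
    have hmo : ∀ w, outd N1 w + ∑ i, b2n (nd (Mc i) w) = d + 1 :=
      outd_add_missing N1 (d + 1) Mc hcov hdis hfun
    have hmi : ∀ w, indg N1 w + ∑ i, b2n (nr (Mc i) w) = d + 1 := by
      intro w
      exact outd_add_missing (fun u v => N1 v u) (d + 1) (fun i u v => Mc i v u) hcovt
        (fun i j u v h h' => hdis _ _ _ _ h h') (fun i u v v' h h' => hinj _ _ _ _ h h') w
    -- the pair of classes
    have hpair : ∀ i j : Fin (d + 1), i ≠ j →
        Mat N1 ![Mc i, Mc j] ∧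
        (∀ w, outd N1 w + (b2n (nd ((![Mc i, Mc j] : Fin 2 → W → W → Prop) 0) w) +
          b2n (nd ((![Mc i, Mc j] : Fin 2 → W → W → Prop) 1) w)) ≤ d + 1) ∧
        (∀ w, indg N1 w + (b2n (nr ((![Mc i, Mc j] : Fin 2 → W → W → Prop) 0) w) +
          b2n (nr ((![Mc i, Mc j] : Fin 2 → W → W → Prop) 1) w)) ≤ d + 1) := by
      intro i j hij
      refine ⟨⟨?_, ?_, ?_, ?_⟩, ?_, ?_⟩
      · intro l u v h
        fin_cases l
        · exact (hcov u v).2 ⟨i, h⟩
        · exact (hcov u v).2 ⟨j, h⟩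
      · intro l u v v' h h'
        fin_cases l
        · exact hfun i _ _ _ h h'
        · exact hfun j _ _ _ h h'
      · intro l u v v' h h'
        fin_cases l
        · exact hinj i _ _ _ h h'
        · exact hinj j _ _ _ h h'
      · intro l l' u v h h'
        fin_cases l <;> fin_cases l'
        · rfl
        · exact absurd (hdis i j _ _ h h') hij
        · exact absurd (hdis i j _ _ h' h) hij
        · rfl
      · intro w
        have h1 := hmo w
        have h2 := two_le_sum (fun i => b2n (nd (Mc i) w)) i j hij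
        simp only [Matrix.cons_val_zero, Matrix.cons_val_one]
        omega
      · intro w
        have h1 := hmi w
        have h2 := two_le_sum (fun i => b2n (nr (Mc i) w)) i j hij
        simp only [Matrix.cons_val_zero, Matrix.cons_val_one]
        omega
    have hk : 2 * (d + 1) - 2 = 2 * d := by omega
    rw [hk] at hv
    have hVle : V ≤ (d + 1) * (2 * d) := by
      have : 2 * (d + 1) * (2 * d) = 2 * ((d + 1) * (2 * d)) := by ring
      omega
    -- equal sizes
    have heq : ∀ i j : Fin (d + 1), i ≠ j → ∀ x, cnt (nd (Mc i)) = x → cnt (nd (Mc j)) = x →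
        x ≤ 2 * d → (x + 1 ≤ 2 * d → V + 2 * d ≤ d * (2 * d - 2) + 3 * x + 1) →
        Compl N (Fin (2 * (d + 1))) f := by
      intro i j hij x hxi hxj hx2 hvd
      obtain ⟨p1, p2, p3⟩ := hpair i j hij
      apply step_equal d hd ih N N1 f hf hbal hle hN1 hN1f hs ![Mc i, Mc j] p1 p2 p3 x _ hx2 hv
      · intro hx3
        have := hvd hx3
        have e : 2 * d * (2 * d - 2) = 2 * (d * (2 * d - 2)) := by ring
        omega
      · intro l
        fin_cases l
        · exact hxi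
        · exact hxj
    rcases Nat.lt_or_ge d 2 with hd1 | hd2
    · -- d = 1
      obtain rfl : d = 1 := by omega
      interval_cases r
      · -- equal
        have hS0 : S = ∅ := Finset.card_eq_zero.1 hS
        apply heq 0 1 (by decide) q (hS2 0 (by simp [hS0])) (hS2 1 (by simp [hS0]))
        · omega
        · intro _; omega
      · obtain ⟨i0, hi0⟩ := Finset.card_eq_one.1 hS
        have hi01 : ∃ j : Fin (1 + 1), j ≠ i0 := by
          fin_cases i0
          · exact ⟨1, by decide⟩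
          · exact ⟨0, by decide⟩
        obtain ⟨j0, hj0⟩ := hi01
        obtain ⟨p1, p2, p3⟩ := hpair i0 j0 (Ne.symm hj0)
        apply step_special ih N N1 f hf hbal hN1 hN1f hs ![Mc i0, Mc j0] p1 p2 p3 q
        · exact hS1 i0 (by simp [hi0])
        · exact hS2 j0 (by simp [hi0, hj0])
        · omega
        · rw [hV2]; omega
    · -- d ≥ 2
      obtain ⟨e, rfl⟩ : ∃ e, d = e + 1 := ⟨d - 1, by omega⟩
      have hee : 2 * (e + 1) - 2 = 2 * e := by omega
      rw [hee] at heq
      rcases Nat.lt_or_ge r 2 with hr1 | hr2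
      · have hc : 1 < (Sᶜ).card := by
          rw [Finset.card_compl, hS, Fintype.card_fin]; omega
        obtain ⟨i, j, hi', hj', hij⟩ := Finset.one_lt_card_iff.1 hc
        rw [Finset.mem_compl] at hi' hj'
        apply heq i j hij q (hS2 i hi') (hS2 j hj')
        · by_contra hcon
          push Not at hcon
          have : (e + 1 + 1) * (2 * (e + 1) + 1) ≤ (e + 1 + 1) * q := Nat.mul_le_mul_left _ hcon
          have e3 : (e + 1 + 1) * (2 * (e + 1) + 1) = (e + 1 + 1) * (2 * (e + 1)) + (e + 1 + 1) := by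
            ring
          omega
        · intro hq1
          obtain ⟨g, rfl⟩ : ∃ g, e = g + 1 := ⟨e - 1, by omega⟩
          have h1 : g * q ≤ g * (2 * g + 3) := Nat.mul_le_mul_left _ (by omega)
          have e4 : (g + 1 + 1 + 1) * q = g * q + 3 * q := by ring
          have e5 : g * (2 * g + 3) = 2 * (g * g) + 3 * g := by ring
          have e6 : (g + 1 + 1) * (2 * (g + 1)) = 2 * (g * g) + 6 * g + 4 := by ring
          rw [hqr, e4, e6]
          rw [e5] at h1
          omega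
      · obtain ⟨i, j, hi', hj', hij⟩ := Finset.one_lt_card_iff.1 (show 1 < S.card by omega)
        have hq2 : q + 1 ≤ 2 * (e + 1) := by
          by_contra hcon
          push Not at hcon
          have : (e + 1 + 1) * (2 * (e + 1)) ≤ (e + 1 + 1) * q := Nat.mul_le_mul_left _ (by omega)
          omega
        apply heq i j hij (q + 1) (hS1 i hi') (hS1 j hj') hq2
        intro hq1
        obtain ⟨g, rfl⟩ : ∃ g, e = g + 1 := ⟨e - 1, by omega⟩
        have h1 : g * q ≤ g * (2 * g + 2) := Nat.mul_le_mul_left _ (by omega)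
        have e4 : (g + 1 + 1 + 1) * q = g * q + 3 * q := by ring
        have e5 : g * (2 * g + 2) = 2 * (g * g) + 2 * g := by ring
        have e6 : (g + 1 + 1) * (2 * (g + 1)) = 2 * (g * g) + 6 * g + 4 := by ring
        rw [hqr, e4, e6]
        rw [e5] at h1
        omega

end Pool.Agent.Helper40.SSQ
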