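import Mathlib
import Pool.Agent.Helper40.SSQ.Defs
import Pool.Agent.Helper40.SSQ.EPlus

set_option autoImplicit false

namespace Pool.Agent.Helper40.SSQ

open Finset

theorem good_even {X : Type} [Fintype X] (N : X → X → Prop) (d : ℕ) (hd : 1 ≤ d)
    (hne : ∃ x y, N x y) (hbal : ∀ w, outd N w = indg N w) (hle : ∀ w, outd N w ≤ 2 * d)
    (hv : ∑ w, (2 * d - outd N w) ≤ 2 * d * (2 * d - 2))
    (hpar : ∀ A B : X → Prop, Closed N (2 * d) A B →
      Even (sumOn A (fun w => 2 * d - outd N w))) : Good N (Fin (2 * d)) := by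
  obtain ⟨x, y, h⟩ := hne
  exact (eplus d hd X N (x, y) h hbal hle hv hpar).good

/-- the walk through `x, y, z` -/
def Walk {X : Type} (x y z : X) (a b c : X) : Prop :=
  (a = x ∧ b = y ∧ c = z) ∨ (a = y ∧ b = z ∧ c = x) ∨ (a = z ∧ b = x ∧ c = y)

theorem walk_pss {X : Type} (x y z : X) : PSS (Walk x y z) := by
  refine ⟨?_, ?_⟩
  · rintro a b c (⟨rfl, rfl, rfl⟩ | ⟨rfl, rfl, rfl⟩ | ⟨rfl, rfl, rfl⟩)
    · exact Or.inr (Or.inl ⟨rfl, rfl, rfl⟩)
    · exact Or.inr (Or.inr ⟨rfl, rfl, rfl⟩)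
    · exact Or.inl ⟨rfl, rfl, rfl⟩
  · rintro a b c c' (⟨rfl, rfl, rfl⟩ | ⟨rfl, rfl, rfl⟩ | ⟨rfl, rfl, rfl⟩)
      (⟨h1, h2, h3⟩ | ⟨h1, h2, h3⟩ | ⟨h1, h2, h3⟩) <;> simp_all

theorem walk_dom {X : Type} (x y z a b : X) :
    Dom (Walk x y z) a b ↔ (a = x ∧ b = y) ∨ (a = y ∧ b = z) ∨ (a = z ∧ b = x) := by
  constructor
  · rintro ⟨c, ⟨h1, h2, _⟩ | ⟨h1, h2, _⟩ | ⟨h1, h2, _⟩⟩
    · exact Or.inl ⟨h1, h2⟩
    · exact Or.inr (Or.inl ⟨h1, h2⟩)
    · exact Or.inr (Or.inr ⟨h1, h2⟩)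
  · rintro (⟨h1, h2⟩ | ⟨h1, h2⟩ | ⟨h1, h2⟩)
    · exact ⟨z, Or.inl ⟨h1, h2, rfl⟩⟩
    · exact ⟨x, Or.inr (Or.inl ⟨h1, h2, rfl⟩)⟩
    · exact ⟨y, Or.inr (Or.inr ⟨h1, h2, rfl⟩)⟩

/-- add the loop `(w, w)` -/
def addLoop {X : Type} (N : X → X → Prop) (w : X) (u v : X) : Prop := N u v ∨ (u = w ∧ v = w)

theorem outd_addLoop {X : Type} [Fintype X] (N : X → X → Prop) (w : X) (hw : ¬ N w w) (u : X) :
    outd (addLoop N w) u = outd N u + b2n (u = w) := by
  unfold outd addLoop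
  rw [cnt_or]
  · congr 1
    by_cases h : u = w
    · rw [b2n_pos h]
      apply cnt_eq_one ⟨w, h, rfl⟩
      rintro v v' ⟨_, h1⟩ ⟨_, h2⟩
      rw [h1, h2]
    · rw [b2n_neg h, cnt_eq_zero]
      rintro v ⟨h1, _⟩
      exact h h1
  · rintro v ⟨h1, h2, h3⟩
    subst h2 h3
    exact hw h1

theorem indg_addLoop {X : Type} [Fintype X] (N : X → X → Prop) (w : X) (hw : ¬ N w w) (u : X) :
    indg (addLoop N w) u = indg N u + b2n (u = w) := by
  unfold indg addLoop
  rw [cnt_or]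
  · congr 1
    by_cases h : u = w
    · rw [b2n_pos h]
      apply cnt_eq_one ⟨w, rfl, h⟩
      rintro v v' ⟨h1, _⟩ ⟨h2, _⟩
      rw [h1, h2]
    · rw [b2n_neg h, cnt_eq_zero]
      rintro v ⟨_, h1⟩
      exact h h1
  · rintro v ⟨h1, h2, h3⟩
    subst h2 h3
    exact hw h1

theorem Compl.drop_loop {X : Type} (N : X → X → Prop) (w : X) (hw : ¬ N w w) (C : Type)
    (h : Compl (addLoop N w) C (w, w)) : Good N C := by
  obtain ⟨T, hT, hdom, c, hc1, hc2⟩ := h
  simp only at hc1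
  have hc3 := hT.rot _ _ _ hc1
  have hc4 := hT.rot _ _ _ hc3
  let S : X ⊕ C → Prop := fun x => x = .inl w ∨ x = .inr c
  have hS : ∀ x y z, S x → S y → T x y z → S z := by
    rintro x y z (rfl | rfl) (rfl | rfl) h
    · exact Or.inr (hT.func _ _ _ _ h hc1)
    · exact Or.inl (hT.func _ _ _ _ h hc3)
    · exact Or.inl (hT.func _ _ _ _ h hc4)
    · exact Or.inr (hT.func _ _ _ _ h hc2)
  have hT1 : PSS (fun x y z => T x y z ∧ ¬ (S x ∧ S y)) := by
    refine ⟨?_, ?_⟩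
    · rintro x y z ⟨h1, h2⟩
      refine ⟨hT.rot _ _ _ h1, ?_⟩
      rintro ⟨h3, h4⟩
      exact h2 ⟨hS y z x h3 h4 (hT.rot _ _ _ h1), h3⟩
    · rintro x y z z' ⟨h1, _⟩ ⟨h2, _⟩
      exact hT.func _ _ _ _ h1 h2
  have hd1 : ∀ x y, Dom (fun x y z => T x y z ∧ ¬ (S x ∧ S y)) x y ↔
      (G C (addLoop N w) x y ∧ ¬ (S x ∧ S y)) := by
    intro x y
    rw [← hdom]
    constructor
    · rintro ⟨z, h1, h2⟩; exact ⟨⟨z, h1⟩, h2⟩
    · rintro ⟨⟨z, h1⟩, h2⟩; exact ⟨z, h1, h2⟩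
  have hdis : ∀ x y, Dom (fun x y z => T x y z ∧ ¬ (S x ∧ S y)) x y →
      ¬ Dom (Walk (Sum.inr c : X ⊕ C) (.inr c) (.inl w)) x y := by
    intro x y h1 h2
    rw [hd1] at h1
    rw [walk_dom] at h2
    apply h1.2
    rcases h2 with ⟨h3, h4⟩ | ⟨h3, h4⟩ | ⟨h3, h4⟩
    · exact ⟨Or.inr h3, Or.inr h4⟩
    · exact ⟨Or.inr h3, Or.inl h4⟩
    · exact ⟨Or.inl h3, Or.inr h4⟩
  refine ⟨_, hT1.union (walk_pss _ _ _) hdis, ?_⟩
  intro x y
  rw [Dom_union, hd1, walk_dom]
  rcases x with x | x <;> rcases y with y | y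
  · simp only [G, addLoop, S, Sum.inl.injEq, reduceCtorEq, or_false, false_and, and_false]
    constructor
    · rintro ⟨h1 | h1, h2⟩
      · exact h1
      · exact absurd h1 h2
    · intro h1
      refine ⟨Or.inl h1, ?_⟩
      rintro ⟨rfl, rfl⟩
      exact hw h1
  · simp only [G, S, Sum.inl.injEq, reduceCtorEq, or_false, false_or, false_and, and_false,
      true_and, Sum.inr.injEq, iff_true]
    tauto
  · simp only [G, S, Sum.inl.injEq, reduceCtorEq, or_false, false_or, false_and, and_false,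
      true_and, Sum.inr.injEq, iff_true]
    tauto
  · simp only [G, S, Sum.inl.injEq, reduceCtorEq, or_false, false_or, false_and, and_false,
      true_and, Sum.inr.injEq, iff_true]
    tauto

theorem good_odd {X : Type} [Fintype X] (N : X → X → Prop) (d : ℕ) (hd : 1 ≤ d) (w : X)
    (hww : ¬ N w w) (hw : outd N w < 2 * d) (hbal : ∀ w, outd N w = indg N w)
    (hle : ∀ w, outd N w ≤ 2 * d)
    (hv : ∑ w, (2 * d - outd N w) ≤ 2 * d * (2 * d - 2) + 1)
    (hpar : ∀ A B : X → Prop, Closed N (2 * d) A B →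
      Even (sumOn A (fun w => 2 * d - outd N w) + b2n (A w))) : Good N (Fin (2 * d)) := by
  apply Compl.drop_loop N w hww
  have hb1 : ∑ u : X, b2n (u = w) = 1 := by
    have : cnt (fun u : X => u = w) = 1 := cnt_eq_one ⟨w, rfl⟩ (fun a b h h' => by rw [h, h'])
    exact this
  have hsub : ∀ u, 2 * d - outd (addLoop N w) u + b2n (u = w) = 2 * d - outd N u := by
    intro u
    rw [outd_addLoop N w hww]
    by_cases h : u = w
    · subst h
      have := b2n_pos (rfl : u = u)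
      omega
    · rw [b2n_neg h]; rfl
  apply eplus d hd
  · exact Or.inr ⟨rfl, rfl⟩
  · intro u
    rw [outd_addLoop N w hww, indg_addLoop N w hww, hbal]
  · intro u
    rw [outd_addLoop N w hww]
    by_cases h : u = w
    · subst h
      have := b2n_le_one (u = u)
      omega
    · rw [b2n_neg h]; exact hle u
  · have : ∑ u, (2 * d - outd (addLoop N w) u) + 1 = ∑ u, (2 * d - outd N u) := by
      rw [← hb1, ← Finset.sum_add_distrib]
      exact Finset.sum_congr rfl (fun u _ => hsub u)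
    omega
  · intro A B hcl
    have hcl' : Closed N (2 * d) A B := by
      refine ⟨fun u v h => hcl.1 u v (Or.inl h), ?_⟩
      intro u hu
      by_cases h : u = w
      · subst h; exact hcl.1 u u (Or.inr ⟨rfl, rfl⟩)
      · apply hcl.2
        rw [outd_addLoop N w hww, b2n_neg h]
        exact hu
    have h1 := hpar A B hcl'
    have h2 : sumOn A (fun u => 2 * d - outd N u) =
        sumOn A (fun u => 2 * d - outd (addLoop N w) u) + b2n (A w) := by
      have h3 : sumOn A (fun u => b2n (u = w)) = b2n (A w) := by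
        unfold sumOn
        rw [Finset.sum_eq_single w]
        · simp
        · intro u _ hu
          simp [hu]
        · intro h; exact absurd (Finset.mem_univ _) h
      rw [← h3, ← sumOn_add]
      exact sumOn_congr (fun _ => Iff.rfl) (fun u _ => (hsub u).symm)
    rw [h2, add_assoc, ← two_mul] at h1
    exact (Nat.even_add.1 h1).2 (even_two_mul _)

end Pool.Agent.Helper40.SSQ
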