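import Mathlib
import Pool.Agent.Helper40.SSQ.Defs
import Pool.Agent.Helper40.SSQ.GoodEO
import Pool.Agent.Helper40.SSQ.Deferral

set_option autoImplicit false

namespace Pool.Agent.Helper40.SSQ

open Finset

structure Defer {W : Type} [Fintype W] (R : W → W → Prop) (m k1 : ℕ) (g : W → ℕ)
    (N : W ⊕ Fin m → W ⊕ Fin m → Prop) : Prop where
  ll : ∀ u v, N (.inl u) (.inl v) ↔ R u v
  rr : ∀ a b, ¬ N (.inr a) (.inr b)
  lr : ∀ w, cnt (fun b => N (.inl w) (.inr b)) + g w = m
  rl : ∀ w, cnt (fun b => N (.inr b) (.inl w)) + g w = m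
  cl : ∀ b, cnt (fun w => N (.inl w) (.inr b)) = k1
  cr : ∀ b, cnt (fun w => N (.inr b) (.inl w)) = k1

section
variable {W : Type} [Fintype W] {R : W → W → Prop} {m k1 : ℕ} {g : W → ℕ}
  {N : W ⊕ Fin m → W ⊕ Fin m → Prop}

theorem Defer.outd_inl (h : Defer R m k1 g N) (w : W) :
    outd N (.inl w) + g w = outd R w + m := by
  unfold outd
  rw [cnt_sum, cnt_congr (fun v => h.ll w v), add_assoc, h.lr]

theorem Defer.indg_inl (h : Defer R m k1 g N) (w : W) :
    indg N (.inl w) + g w = indg R w + m := by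
  unfold indg
  rw [cnt_sum, cnt_congr (fun v => h.ll v w), add_assoc, h.rl]

theorem Defer.outd_inr (h : Defer R m k1 g N) (b : Fin m) : outd N (.inr b) = k1 := by
  unfold outd
  rw [cnt_sum, h.cr, cnt_eq_zero.2 (fun a => h.rr b a), add_zero]

theorem Defer.indg_inr (h : Defer R m k1 g N) (b : Fin m) : indg N (.inr b) = k1 := by
  unfold indg
  rw [cnt_sum, h.cl, cnt_eq_zero.2 (fun a => h.rr a b), add_zero]

end

theorem sumOn_parity {W : Type} [Fintype W] (A : W → Prop) (e : W → ℕ) (θ : Prop)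
    (h : ∀ w, e w % 2 = 1 → (A w ↔ θ)) : (sumOn A e) % 2 = (b2n θ * ∑ w, e w) % 2 := by
  unfold sumOn
  rw [Finset.mul_sum, Finset.sum_nat_mod, Finset.sum_nat_mod univ 2 (fun w => b2n θ * e w)]
  congr 1
  apply Finset.sum_congr rfl
  intro w _
  by_cases h1 : e w % 2 = 1
  · rw [b2n_congr (h w h1)]
  · have h2 : e w % 2 = 0 := by omega
    rw [Nat.mul_mod, h2, Nat.mul_mod (b2n θ), h2]
    simp

theorem defer_good {W : Type} [Fintype W] (R : W → W → Prop) (hbal : ∀ w, outd R w = indg R w)
    (hloop : ∀ w, ¬ R w w) (hne : ∃ u v, R u v) (d m ε : ℕ) (hd : 1 ≤ d) (hε : ε ≤ 1)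
    (hn : Fintype.card W + ε = m + 2 * d) (g : W → ℕ) (hg : ∀ w, g w ≤ m)
    (hsum : ∑ w, g w + ε * m = m * m) (e : W → ℕ)
    (he : ∀ w, e w + (outd R w + m) = 2 * d + g w)
    (hρ : 2 * (2 * d) ≤ ∑ w, outd R w + ε * (2 * d) + (∑ w, outd R w) % 2)
    (hodd : ∀ N : W ⊕ Fin m → W ⊕ Fin m → Prop, Defer R m (2 * d) g N →
      ∀ A B : W ⊕ Fin m → Prop, Closed N (2 * d) A B →
        ∃ θ : Prop, ∀ w, e w % 2 = 1 → (A (.inl w) ↔ θ)) :
    Good R (Fin (m + 2 * d)) := by
  obtain ⟨N, h1, h2, h3, h4, h5, h6, h7⟩ := deferral R m (2 * d) ε hε hn g hg hsum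
  have hN : Defer R m (2 * d) g N := ⟨h1, h2, h3, h4, h5, h6⟩
  have key : Good N (Fin (2 * d)) := by
    have hE : ∑ w, e w + ∑ w, outd R w + ε * (2 * d) = 2 * d * (2 * d) := by
      have e1 : ∑ w, (e w + (outd R w + m)) = ∑ w, (2 * d + g w) :=
        Finset.sum_congr rfl (fun w _ => he w)
      simp only [Finset.sum_add_distrib, Finset.sum_const, Finset.card_univ, smul_eq_mul] at e1
      zify at e1 hn hsum ⊢
      have e2 : (Fintype.card W : ℤ) = m + 2 * d - ε := by linarith
      rw [e2] at e1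
      linear_combination e1 + hsum
    have ho : ∀ w, outd N (.inl w) + e w = 2 * d := by
      intro w
      have := hN.outd_inl w
      have := he w
      omega
    have hbalN : ∀ x, outd N x = indg N x := by
      rintro (w | b)
      · have e1 := hN.outd_inl w
        have e2 := hN.indg_inl w
        have e3 := hbal w
        omega
      · rw [hN.outd_inr, hN.indg_inr]
    have hleN : ∀ x, outd N x ≤ 2 * d := by
      rintro (w | b)
      · have := ho w
        omega
      · rw [hN.outd_inr]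
    have hdef : ∀ A : W ⊕ Fin m → Prop, sumOn A (fun x => 2 * d - outd N x) =
        sumOn (fun w => A (.inl w)) e := by
      intro A
      rw [sumOn_sum]
      have e1 : sumOn (fun v => A (.inr v)) (fun v : Fin m => 2 * d - outd N (.inr v)) = 0 := by
        unfold sumOn
        apply Finset.sum_eq_zero
        intro b _
        simp only
        rw [hN.outd_inr, Nat.sub_self, mul_zero]
      rw [e1, add_zero]
      apply sumOn_congr (fun _ => Iff.rfl)
      intro w _
      have := ho w
      omega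
    have hdefu : ∑ x, (2 * d - outd N x) = ∑ w, e w := by
      have := hdef (fun _ => True)
      rwa [sumOn_univ, sumOn_univ] at this
    have hsq : 2 * d * (2 * d) = 2 * d * (2 * d - 2) + 2 * (2 * d) := by
      obtain ⟨c, rfl⟩ : ∃ c, d = c + 1 := ⟨d - 1, by omega⟩
      have : 2 * (c + 1) - 2 = 2 * c := by omega
      rw [this]; ring
    have heven : (2 * d * (2 * d)) % 2 = 0 := by
      rw [mul_assoc]; exact Nat.mul_mod_right _ _
    have heven2 : (ε * (2 * d)) % 2 = 0 := by
      rw [mul_left_comm]; exact Nat.mul_mod_right _ _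
    rcases Nat.mod_two_eq_zero_or_one (∑ w, outd R w) with h0 | h0
    · -- even
      apply good_even N d hd _ hbalN hleN
      · rw [hdefu]; omega
      · intro A B hcl
        obtain ⟨θ, hθ⟩ := hodd N hN A B hcl
        rw [hdef, Nat.even_iff, sumOn_parity _ e θ hθ, Nat.mul_mod]
        have : (∑ w, e w) % 2 = 0 := by omega
        rw [this]; simp
      · obtain ⟨u, v, huv⟩ := hne
        exact ⟨.inl u, .inl v, (h1 u v).2 huv⟩
    · -- odd
      have hE1 : (∑ w, e w) % 2 = 1 := by omega
      obtain ⟨w0, hw0⟩ : ∃ w, e w % 2 = 1 := by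
        by_contra hcon
        push Not at hcon
        have h2 : (∑ w, e w) % 2 = 0 := by
          rw [Finset.sum_nat_mod, Finset.sum_eq_zero (fun w _ => by have := hcon w; omega)]
          rfl
        omega
      apply good_odd N d hd (.inl w0) _ _ hbalN hleN
      · rw [hdefu]; omega
      · intro A B hcl
        obtain ⟨θ, hθ⟩ := hodd N hN A B hcl
        rw [hdef, Nat.even_iff, Nat.add_mod, sumOn_parity _ e θ hθ, Nat.mul_mod, hE1,
          b2n_congr (hθ w0 hw0)]
        by_cases h : θ <;> simp [h]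
      · rw [h1]; exact hloop w0
      · have := ho w0
        omega
  exact (h7 _ key).equiv finSumFinEquiv

end Pool.Agent.Helper40.SSQ
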