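import Mathlib
import Pool.Agent.Helper40.SSQ.Defs
import Pool.Agent.Helper74.SSQ.Color

set_option autoImplicit false

namespace Pool.Agent.Helper40.SSQ

open Finset

/-- Sum over the points different from `p`, `q`. -/
theorem sum_avoid {X : Type} [Fintype X] [DecidableEq X] (p q : X) (h : p ≠ q) (f : X → ℕ) :
    (∑ y : {x // x ≠ p ∧ x ≠ q}, f y) + (f p + f q) = ∑ y, f y := by
  classical
  have h1 := Fintype.sum_subtype_add_sum_subtype (fun x : X => x ≠ p ∧ x ≠ q) f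
  rw [← h1]
  congr 1
  have h2 : ∑ y : {x // ¬ (x ≠ p ∧ x ≠ q)}, f y = ∑ y ∈ ({p, q} : Finset X), f y := by
    symm
    apply Finset.sum_subtype
    intro x
    simp only [Finset.mem_insert, Finset.mem_singleton]
    tauto
  rw [h2, Finset.sum_pair h]

/-- The colouring used for `k3v4`. -/
theorem k3v4_colour {X : Type} [Fintype X] (N : X → X → Prop) (hbal : ∀ x, outd N x = indg N x)
    (a p q c : X) (hap : N a p) (hpq : N p q) (hqc : N q c) (h1 : a ≠ p) (h2 : a ≠ q)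
    (h4 : p ≠ q) (h5 : p ≠ c) (h6 : q ≠ c)
    (hp : outd N p = 1) (hq : outd N q = 1) (ho : ∀ x, x ≠ p → x ≠ q → outd N x = 3) :
    ∃ K : Fin 3 → X → X → Prop,
      (∀ i u v, K i u v → N u v ∧ (u ≠ p ∧ u ≠ q) ∧ (v ≠ p ∧ v ≠ q)) ∧
      (∀ u v, N u v → (u ≠ p ∧ u ≠ q) → (v ≠ p ∧ v ≠ q) → ∃ i, K i u v) ∧
      (∀ i j u v, K i u v → K j u v → i = j) ∧
      (∀ i u v v', K i u v → K i u v' → v = v') ∧
      (∀ i u u' v, K i u v → K i u' v → u = u') ∧
      (∀ i u, (u ≠ p ∧ u ≠ q) → ((∃ v, K i u v) ∨ (u = a ∧ i = 0))) ∧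
      (∀ v, ¬ K 0 a v) ∧
      (∀ i v, (v ≠ p ∧ v ≠ q) → ((∃ u, K i u v) ∨ (v = c ∧ i = 0))) ∧
      (∀ u, ¬ K 0 u c) := by
  classical
  -- arcs at p and q
  have hpo : ∀ v, N p v → v = q := fun v hv =>
    (exists_unique_of_cnt_eq_one hp).unique hv hpq
  have hqo : ∀ v, N q v → v = c := fun v hv =>
    (exists_unique_of_cnt_eq_one hq).unique hv hqc
  have hpi : ∀ u, N u p → u = a := fun u hu =>
    (exists_unique_of_cnt_eq_one (by rw [← hp, hbal p]; rfl : cnt (fun x => N x p) = 1)).unique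
      hu hap
  have hqi : ∀ u, N u q → u = p := fun u hu =>
    (exists_unique_of_cnt_eq_one (by rw [← hq, hbal q]; rfl : cnt (fun x => N x q) = 1)).unique
      hu hpq
  let X' := {x : X // x ≠ p ∧ x ≠ q}
  let a' : X' := ⟨a, h1, h2⟩
  let c' : X' := ⟨c, h5.symm, h6.symm⟩
  let E := Option (X' × X')
  let S : Finset E := univ.filter (fun e : E => ∀ u v : X', e = some (u, v) → N u v)
  let l : E → X' := fun e => e.elim a' Prod.fst
  let r : E → X' := fun e => e.elim c' Prod.snd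
  have hnone : (none : E) ∈ S := by simp [S]
  have hsome : ∀ u v : X', ((some (u, v) : E) ∈ S ↔ N u v) := by
    intro u v
    simp only [S, Finset.mem_filter, Finset.mem_univ, true_and]
    constructor
    · intro h
      exact h u v rfl
    · intro h u' v' huv
      have := Option.some.inj huv
      rw [← (Prod.mk.inj this).1, ← (Prod.mk.inj this).2]
      exact h
  have hl : ∀ u : X', (S.filter (fun e => l e = u)).card = 3 := by
    intro u
    have e1 : (S.filter (fun e => l e = u)).card =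
        b2n (a' = u) + ∑ v : X', b2n (N u v) := by
      rw [Finset.filter_filter, Finset.card_filter, Fintype.sum_option, Fintype.sum_prod_type]
      congr 1
      · by_cases h : a' = u
        · rw [b2n_pos h, if_pos]
          exact ⟨by simp, h⟩
        · rw [b2n_neg h, if_neg]
          exact fun hh => h hh.2
      · rw [Finset.sum_eq_single u]
        · apply Finset.sum_congr rfl
          intro v _
          by_cases h : N u v
          · rw [b2n_pos h, if_pos]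
            refine ⟨?_, rfl⟩
            intro u' v' huv
            have := Option.some.inj huv
            rw [← (Prod.mk.inj this).1, ← (Prod.mk.inj this).2]
            exact h
          · rw [b2n_neg h, if_neg]
            exact fun hh => h (hh.1 u v rfl)
        · intro u' _ hne
          apply Finset.sum_eq_zero
          intro v _
          rw [if_neg]
          exact fun hh => hne hh.2
        · intro h
          exact absurd (Finset.mem_univ u) h
    rw [e1]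
    have e2 := sum_avoid p q h4 (fun y => b2n (N u y))
    have e3 : ∑ y, b2n (N u y) = 3 := ho u u.2.1 u.2.2
    have e4 : b2n (N u q) = 0 := b2n_neg (fun h => u.2.1 (hqi _ h))
    have e5 : b2n (N u p) = b2n (a' = u) := by
      apply b2n_congr
      constructor
      · intro h
        exact Subtype.ext (hpi _ h).symm
      · intro h
        have : (u : X) = a := by rw [← h]
        rw [this]; exact hap
    simp only [e4, e5, e3] at e2
    change b2n (a' = u) + ∑ v : {x : X // x ≠ p ∧ x ≠ q}, b2n (N u v) = 3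
    omega
  have hr : ∀ v : X', (S.filter (fun e => r e = v)).card = 3 := by
    intro v
    have e1 : (S.filter (fun e => r e = v)).card =
        b2n (c' = v) + ∑ u : X', b2n (N u v) := by
      rw [Finset.filter_filter, Finset.card_filter, Fintype.sum_option, Fintype.sum_prod_type_right]
      congr 1
      · by_cases h : c' = v
        · rw [b2n_pos h, if_pos]
          exact ⟨by simp, h⟩
        · rw [b2n_neg h, if_neg]
          exact fun hh => h hh.2
      · rw [Finset.sum_eq_single v]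
        · apply Finset.sum_congr rfl
          intro u _
          by_cases h : N u v
          · rw [b2n_pos h, if_pos]
            refine ⟨?_, rfl⟩
            intro u' v' huv
            have := Option.some.inj huv
            rw [← (Prod.mk.inj this).1, ← (Prod.mk.inj this).2]
            exact h
          · rw [b2n_neg h, if_neg]
            exact fun hh => h (hh.1 u v rfl)
        · intro u' _ hne
          apply Finset.sum_eq_zero
          intro v _
          rw [if_neg]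
          exact fun hh => hne hh.2
        · intro h
          exact absurd (Finset.mem_univ v) h
    rw [e1]
    have e2 := sum_avoid p q h4 (fun y => b2n (N y v))
    have e3 : ∑ y, b2n (N y v) = 3 := by
      have := hbal v
      rw [ho v v.2.1 v.2.2] at this
      exact this.symm
    have e4 : b2n (N p v) = 0 := b2n_neg (fun h => v.2.2 (hpo _ h))
    have e5 : b2n (N q v) = b2n (c' = v) := by
      apply b2n_congr
      constructor
      · intro h
        exact Subtype.ext (hqo _ h).symm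
      · intro h
        have : (v : X) = c := by rw [← h]
        rw [this]; exact hqc
    simp only [e4, e5, e3] at e2
    change b2n (c' = v) + ∑ u : {x : X // x ≠ p ∧ x ≠ q}, b2n (N u v) = 3
    omega
  obtain ⟨col, hcol, hcl, hcr⟩ := Pool.Agent.Helper74.SSQ.konig l r 3 S hl hr
  -- colours in Fin 3, renamed
  let κ : E → Fin 3 := fun e => (Fin.ofNat 3 (col e)) - (Fin.ofNat 3 (col none))
  have hκ0 : κ none = 0 := by simp [κ]
  have hκinj : ∀ e ∈ S, ∀ e' ∈ S, κ e = κ e' → col e = col e' := by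
    intro e he e' he' h
    have h1 := hcol e he
    have h2 := hcol e' he'
    have h3 : Fin.ofNat 3 (col e) = Fin.ofNat 3 (col e') := by
      simpa [κ] using h
    have h4 := congrArg Fin.val h3
    simp only [Fin.ofNat] at h4
    omega
  have hκsurj : ∀ i : Fin 3, ∃ n < 3, ∀ e, col e = n → κ e = i := by
    intro i
    refine ⟨(i + Fin.ofNat 3 (col none)).val, Fin.is_lt _, ?_⟩
    intro e he
    simp only [κ, he]
    have : Fin.ofNat 3 ((i + Fin.ofNat 3 (col none)).val) = i + Fin.ofNat 3 (col none) := by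
      apply Fin.ext
      simp only [Fin.ofNat]
      exact Nat.mod_eq_of_lt (Fin.is_lt _)
    rw [this]
    simp
  -- uniqueness at a vertex
  have hul : ∀ e ∈ S, ∀ e' ∈ S, l e = l e' → κ e = κ e' → e = e' := by
    intro e he e' he' hle hke
    have h1 := hκinj e he e' he' hke
    have h2 := hcl (l e) (col e) (hcol e he)
    rw [Finset.card_eq_one] at h2
    obtain ⟨x, hx⟩ := h2
    have m1 : e ∈ ({x} : Finset E) := by
      rw [← hx]; simp [he]
    have m2 : e' ∈ ({x} : Finset E) := by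
      rw [← hx]; simp [he', hle, h1]
    rw [Finset.mem_singleton] at m1 m2
    rw [m1, m2]
  have hur : ∀ e ∈ S, ∀ e' ∈ S, r e = r e' → κ e = κ e' → e = e' := by
    intro e he e' he' hle hke
    have h1 := hκinj e he e' he' hke
    have h2 := hcr (r e) (col e) (hcol e he)
    rw [Finset.card_eq_one] at h2
    obtain ⟨x, hx⟩ := h2
    have m1 : e ∈ ({x} : Finset E) := by
      rw [← hx]; simp [he]
    have m2 : e' ∈ ({x} : Finset E) := by
      rw [← hx]; simp [he', hle, h1]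
    rw [Finset.mem_singleton] at m1 m2
    rw [m1, m2]
  have hel : ∀ (u : X') (i : Fin 3), ∃ e ∈ S, l e = u ∧ κ e = i := by
    intro u i
    obtain ⟨n, hn, hn'⟩ := hκsurj i
    have h2 := hcl u n hn
    rw [Finset.card_eq_one] at h2
    obtain ⟨x, hx⟩ := h2
    have m1 : x ∈ S.filter (fun e => l e = u ∧ col e = n) := by
      rw [hx]; simp
    rw [Finset.mem_filter] at m1
    exact ⟨x, m1.1, m1.2.1, hn' x m1.2.2⟩
  have her : ∀ (u : X') (i : Fin 3), ∃ e ∈ S, r e = u ∧ κ e = i := by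
    intro u i
    obtain ⟨n, hn, hn'⟩ := hκsurj i
    have h2 := hcr u n hn
    rw [Finset.card_eq_one] at h2
    obtain ⟨x, hx⟩ := h2
    have m1 : x ∈ S.filter (fun e => r e = u ∧ col e = n) := by
      rw [hx]; simp
    rw [Finset.mem_filter] at m1
    exact ⟨x, m1.1, m1.2.1, hn' x m1.2.2⟩
  refine ⟨fun i u v => ∃ (u' v' : X'), (u' : X) = u ∧ (v' : X) = v ∧ N u' v' ∧
    κ (some (u', v')) = i, ?_, ?_, ?_, ?_, ?_, ?_, ?_, ?_, ?_⟩
  · rintro i u v ⟨u', v', rfl, rfl, hN, -⟩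
    exact ⟨hN, u'.2, v'.2⟩
  · intro u v hN hu hv
    exact ⟨_, ⟨u, hu⟩, ⟨v, hv⟩, rfl, rfl, hN, rfl⟩
  · rintro i j u v ⟨u', v', hu, hv, hN, hi⟩ ⟨u'', v'', hu', hv', hN', hj⟩
    have e1 : u' = u'' := Subtype.ext (hu.trans hu'.symm)
    have e2 : v' = v'' := Subtype.ext (hv.trans hv'.symm)
    subst e1 e2
    exact hi.symm.trans hj
  · rintro i u v w ⟨u', v', hu, hv, hN, hi⟩ ⟨u'', v'', hu', hv', hN', hj⟩
    have e1 : u' = u'' := Subtype.ext (hu.trans hu'.symm)
    subst e1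
    have := hul (some (u', v')) ((hsome _ _).2 hN) (some (u', v'')) ((hsome _ _).2 hN') rfl
      (hi.trans hj.symm)
    have e2 : v' = v'' := by
      have := Option.some.inj this
      exact (Prod.mk.inj this).2
    rw [← hv, ← hv', e2]
  · rintro i u w v ⟨u', v', hu, hv, hN, hi⟩ ⟨u'', v'', hu', hv', hN', hj⟩
    have e1 : v' = v'' := Subtype.ext (hv.trans hv'.symm)
    subst e1
    have := hur (some (u', v')) ((hsome _ _).2 hN) (some (u'', v')) ((hsome _ _).2 hN') rfl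
      (hi.trans hj.symm)
    have e2 : u' = u'' := by
      have := Option.some.inj this
      exact (Prod.mk.inj this).1
    rw [← hu, ← hu', e2]
  · intro i u hu
    obtain ⟨e, heS, hle, hke⟩ := hel ⟨u, hu⟩ i
    rcases e with _ | ⟨u', v'⟩
    · right
      refine ⟨?_, ?_⟩
      · exact (congrArg Subtype.val hle).symm
      · rw [← hke, hκ0]
    · left
      refine ⟨v', u', v', ?_, rfl, (hsome _ _).1 heS, hke⟩
      exact congrArg Subtype.val hle
  · rintro v ⟨u', v', hu, hv, hN, hi⟩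
    have := hul (some (u', v')) ((hsome _ _).2 hN) none hnone (Subtype.ext hu) (hi.trans hκ0.symm)
    cases this
  · intro i v hv
    obtain ⟨e, heS, hle, hke⟩ := her ⟨v, hv⟩ i
    rcases e with _ | ⟨u', v'⟩
    · right
      refine ⟨?_, ?_⟩
      · exact (congrArg Subtype.val hle).symm
      · rw [← hke, hκ0]
    · left
      refine ⟨u', u', v', rfl, ?_, (hsome _ _).1 heS, hke⟩
      exact congrArg Subtype.val hle
  · rintro u ⟨u', v', hu, hv, hN, hi⟩
    have := hur (some (u', v')) ((hsome _ _).2 hN) none hnone (Subtype.ext hv) (hi.trans hκ0.symm)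
    cases this

/-- The triples used for `k3v4`. -/
def TFour {X : Type} (P : Fin 3 → X → X → Prop) (Q : Fin 3 → Fin 3 → X → Prop)
    (Z : Fin 3 → Fin 3 → Fin 3 → Prop) : (X ⊕ Fin 3) → (X ⊕ Fin 3) → (X ⊕ Fin 3) → Prop
  | .inl _, .inl _, .inl _ => False
  | .inl u, .inl v, .inr i => P i u v
  | .inl v, .inr i, .inl u => P i u v
  | .inr i, .inl u, .inl v => P i u v
  | .inr i, .inr j, .inl x => Q i j x
  | .inr j, .inl x, .inr i => Q i j x
  | .inl x, .inr i, .inr j => Q i j x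
  | .inr i, .inr j, .inr l => Z i j l

theorem k3v4 {X : Type} [Fintype X] (N : X → X → Prop) (hbal : ∀ x, outd N x = indg N x)
    (a p q c : X) (hap : N a p) (hpq : N p q) (hqc : N q c) (h1 : a ≠ p) (h2 : a ≠ q)
    (h3 : a ≠ c) (h4 : p ≠ q) (h5 : p ≠ c) (h6 : q ≠ c)
    (hp : outd N p = 1) (hq : outd N q = 1) (ho : ∀ x, x ≠ p → x ≠ q → outd N x = 3) :
    Good N (Fin 3) := by
  classical
  have _ := h3
  have hpo : ∀ v, N p v → v = q := fun v hv =>
    (exists_unique_of_cnt_eq_one hp).unique hv hpq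
  have hqo : ∀ v, N q v → v = c := fun v hv =>
    (exists_unique_of_cnt_eq_one hq).unique hv hqc
  have hpi : ∀ u, N u p → u = a := fun u hu =>
    (exists_unique_of_cnt_eq_one (by rw [← hp, hbal p]; rfl : cnt (fun x => N x p) = 1)).unique
      hu hap
  have hqi : ∀ u, N u q → u = p := fun u hu =>
    (exists_unique_of_cnt_eq_one (by rw [← hq, hbal q]; rfl : cnt (fun x => N x q) = 1)).unique
      hu hpq
  obtain ⟨K, k1, k2, k3, k4, k5, k6, k7, k8, k9⟩ :=
    k3v4_colour N hbal a p q c hap hpq hqc h1 h2 h4 h5 h6 hp hq ho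
  let P : Fin 3 → X → X → Prop := fun i u v => K i u v ∨ (u = a ∧ v = p ∧ i = 0) ∨
    (u = q ∧ v = c ∧ i = 0) ∨ (u = p ∧ v = q ∧ i = 1)
  let Q : Fin 3 → Fin 3 → X → Prop := fun i j x =>
    (x = p ∧ ((i = 1 ∧ j = 2) ∨ (i = 2 ∧ j = 0))) ∨ (x = q ∧ ((i = 0 ∧ j = 2) ∨ (i = 2 ∧ j = 1)))
  let Z : Fin 3 → Fin 3 → Fin 3 → Prop := fun i j l =>
    (i = 0 ∧ j = 0 ∧ l = 1) ∨ (i = 0 ∧ j = 1 ∧ l = 0) ∨ (i = 1 ∧ j = 0 ∧ l = 0) ∨
      (i = 1 ∧ j = 1 ∧ l = 1) ∨ (i = 2 ∧ j = 2 ∧ l = 2)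
  have hZrot : ∀ i j l, Z i j l → Z j l i := by
    rintro i j l (⟨rfl, rfl, rfl⟩ | ⟨rfl, rfl, rfl⟩ | ⟨rfl, rfl, rfl⟩ | ⟨rfl, rfl, rfl⟩ |
      ⟨rfl, rfl, rfl⟩) <;> simp [Z]
  have hZf : ∀ i j l l', Z i j l → Z i j l' → l = l' := by
    rintro i j l l' (⟨rfl, rfl, rfl⟩ | ⟨rfl, rfl, rfl⟩ | ⟨rfl, rfl, rfl⟩ | ⟨rfl, rfl, rfl⟩ |
      ⟨rfl, rfl, rfl⟩) h <;> simp [Z] at h <;> simp [h]
  have hQZ : ∀ i j l x, Q i j x → Z i j l → False := by
    rintro i j l x (⟨rfl, (⟨rfl, rfl⟩ | ⟨rfl, rfl⟩)⟩ | ⟨rfl, (⟨rfl, rfl⟩ | ⟨rfl, rfl⟩)⟩) h <;>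
      simp [Z] at h
  have hQZe : ∀ i j, (∃ x, Q i j x) ∨ ∃ l, Z i j l := by
    intro i j
    fin_cases i <;> fin_cases j <;> simp [Q, Z]
  have hQf : ∀ i j x x', Q i j x → Q i j x' → x = x' := by
    rintro i j x x' (⟨rfl, (⟨rfl, rfl⟩ | ⟨rfl, rfl⟩)⟩ | ⟨rfl, (⟨rfl, rfl⟩ | ⟨rfl, rfl⟩)⟩) h <;>
      simp [Q] at h <;> simp [h]
  have hQl : ∀ i j j' x, Q i j x → Q i j' x → j = j' := by
    rintro i j j' x (⟨rfl, (⟨rfl, rfl⟩ | ⟨rfl, rfl⟩)⟩ | ⟨rfl, (⟨rfl, rfl⟩ | ⟨rfl, rfl⟩)⟩) h <;>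
      simp [Q, h4, h4.symm] at h <;> simp [h]
  have hQr : ∀ i i' j x, Q i j x → Q i' j x → i = i' := by
    rintro i i' j x (⟨rfl, (⟨rfl, rfl⟩ | ⟨rfl, rfl⟩)⟩ | ⟨rfl, (⟨rfl, rfl⟩ | ⟨rfl, rfl⟩)⟩) h <;>
      simp [Q, h4, h4.symm] at h <;> simp [h]
  -- facts on P
  have hPN : ∀ i u v, P i u v → N u v := by
    rintro i u v (h | ⟨rfl, rfl, rfl⟩ | ⟨rfl, rfl, rfl⟩ | ⟨rfl, rfl, rfl⟩)
    · exact (k1 _ _ _ h).1
    · exact hap
    · exact hqc
    · exact hpq
  have hNP : ∀ u v, N u v → ∃ i, P i u v := by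
    intro u v hN
    by_cases hu : u = p
    · subst hu
      exact ⟨1, Or.inr (Or.inr (Or.inr ⟨rfl, hpo v hN, rfl⟩))⟩
    by_cases hu' : u = q
    · subst hu'
      exact ⟨0, Or.inr (Or.inr (Or.inl ⟨rfl, hqo v hN, rfl⟩))⟩
    by_cases hv : v = p
    · subst hv
      exact ⟨0, Or.inr (Or.inl ⟨hpi u hN, rfl, rfl⟩)⟩
    by_cases hv' : v = q
    · subst hv'
      exact absurd (hqi u hN) hu
    obtain ⟨i, hi⟩ := k2 u v hN ⟨hu, hu'⟩ ⟨hv, hv'⟩
    exact ⟨i, Or.inl hi⟩
  have hPc : ∀ i j u v, P i u v → P j u v → i = j := by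
    rintro i j u v (h | ⟨hu, hv, hi⟩ | ⟨hu, hv, hi⟩ | ⟨hu, hv, hi⟩)
      (h' | ⟨hu', hv', hi'⟩ | ⟨hu', hv', hi'⟩ | ⟨hu', hv', hi'⟩)
    · exact k3 _ _ _ _ h h'
    · exact absurd hv' (k1 _ _ _ h).2.2.1
    · exact absurd hu' (k1 _ _ _ h).2.1.2
    · exact absurd hu' (k1 _ _ _ h).2.1.1
    · exact absurd hv (k1 _ _ _ h').2.2.1
    · rw [hi, hi']
    · exact absurd (hu.symm.trans hu') h2
    · exact absurd (hu.symm.trans hu') h1
    · exact absurd hu (k1 _ _ _ h').2.1.2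
    · exact absurd (hu'.symm.trans hu) h2
    · rw [hi, hi']
    · exact absurd (hu'.symm.trans hu) h4
    · exact absurd hu (k1 _ _ _ h').2.1.1
    · exact absurd (hu'.symm.trans hu) h1
    · exact absurd (hu.symm.trans hu') h4
    · rw [hi, hi']
  have hPf : ∀ i u v v', P i u v → P i u v' → v = v' := by
    rintro i u v v' (h | ⟨hu, hv, hi⟩ | ⟨hu, hv, hi⟩ | ⟨hu, hv, hi⟩)
      (h' | ⟨hu', hv', hi'⟩ | ⟨hu', hv', hi'⟩ | ⟨hu', hv', hi'⟩)
    · exact k4 _ _ _ _ h h'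
    · rw [hu', hi'] at h; exact absurd h (k7 _)
    · exact absurd hu' (k1 _ _ _ h).2.1.2
    · exact absurd hu' (k1 _ _ _ h).2.1.1
    · rw [hu, hi] at h'; exact absurd h' (k7 _)
    · rw [hv, hv']
    · exact absurd (hu.symm.trans hu') h2
    · exact absurd (hu.symm.trans hu') h1
    · exact absurd hu (k1 _ _ _ h').2.1.2
    · exact absurd (hu'.symm.trans hu) h2
    · rw [hv, hv']
    · exact absurd (hu'.symm.trans hu) h4
    · exact absurd hu (k1 _ _ _ h').2.1.1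
    · exact absurd (hu'.symm.trans hu) h1
    · exact absurd (hu.symm.trans hu') h4
    · rw [hv, hv']
  have hPi : ∀ i u u' v, P i u v → P i u' v → u = u' := by
    rintro i u u' v (h | ⟨hu, hv, hi⟩ | ⟨hu, hv, hi⟩ | ⟨hu, hv, hi⟩)
      (h' | ⟨hu', hv', hi'⟩ | ⟨hu', hv', hi'⟩ | ⟨hu', hv', hi'⟩)
    · exact k5 _ _ _ _ h h'
    · exact absurd hv' (k1 _ _ _ h).2.2.1
    · rw [hv', hi'] at h; exact absurd h (k9 _)
    · exact absurd hv' (k1 _ _ _ h).2.2.2
    · exact absurd hv (k1 _ _ _ h').2.2.1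
    · rw [hu, hu']
    · exact absurd (hv.symm.trans hv') h5
    · exact absurd (hv.symm.trans hv') h4
    · rw [hv, hi] at h'; exact absurd h' (k9 _)
    · exact absurd (hv'.symm.trans hv) h5
    · rw [hu, hu']
    · exact absurd (hv'.symm.trans hv) h6
    · exact absurd hv (k1 _ _ _ h').2.2.2
    · exact absurd (hv'.symm.trans hv) h4
    · exact absurd (hv.symm.trans hv') h6
    · rw [hu, hu']
  -- P against Q
  have hPQl : ∀ i j u x, P i u x → Q i j x → False := by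
    rintro i j u x (h | ⟨hu, hv, hi⟩ | ⟨hu, hv, hi⟩ | ⟨hu, hv, hi⟩) (⟨hx, hh⟩ | ⟨hx, hh⟩)
    · exact (k1 _ _ _ h).2.2.1 hx
    · exact (k1 _ _ _ h).2.2.2 hx
    · rw [hi] at hh; simp at hh
    · exact h4 (hv.symm.trans hx)
    · exact h5 (hx.symm.trans hv)
    · exact h6 (hx.symm.trans hv)
    · exact h4 (hx.symm.trans hv)
    · rw [hi] at hh; simp at hh
  have hPQr : ∀ i j x v, P i x v → Q j i x → False := by
    rintro i j x v (h | ⟨hu, hv, hi⟩ | ⟨hu, hv, hi⟩ | ⟨hu, hv, hi⟩) (⟨hx, hh⟩ | ⟨hx, hh⟩)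
    · exact (k1 _ _ _ h).2.1.1 hx
    · exact (k1 _ _ _ h).2.1.2 hx
    · exact h1 (hu.symm.trans hx)
    · exact h2 (hu.symm.trans hx)
    · exact h4 (hx.symm.trans hu)
    · rw [hi] at hh; simp at hh
    · rw [hi] at hh; simp at hh
    · exact h4 (hu.symm.trans hx)
  have hPQle : ∀ i x, (∃ u, P i u x) ∨ ∃ j, Q i j x := by
    intro i x
    by_cases hxp : x = p
    · subst hxp
      fin_cases i
      · left; exact ⟨a, Or.inr (Or.inl ⟨rfl, rfl, rfl⟩)⟩
      · right; exact ⟨2, Or.inl ⟨rfl, Or.inl ⟨rfl, rfl⟩⟩⟩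
      · right; exact ⟨0, Or.inl ⟨rfl, Or.inr ⟨rfl, rfl⟩⟩⟩
    by_cases hxq : x = q
    · subst hxq
      fin_cases i
      · right; exact ⟨2, Or.inr ⟨rfl, Or.inl ⟨rfl, rfl⟩⟩⟩
      · left; exact ⟨p, Or.inr (Or.inr (Or.inr ⟨rfl, rfl, rfl⟩))⟩
      · right; exact ⟨1, Or.inr ⟨rfl, Or.inr ⟨rfl, rfl⟩⟩⟩
    left
    rcases k8 i x ⟨hxp, hxq⟩ with ⟨u, hu⟩ | ⟨hx, hi⟩
    · exact ⟨u, Or.inl hu⟩
    · exact ⟨q, Or.inr (Or.inr (Or.inl ⟨rfl, hx, hi⟩))⟩
  have hPQre : ∀ i x, (∃ v, P i x v) ∨ ∃ j, Q j i x := by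
    intro i x
    by_cases hxp : x = p
    · subst hxp
      fin_cases i
      · right; exact ⟨2, Or.inl ⟨rfl, Or.inr ⟨rfl, rfl⟩⟩⟩
      · left; exact ⟨q, Or.inr (Or.inr (Or.inr ⟨rfl, rfl, rfl⟩))⟩
      · right; exact ⟨1, Or.inl ⟨rfl, Or.inl ⟨rfl, rfl⟩⟩⟩
    by_cases hxq : x = q
    · subst hxq
      fin_cases i
      · left; exact ⟨c, Or.inr (Or.inr (Or.inl ⟨rfl, rfl, rfl⟩))⟩
      · right; exact ⟨2, Or.inr ⟨rfl, Or.inr ⟨rfl, rfl⟩⟩⟩
      · right; exact ⟨0, Or.inr ⟨rfl, Or.inl ⟨rfl, rfl⟩⟩⟩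
    left
    rcases k6 i x ⟨hxp, hxq⟩ with ⟨u, hu⟩ | ⟨hx, hi⟩
    · exact ⟨u, Or.inl hu⟩
    · exact ⟨p, Or.inr (Or.inl ⟨hx, rfl, hi⟩)⟩
  refine ⟨TFour P Q Z, ⟨?_, ?_⟩, ?_⟩
  · rintro (x | x) (y | y) (z | z) h
    · exact h
    · exact h
    · exact h
    · exact h
    · exact h
    · exact h
    · exact h
    · exact hZrot _ _ _ h
  · rintro (x | x) (y | y) (z | z) (z' | z') h h'
    · exact h.elim
    · exact h.elim
    · exact h'.elim
    · exact congrArg Sum.inr (hPc _ _ _ _ h h')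
    · exact congrArg Sum.inl (hPi _ _ _ _ h h')
    · exact (hPQl _ _ _ _ h h').elim
    · exact (hPQl _ _ _ _ h' h).elim
    · exact congrArg Sum.inr (hQl _ _ _ _ h h')
    · exact congrArg Sum.inl (hPf _ _ _ _ h h')
    · exact (hPQr _ _ _ _ h h').elim
    · exact (hPQr _ _ _ _ h' h).elim
    · exact congrArg Sum.inr (hQr _ _ _ _ h h')
    · exact congrArg Sum.inl (hQf _ _ _ _ h h')
    · exact (hQZ _ _ _ _ h h').elim
    · exact (hQZ _ _ _ _ h' h).elim
    · exact congrArg Sum.inr (hZf _ _ _ _ h h')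
  · rintro (x | x) (y | y)
    · constructor
      · rintro ⟨z | z, h⟩
        · exact h.elim
        · exact hPN _ _ _ h
      · intro h
        obtain ⟨i, hi⟩ := hNP x y h
        exact ⟨.inr i, hi⟩
    · refine ⟨fun _ => trivial, fun _ => ?_⟩
      rcases hPQle y x with ⟨u, hu⟩ | ⟨j, hj⟩
      · exact ⟨.inl u, hu⟩
      · exact ⟨.inr j, hj⟩
    · refine ⟨fun _ => trivial, fun _ => ?_⟩
      rcases hPQre x y with ⟨u, hu⟩ | ⟨j, hj⟩
      · exact ⟨.inl u, hu⟩
      · exact ⟨.inr j, hj⟩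
    · refine ⟨fun _ => trivial, fun _ => ?_⟩
      rcases hQZe x y with ⟨u, hu⟩ | ⟨j, hj⟩
      · exact ⟨.inl u, hu⟩
      · exact ⟨.inr j, hj⟩

end Pool.Agent.Helper40.SSQ
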