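import Mathlib
import Pool.Agent.Helper40.SSQ.Defs
import Pool.Agent.Helper40.SSQ.DeferGood
import Pool.Agent.Helper74.SSQ.Final

set_option autoImplicit false

namespace Pool.Agent.Helper40.SSQ

open Finset

/-- two predicates with more than `card W` elements in total intersect -/
theorem exists_both {W : Type} [Fintype W] (p q : W → Prop)
    (h : Fintype.card W < cnt p + cnt q) : ∃ w, p w ∧ q w := by
  by_contra hcon
  push Not at hcon
  have h1 : cnt (fun w => p w ∨ q w) = cnt p + cnt q :=
    cnt_or (fun w ⟨h1, h2⟩ => hcon w h1 h2)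
  have h2 := cnt_le_card (fun w => p w ∨ q w)
  omega

theorem sum_pos_part {W : Type} [Fintype W] (r : W → ℕ) (h m c : ℕ) (hr : ∀ w, r w ≤ h + m)
    (h1 : ∑ w, r w ≤ c * m + h * (c + 1)) : ∑ w, (r w - h) ≤ c * m := by
  classical
  obtain ⟨T, hT⟩ : ∃ T : Finset W, T = univ.filter (fun w => h < r w) := ⟨_, rfl⟩
  have h2 : ∑ w, (r w - h) = ∑ w ∈ T, (r w - h) := by
    symm
    apply Finset.sum_subset (Finset.subset_univ _)
    intro w _ hw
    rw [hT] at hw
    simp only [Finset.mem_filter, Finset.mem_univ, true_and] at hw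
    omega
  rw [h2]
  rcases Nat.lt_or_ge T.card (c + 1) with h3 | h3
  · calc ∑ w ∈ T, (r w - h) ≤ ∑ w ∈ T, m := Finset.sum_le_sum (fun w _ => by
          have := hr w; omega)
      _ = T.card * m := by rw [Finset.sum_const, smul_eq_mul]
      _ ≤ c * m := Nat.mul_le_mul_right _ (by omega)
  · have h4 : ∑ w ∈ T, (r w - h) + T.card * h ≤ ∑ w, r w := by
      calc ∑ w ∈ T, (r w - h) + T.card * h = ∑ w ∈ T, r w := by
            rw [← smul_eq_mul, ← Finset.sum_const, ← Finset.sum_add_distrib]
            apply Finset.sum_congr rfl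
            intro w hw
            rw [hT] at hw
            simp only [Finset.mem_filter, Finset.mem_univ, true_and] at hw
            omega
        _ ≤ ∑ w, r w := Finset.sum_le_sum_of_subset (Finset.subset_univ _)
    have h5 : (c + 1) * h ≤ T.card * h := Nat.mul_le_mul_right _ h3
    have h6 : (c + 1) * h = h * (c + 1) := mul_comm _ _
    omega

theorem regimeB {W : Type} [Fintype W] (R : W → W → Prop) (hbal : ∀ w, outd R w = indg R w)
    (hloop : ∀ w, ¬ R w w) (hne : ∃ u v, R u v) (d m ε : ℕ) (hd : 1 ≤ d) (hε : ε ≤ 1)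
    (hn : Fintype.card W + ε = m + 2 * d) (hm1 : 1 ≤ m) (hm2 : 2 ≤ m + ε)
    (h2 : Fintype.card W < 4 * d) (hr : ∀ w, outd R w ≤ 2 * d)
    (hR : ∑ w, (outd R w + m - 2 * d) + ε * m ≤ m * m)
    (hρ : 2 * (2 * d) ≤ ∑ w, outd R w + ε * (2 * d) + (∑ w, outd R w) % 2) :
    Good R (Fin (m + 2 * d)) := by
  classical
  have hεm : ε * m ≤ m * m := Nat.mul_le_mul_right _ (by omega)
  obtain ⟨g, hg, hgs⟩ := Pool.Agent.Helper74.SSQ.exists_between
    (fun w => outd R w + m - 2 * d) (fun w => if outd R w < 2 * d then m - 1 else m)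
    (by
      intro w
      have := hr w
      split_ifs <;> omega) (m * m - ε * m) (by omega) (by
      have h3 : ∑ w : W, (m - 1) ≤ ∑ w, (if outd R w < 2 * d then m - 1 else m) := by
        apply Finset.sum_le_sum
        intro w _
        split_ifs <;> omega
      rw [Finset.sum_const, smul_eq_mul, Finset.card_univ] at h3
      refine le_trans ?_ h3
      have h4 : m * m - ε * m = m * (m - ε) := by rw [Nat.mul_sub, mul_comm ε m]
      rw [h4]
      obtain ⟨c, rfl⟩ : ∃ c, m = c + 1 := ⟨m - 1, by omega⟩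
      have h5 : (c + 3 - ε) * c ≤ Fintype.card W * c := Nat.mul_le_mul_right _ (by omega)
      refine le_trans ?_ h5
      rcases Nat.eq_zero_or_pos ε with h0 | h0
      · subst h0
        simp only [Nat.sub_zero]
        nlinarith
      · obtain rfl : ε = 1 := by omega
        have e1 : c + 1 + 1 - 1 = c + 1 := by omega
        have e2 : c + 3 - 1 = c + 2 := by omega
        rw [e2]
        simp only [Nat.add_sub_cancel]
        nlinarith)
  have hgm : ∀ w, g w ≤ m := by
    intro w
    have := (hg w).2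
    split_ifs at this <;> omega
  apply defer_good R hbal hloop hne d m ε hd hε hn g hgm (by omega)
    (fun w => 2 * d + g w - (outd R w + m)) (by
      intro w
      have := (hg w).1
      omega) hρ
  intro N hN A B hcl
  refine ⟨B (.inr ⟨0, hm1⟩), ?_⟩
  intro w hw
  have hw2 : g w < m := by
    have h3 := (hg w).2
    by_contra hcon
    have h4 := hr w
    split_ifs at h3 <;> omega
  have h3 : 0 < cnt (fun b => N (.inl w) (.inr b)) := by
    have := hN.lr w
    omega
  obtain ⟨b, hb⟩ := cnt_pos.1 h3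
  rw [hcl.1 _ _ hb]
  obtain ⟨w', h4, h5⟩ := exists_both (fun w => N (.inl w) (.inr b))
    (fun w => N (.inl w) (.inr ⟨0, hm1⟩)) (by rw [hN.cl, hN.cl]; omega)
  rw [← hcl.1 _ _ h4, ← hcl.1 _ _ h5]

theorem regimeC {W : Type} [Fintype W] (R : W → W → Prop) (hbal : ∀ w, outd R w = indg R w)
    (hloop : ∀ w, ¬ R w w) (hne : ∃ u v, R u v) (d m ε : ℕ) (hd : 1 ≤ d) (hε : ε ≤ 1)
    (hn : Fintype.card W + ε = m + 2 * d)
    (h2 : 4 * d ≤ Fintype.card W) (hr : ∀ w, outd R w ≤ 2 * d)
    (hR : ∑ w, outd R w + ε * (2 * d) ≤ 2 * d * (2 * d))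
    (hρ : 2 * (2 * d) ≤ ∑ w, outd R w + ε * (2 * d) + (∑ w, outd R w) % 2) :
    Good R (Fin (m + 2 * d)) := by
  classical
  obtain ⟨ρ, hρdef⟩ : ∃ ρ, ρ = ∑ w, outd R w := ⟨_, rfl⟩
  rw [← hρdef] at hR hρ
  have heven : (2 * d * (2 * d)) % 2 = 0 := by rw [mul_assoc]; exact Nat.mul_mod_right _ _
  have heven2 : (ε * (2 * d)) % 2 = 0 := by rw [mul_left_comm]; exact Nat.mul_mod_right _ _
  -- half of the even part of the deficiency
  obtain ⟨y, hy, hys⟩ := Pool.Agent.Helper74.SSQ.exists_between
    (fun _ : W => 0) (fun w => (2 * d - outd R w) / 2) (fun w => Nat.zero_le _)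
    ((2 * d * (2 * d) - ρ - ε * (2 * d)) / 2) (by simp) (by
      have h3 : ∑ w : W, (2 * d) ≤ ∑ w, (2 * ((2 * d - outd R w) / 2) + (outd R w + 1)) := by
        apply Finset.sum_le_sum
        intro w _
        have := hr w
        omega
      simp only [Finset.sum_add_distrib, Finset.sum_const, Finset.card_univ, smul_eq_mul,
        ← Finset.mul_sum, mul_one] at h3
      rw [← hρdef] at h3
      have h4 : 4 * d * (2 * d) ≤ Fintype.card W * (2 * d) := Nat.mul_le_mul_right _ h2
      have h5 : Fintype.card W * (2 * d) = Fintype.card W * (2 * d - 1) + Fintype.card W := by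
        obtain ⟨c, rfl⟩ : ∃ c, d = c + 1 := ⟨d - 1, by omega⟩
        have : 2 * (c + 1) - 1 = 2 * c + 1 := by omega
        rw [this]; ring
      have h6 : 4 * d * (2 * d - 1) ≤ Fintype.card W * (2 * d - 1) := Nat.mul_le_mul_right _ h2
      have h7 : 2 * d * (2 * d) ≤ 4 * d * (2 * d - 1) := by
        obtain ⟨c, rfl⟩ : ∃ c, d = c + 1 := ⟨d - 1, by omega⟩
        have : 2 * (c + 1) - 1 = 2 * c + 1 := by omega
        rw [this]; nlinarith
      omega)
  simp only [Nat.zero_le, true_and] at hy
  -- the odd vertex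
  have hodd : ∃ w0 : Option W, (ρ % 2 = 0 → w0 = none) ∧
      (ρ % 2 = 1 → ∃ w, w0 = some w ∧ outd R w % 2 = 1) := by
    rcases Nat.mod_two_eq_zero_or_one ρ with h | h
    · exact ⟨none, fun _ => rfl, fun h' => by omega⟩
    · obtain ⟨w, hw⟩ : ∃ w, outd R w % 2 = 1 := by
        by_contra hcon
        push Not at hcon
        have : ρ % 2 = 0 := by
          rw [hρdef, Finset.sum_nat_mod, Finset.sum_eq_zero (fun w _ => by
            have := hcon w; omega)]
          rfl
        omega
      exact ⟨some w, fun h' => by omega, fun _ => ⟨w, rfl, hw⟩⟩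
  obtain ⟨w0, hw0, hw1⟩ := hodd
  have hs1 : ∑ w, (if w0 = some w then 1 else 0) = ρ % 2 := by
    rcases Nat.mod_two_eq_zero_or_one ρ with h | h
    · rw [hw0 h, h]; simp
    · obtain ⟨w, rfl, _⟩ := hw1 h
      rw [h, Finset.sum_eq_single w]
      · simp
      · intro b _ hb
        rw [if_neg]
        intro h'
        exact hb (Option.some.inj h').symm
      · intro h'; exact absurd (Finset.mem_univ _) h'
  have hm : 2 * d ≤ m + ε := by omega
  obtain ⟨e, hedef⟩ : ∃ e : W → ℕ, ∀ w, e w = 2 * y w + (if w0 = some w then 1 else 0) :=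
    ⟨fun w => 2 * y w + (if w0 = some w then 1 else 0), fun w => rfl⟩
  have he : ∀ w, e w + outd R w ≤ 2 * d := by
    intro w
    have h3 := hy w
    have h4 := hr w
    rw [hedef]
    split_ifs with h5
    · have h6 : outd R w % 2 = 1 := by
        rcases Nat.mod_two_eq_zero_or_one ρ with h | h
        · rw [hw0 h] at h5; cases h5
        · obtain ⟨w', hw', h7⟩ := hw1 h
          rw [h5] at hw'
          rw [Option.some.inj hw']; exact h7
      omega
    · omega
  have hes : ∑ w, e w + ρ + ε * (2 * d) = 2 * d * (2 * d) := by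
    rw [Finset.sum_congr rfl (fun w _ => hedef w), Finset.sum_add_distrib, ← Finset.mul_sum, hys,
      hs1]
    clear hs1 hw1 hw0 hys
    generalize 2 * d * (2 * d) = P at *
    generalize ε * (2 * d) = Q at *
    omega
  have hmd : 2 * d ≤ m := by omega
  apply defer_good R hbal hloop hne d m ε hd hε hn (fun w => e w + outd R w + m - 2 * d) (by
      intro w
      have := he w
      omega) (by
      have h3 : ∑ w, (e w + outd R w + m - 2 * d) + Fintype.card W * (2 * d) =
          ∑ w, e w + ρ + Fintype.card W * m := by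
        have h4 : ∑ w : W, (e w + outd R w + m - 2 * d + 2 * d) = ∑ w, (e w + outd R w + m) := by
          apply Finset.sum_congr rfl
          intro w _
          omega
        simp only [Finset.sum_add_distrib, Finset.sum_const, Finset.card_univ, smul_eq_mul] at h4
        rw [hρdef]
        exact h4
      zify at h3 hes hn ⊢
      have e2 : (Fintype.card W : ℤ) = m + 2 * d - ε := by linarith
      rw [e2] at h3
      linear_combination h3 + hes) e (by
      intro w
      omega) (by rw [← hρdef]; exact hρ)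
  intro N hN A B hcl
  rcases w0 with _ | w0
  · refine ⟨True, ?_⟩
    intro w hw
    simp [hedef] at hw
  · refine ⟨A (.inl w0), ?_⟩
    intro w hw
    by_cases h : w0 = w
    · rw [h]
    · simp [hedef, h] at hw

end Pool.Agent.Helper40.SSQ
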