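import Mathlib
import Pool.Agent.Helper40.SSQ.Defs
import Pool.Agent.Helper40.SSQ.Regimes

set_option autoImplicit false

namespace Pool.Agent.Helper40.SSQ

open Finset

theorem cnt_self {W : Type} [Fintype W] (x : W) : cnt (fun w => w = x) = 1 :=
  cnt_eq_one ⟨x, rfl⟩ (fun a b h h' => by rw [h, h'])

theorem outd_lt_card {W : Type} [Fintype W] (R : W → W → Prop) (hloop : ∀ w, ¬ R w w) (w : W) :
    outd R w + 1 ≤ Fintype.card W := by
  have h1 : cnt (fun v => R w v ∨ v = w) = outd R w + 1 := by
    rw [cnt_or]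
    · congr 1
      exact cnt_eq_one ⟨w, rfl⟩ (fun a b h h' => by rw [h, h'])
    · rintro v ⟨h, rfl⟩
      exact hloop _ h
  rw [← h1]
  exact cnt_le_card _

theorem regimeM {W : Type} [Fintype W] (R : W → W → Prop) (hbal : ∀ w, outd R w = indg R w)
    (hloop : ∀ w, ¬ R w w) (hne : ∃ u v, R u v) (d : ℕ) (hd : 1 ≤ d)
    (hn : Fintype.card W = 1 + 2 * d) (w0 : W) (hr : ∀ w, w ≠ w0 → outd R w + 1 ≤ 2 * d)
    (hρ : 2 * (2 * d) ≤ ∑ w, outd R w + (∑ w, outd R w) % 2) :
    Good R (Fin (1 + 2 * d)) := by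
  classical
  have hr0 : outd R w0 ≤ 2 * d := by
    have := outd_lt_card R hloop w0
    omega
  apply defer_good R hbal hloop hne d 1 0 hd (by omega) (by omega)
    (fun w => if w = w0 then 1 else 0) (by intro w; split_ifs <;> omega) (by simp)
    (fun w => 2 * d + (if w = w0 then 1 else 0) - (outd R w + 1)) (by
      intro w
      split_ifs with h
      · rw [h]; omega
      · have := hr w h; omega) (by omega)
  intro N hN A B hcl
  refine ⟨B (.inr 0), ?_⟩
  have hout : ∀ w, w ≠ w0 → N (.inl w) (.inr 0) := by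
    intro w hw
    have h1 := hN.lr w
    rw [if_neg hw] at h1
    obtain ⟨b, hb⟩ := cnt_pos.1 (show 0 < cnt (fun b => N (.inl w) (.inr b)) by omega)
    rwa [Subsingleton.elim b 0] at hb
  have hin : ∀ w, w ≠ w0 → N (.inr 0) (.inl w) := by
    intro w hw
    have h1 := hN.rl w
    rw [if_neg hw] at h1
    obtain ⟨b, hb⟩ := cnt_pos.1 (show 0 < cnt (fun b => N (.inr b) (.inl w)) by omega)
    rwa [Subsingleton.elim b 0] at hb
  intro w hw
  by_cases hw0 : w = w0
  · subst hw0
    rw [if_pos rfl] at hw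
    have h1 : 0 < outd R w := by omega
    have h2 : 0 < indg R w := by rw [← hbal]; exact h1
    obtain ⟨v, hv⟩ := cnt_pos.1 h1
    obtain ⟨u, hu⟩ := cnt_pos.1 h2
    have hvw : v ≠ w := by rintro rfl; exact hloop _ hv
    have huw : u ≠ w := by rintro rfl; exact hloop _ hu
    have e1 : A (.inl w) ↔ B (.inl v) := hcl.1 _ _ ((hN.ll w v).2 hv)
    have e2 : A (.inl u) ↔ B (.inl w) := hcl.1 _ _ ((hN.ll u w).2 hu)
    have e3 := hcl.1 _ _ (hout u huw)
    have e4 : A (.inl w) ↔ B (.inl w) := by
      apply hcl.2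
      have := hN.outd_inl w
      rw [if_pos rfl] at this
      omega
    rw [e4, ← e2, e3]
  · exact hcl.1 _ _ (hout w hw0)

/-- `A` is a union of weak components -/
def Cl {W : Type} (R : W → W → Prop) (A : W → Prop) : Prop := ∀ u v, R u v → (A u ↔ A v)

theorem three_le {W : Type} [Fintype W] (R : W → W → Prop) (hbal : ∀ w, outd R w = indg R w)
    (hloop : ∀ w, ¬ R w w) (K : W → Prop) (hK : Cl R K)
    (ho : sumOn K (outd R) % 2 = 1) : 3 ≤ cnt K := by
  classical
  -- an element with an out-neighbour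
  obtain ⟨x, hx, hx1⟩ : ∃ x, K x ∧ 0 < outd R x := by
    by_contra hcon
    push Not at hcon
    have : sumOn K (outd R) = 0 := by
      unfold sumOn
      apply Finset.sum_eq_zero
      intro w _
      by_cases h : K w
      · have := hcon w h
        have h2 : outd R w = 0 := by omega
        rw [h2, mul_zero]
      · rw [b2n_neg h, zero_mul]
    omega
  obtain ⟨y, hy⟩ := cnt_pos.1 hx1
  have hxy : x ≠ y := by rintro rfl; exact hloop _ hy
  have hKy : K y := (hK x y hy).1 hx
  by_contra hcon
  have hK2 : ∀ z, K z → z = x ∨ z = y := by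
    intro z hz
    by_contra hz2
    push Not at hz2
    have h1 : cnt (fun w => (w = x ∨ w = y) ∨ w = z) = 3 := by
      rw [cnt_or, cnt_or]
      · rw [cnt_self, cnt_self, cnt_self]
      · rintro w ⟨rfl, h⟩; exact hxy h
      · rintro w ⟨h | h, h'⟩
        · exact hz2.1 (h'.symm.trans h)
        · exact hz2.2 (h'.symm.trans h)
    have h2 : cnt (fun w => (w = x ∨ w = y) ∨ w = z) ≤ cnt K := by
      apply cnt_mono
      rintro w ((rfl | rfl) | rfl)
      · exact hx
      · exact hKy
      · exact hz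
    omega
  have hox : outd R x = b2n (R x y) := by
    unfold outd
    by_cases h : R x y
    · rw [b2n_pos h]
      apply cnt_eq_one ⟨y, h⟩
      intro a b ha hb
      rcases hK2 a ((hK x a ha).1 hx) with rfl | rfl
      · exact absurd ha (hloop _)
      · rcases hK2 b ((hK x b hb).1 hx) with rfl | rfl
        · exact absurd hb (hloop _)
        · rfl
    · rw [b2n_neg h, cnt_eq_zero]
      intro a ha
      rcases hK2 a ((hK x a ha).1 hx) with rfl | rfl
      · exact absurd ha (hloop _)
      · exact h ha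
  have hoy : indg R y = b2n (R x y) := by
    unfold indg
    by_cases h : R x y
    · rw [b2n_pos h]
      apply cnt_eq_one ⟨x, h⟩
      intro a b ha hb
      rcases hK2 a ((hK a y ha).2 hKy) with rfl | rfl
      · rcases hK2 b ((hK b y hb).2 hKy) with rfl | rfl
        · rfl
        · exact absurd hb (hloop _)
      · exact absurd ha (hloop _)
    · exact absurd hy h
  have hs : sumOn K (outd R) = outd R x + outd R y := by
    unfold sumOn
    rw [← Finset.sum_subset (Finset.subset_univ {x, y}), Finset.sum_pair hxy, b2n_pos hx,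
      b2n_pos hKy, one_mul, one_mul]
    intro z _ hz
    simp only [Finset.mem_insert, Finset.mem_singleton] at hz
    rw [b2n_neg (fun h => hz (hK2 z h)), zero_mul]
  rw [hs, hbal y, hox, hoy] at ho
  omega

theorem outd_add_cnt {W : Type} [Fintype W] (R : W → W → Prop) (hloop : ∀ w, ¬ R w w)
    (K : W → Prop) (hK : Cl R K) (w : W) (hw : ¬ K w) :
    outd R w + 1 + cnt K ≤ Fintype.card W := by
  have h1 : cnt (fun v => (R w v ∨ v = w) ∨ K v) = outd R w + 1 + cnt K := by
    rw [cnt_or, cnt_or]
    · congr 2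
      exact cnt_eq_one ⟨w, rfl⟩ (fun a b h h' => by rw [h, h'])
    · rintro v ⟨h, rfl⟩
      exact hloop _ h
    · rintro v ⟨h | rfl, h'⟩
      · exact hw ((hK w v h).2 h')
      · exact hw h'
  rw [← h1]
  exact cnt_le_card _

theorem regimeA2 {W : Type} [Fintype W] (R : W → W → Prop) (hbal : ∀ w, outd R w = indg R w)
    (hloop : ∀ w, ¬ R w w) (hne : ∃ u v, R u v) (d ε : ℕ) (hε : ε ≤ 1)
    (hn : Fintype.card W + ε = 2 * d)
    (hρ : 2 * (2 * d) ≤ ∑ w, outd R w + ε * (2 * d) + (∑ w, outd R w) % 2)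
    (K1 K2 : W → Prop) (hd12 : ∀ w, ¬ (K1 w ∧ K2 w)) (hK1 : Cl R K1) (hK2 : Cl R K2)
    (h1 : sumOn K1 (outd R) % 2 = 1) (h2 : sumOn K2 (outd R) % 2 = 1) :
    Good R (Fin (2 * d)) := by
  have t1 := three_le R hbal hloop K1 hK1 h1
  have t2 := three_le R hbal hloop K2 hK2 h2
  have t3 : cnt K1 + cnt K2 ≤ Fintype.card W := by
    rw [← cnt_or hd12]; exact cnt_le_card _
  have hr : ∀ w, outd R w + 4 ≤ Fintype.card W := by
    intro w
    by_cases h : K1 w
    · have := outd_add_cnt R hloop K2 hK2 w (fun h' => hd12 w ⟨h, h'⟩)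
      omega
    · have := outd_add_cnt R hloop K1 hK1 w h
      omega
  obtain ⟨c, rfl⟩ : ∃ c, d = c + 1 := ⟨d - 1, by omega⟩
  have hB := regimeB R hbal hloop hne c 2 ε (by omega) hε (by omega) (by omega) (by omega)
    (by omega) (by intro w; have := hr w; omega) (by
      rw [Finset.sum_eq_zero (fun w _ => by have := hr w; omega)]
      omega) (by
      have e1 : ε * (2 * (c + 1)) = ε * (2 * c) + 2 * ε := by ring
      omega)
  exact hB.equiv (finCongr (by omega))

theorem regimeA {W : Type} [Fintype W] (R : W → W → Prop) (hbal : ∀ w, outd R w = indg R w)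
    (hloop : ∀ w, ¬ R w w) (hne : ∃ u v, R u v) (d ε : ℕ) (hd : 1 ≤ d) (hε : ε ≤ 1)
    (hn : Fintype.card W + ε = 2 * d)
    (hρ : 2 * (2 * d) ≤ ∑ w, outd R w + ε * (2 * d) + (∑ w, outd R w) % 2) :
    Good R (Fin (2 * d)) := by
  classical
  have hlt : ∀ w, outd R w < 2 * d := by
    intro w
    have := outd_lt_card R hloop w
    omega
  have hclAB : ∀ A B : W → Prop, Closed R (2 * d) A B → Cl R A := by
    intro A B h u v huv
    rw [h.1 u v huv, ← h.2 v (hlt v)]
  have hE : ∑ w, (2 * d - outd R w) + ∑ w, outd R w + ε * (2 * d) = 2 * d * (2 * d) := by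
    rw [← Finset.sum_add_distrib, Finset.sum_congr rfl (g := fun _ => 2 * d) (fun w _ => by
      have := hlt w; omega)]
    simp only [Finset.sum_const, Finset.card_univ, smul_eq_mul]
    rw [← Nat.add_mul, hn]
  have hsq : 2 * d * (2 * d) = 2 * d * (2 * d - 2) + 2 * (2 * d) := by
    obtain ⟨c, rfl⟩ : ∃ c, d = c + 1 := ⟨d - 1, by omega⟩
    have : 2 * (c + 1) - 2 = 2 * c := by omega
    rw [this]; ring
  have heven : (2 * d * (2 * d)) % 2 = 0 := by rw [mul_assoc]; exact Nat.mul_mod_right _ _
  have heven2 : (ε * (2 * d)) % 2 = 0 := by rw [mul_left_comm]; exact Nat.mul_mod_right _ _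
  have hpar : ∀ A : W → Prop, (sumOn A (fun w => 2 * d - outd R w) + sumOn A (outd R)) % 2 = 0 := by
    intro A
    have h1 : sumOn A (fun w => 2 * d - outd R w) + sumOn A (outd R) = cnt A * (2 * d) := by
      rw [← sumOn_const, ← sumOn_add]
      apply sumOn_congr (fun _ => Iff.rfl)
      intro w _
      have := hlt w
      omega
    rw [h1, mul_left_comm]; exact Nat.mul_mod_right _ _
  rcases Nat.mod_two_eq_zero_or_one (∑ w, outd R w) with h0 | h0
  · by_cases hall : ∀ A : W → Prop, Cl R A → sumOn A (outd R) % 2 = 0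
    · apply good_even R d hd hne hbal (fun w => (hlt w).le) (by omega)
      intro A B hcl
      have h1 := hall A (hclAB A B hcl)
      have h2 := hpar A
      rw [Nat.even_iff]
      omega
    · push Not at hall
      obtain ⟨A, hA, hA1⟩ := hall
      have h1 := sumOn_not A (outd R)
      exact regimeA2 R hbal hloop hne d ε hε hn hρ A (fun w => ¬ A w) (fun w h => h.2 h.1) hA
        (fun u v huv => not_congr (hA u v huv)) (by omega) (by omega)
  · by_cases hall : ∃ w0 : W, ∀ A : W → Prop, Cl R A → (sumOn A (outd R) + b2n (A w0)) % 2 = 0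
    · obtain ⟨w0, hw0⟩ := hall
      apply good_odd R d hd w0 (hloop w0) (hlt w0) hbal (fun w => (hlt w).le) (by omega)
      intro A B hcl
      have h1 := hw0 A (hclAB A B hcl)
      have h2 := hpar A
      rw [Nat.even_iff]
      omega
    · push Not at hall
      -- a minimal odd closed set
      have hex : ∃ n, ∃ A : W → Prop, Cl R A ∧ sumOn A (outd R) % 2 = 1 ∧ cnt A = n :=
        ⟨_, fun _ => True, fun _ _ _ => Iff.rfl, by rw [sumOn_univ]; exact h0, rfl⟩
      obtain ⟨A0, hA0, hA01, hA0n⟩ := Nat.find_spec hex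
      have hmin : ∀ A : W → Prop, Cl R A → sumOn A (outd R) % 2 = 1 → cnt A0 ≤ cnt A := by
        intro A h1 h2
        rw [hA0n]
        exact Nat.find_min' hex ⟨A, h1, h2, rfl⟩
      have t1 := three_le R hbal hloop A0 hA0 hA01
      obtain ⟨w0, hw0⟩ := cnt_pos.1 (show 0 < cnt A0 by omega)
      obtain ⟨A, hA, hA1⟩ := hall w0
      -- an odd closed set not containing w0
      obtain ⟨K, hK, hKw, hK1⟩ : ∃ K : W → Prop, Cl R K ∧ ¬ K w0 ∧ sumOn K (outd R) % 2 = 1 := by
        by_cases h : A w0
        · rw [b2n_pos h] at hA1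
          have h1 := sumOn_not A (outd R)
          exact ⟨fun w => ¬ A w, fun u v huv => not_congr (hA u v huv), fun h' => h' h, by omega⟩
        · rw [b2n_neg h] at hA1
          exact ⟨A, hA, h, by omega⟩
      have hKA : sumOn (fun w => K w ∧ A0 w) (outd R) % 2 = 0 := by
        by_contra hcon
        have h1 := hmin (fun w => K w ∧ A0 w)
          (fun u v huv => and_congr (hK u v huv) (hA0 u v huv)) (by omega)
        have h2 : cnt (fun w => (K w ∧ A0 w) ∨ w = w0) ≤ cnt A0 := by
          apply cnt_mono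
          rintro w (h | rfl)
          · exact h.2
          · exact hw0
        rw [cnt_or, cnt_self] at h2
        · omega
        · rintro w ⟨⟨h3, _⟩, rfl⟩
          exact hKw h3
      have hKB : sumOn (fun w => K w ∧ A0 w) (outd R) + sumOn (fun w => K w ∧ ¬ A0 w) (outd R) =
          sumOn K (outd R) := by
        unfold sumOn
        rw [← Finset.sum_add_distrib]
        apply Finset.sum_congr rfl
        intro w _
        rw [← Nat.add_mul]
        congr 1
        by_cases h1 : K w <;> by_cases h2 : A0 w <;> simp [h1, h2]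
      exact regimeA2 R hbal hloop hne d ε hε hn hρ A0 (fun w => K w ∧ ¬ A0 w)
        (fun w h => h.2.2 h.1) hA0
        (fun u v huv => and_congr (hK u v huv) (not_congr (hA0 u v huv))) hA01 (by omega)

end Pool.Agent.Helper40.SSQ
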