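import Mathlib
import Pool.Agent.Helper40.SSQ.Defs
import Pool.Agent.Helper32.SSQ.Birkhoff

set_option autoImplicit false

/-!
Module L: completion of a star.
-/

namespace Pool.Agent.Helper40.SSQ

open Finset

namespace StarAux

/-- the colours. -/
abbrev Cl (a m : ℕ) : Type := Bool ⊕ ((Fin a × Bool) ⊕ Fin m)

/-- the triples on the colours and the centre `none`. -/
inductive P (a m : ℕ) : Option (Cl a m) → Option (Cl a m) → Option (Cl a m) → Prop
  | i (b : Bool) : P a m (some (.inl b)) (some (.inl b)) (some (.inl b))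
  | b0 : P a m none (some (.inl false)) (some (.inl true))
  | b1 : P a m (some (.inl false)) (some (.inl true)) none
  | b2 : P a m (some (.inl true)) none (some (.inl false))
  | x (j : Fin a) : P a m (some (.inr (.inl (j, false)))) (some (.inr (.inl (j, false))))
      (some (.inr (.inl (j, false))))
  | y0 (j : Fin a) : P a m (some (.inr (.inl (j, true)))) (some (.inr (.inl (j, true))))
      (some (.inr (.inl (j, false))))
  | y1 (j : Fin a) : P a m (some (.inr (.inl (j, true)))) (some (.inr (.inl (j, false))))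
      (some (.inr (.inl (j, true))))
  | y2 (j : Fin a) : P a m (some (.inr (.inl (j, false)))) (some (.inr (.inl (j, true))))
      (some (.inr (.inl (j, true))))
  | z0 (j : Fin m) : P a m (some (.inr (.inr j))) (some (.inr (.inr j))) none
  | z1 (j : Fin m) : P a m (some (.inr (.inr j))) none (some (.inr (.inr j)))
  | z2 (j : Fin m) : P a m none (some (.inr (.inr j))) (some (.inr (.inr j)))

/-- the pairs covered by `P`. -/
def q (a m : ℕ) : Option (Cl a m) → Option (Cl a m) → Prop
  | none, none => False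
  | none, some (.inl b) => b = false
  | none, some (.inr (.inl _)) => False
  | none, some (.inr (.inr _)) => True
  | some (.inl b), none => b = true
  | some (.inl b), some (.inl b') => b' = b ∨ (b = false ∧ b' = true)
  | some (.inl _), some (.inr _) => False
  | some (.inr (.inl _)), none => False
  | some (.inr (.inl _)), some (.inl _) => False
  | some (.inr (.inl (i, _))), some (.inr (.inl (j, _))) => i = j
  | some (.inr (.inl _)), some (.inr (.inr _)) => False
  | some (.inr (.inr _)), none => True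
  | some (.inr (.inr _)), some (.inl _) => False
  | some (.inr (.inr _)), some (.inr (.inl _)) => False
  | some (.inr (.inr i)), some (.inr (.inr j)) => i = j

theorem P_pss (a m : ℕ) : PSS (P a m) := by
  refine ⟨?_, ?_⟩
  · intro x y z h
    cases h <;> constructor
  · intro x y z z' h h'
    cases h <;> cases h' <;> rfl

theorem P_dom (a m : ℕ) (x y : Option (Cl a m)) : Dom (P a m) x y ↔ q a m x y := by
  constructor
  · rintro ⟨z, h⟩
    cases h <;> simp [q]
  · intro h
    rcases x with _ | (b | ⟨i, b⟩ | i) <;> rcases y with _ | (b' | ⟨j, b'⟩ | j) <;>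
      simp only [q] at h
    · subst h; exact ⟨_, .b0⟩
    · exact ⟨_, .z2 j⟩
    · subst h; exact ⟨_, .b2⟩
    · rcases h with h | ⟨h, h'⟩
      · subst h; exact ⟨_, .i _⟩
      · subst h; subst h'; exact ⟨_, .b1⟩
    · subst h
      rcases b with _ | _ <;> rcases b' with _ | _
      · exact ⟨_, .x i⟩
      · exact ⟨_, .y2 i⟩
      · exact ⟨_, .y1 i⟩
      · exact ⟨_, .y0 i⟩
    · exact ⟨_, .z1 i⟩
    · subst h; exact ⟨_, .z0 i⟩

/-- the multiplicities. -/
noncomputable def mult (a m : ℕ) (u v : Option (Cl a m)) : ℕ :=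
  if u = none ∧ v = none then m else b2n (¬ q a m u v)

theorem sum_b2n_eq {α : Type} [Fintype α] (x : α) :
    (∑ y : α, b2n (¬ (x = y))) + 1 = Fintype.card α := by
  classical
  have h := cnt_not (fun y : α => x = y)
  have h1 : cnt (fun y : α => x = y) = 1 := cnt_eq_one ⟨x, rfl⟩ (fun w w' h h' => h.symm.trans h')
  rw [h1] at h
  have h2 : 1 + ∑ y : α, b2n (¬ (x = y)) = Fintype.card α := h
  omega

theorem sum_b2n_eq' {α : Type} [Fintype α] (x : α) :
    (∑ y : α, b2n (¬ (y = x))) + 1 = Fintype.card α := by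
  rw [← sum_b2n_eq x]
  congr 1
  apply Finset.sum_congr rfl
  intro y _
  exact b2n_congr (not_congr eq_comm)

theorem sum_out (a m : ℕ) (u : Option (Cl a m)) : ∑ v, mult a m u v = 2 * a + 1 + m := by
  classical
  rcases u with _ | (b | ⟨i, b⟩ | i)
  · simp [mult, q, Fintype.sum_option, Fintype.sum_sum_type, Fintype.sum_prod_type]
    ring
  · rcases b with _ | _
    · simp [mult, q, Fintype.sum_option, Fintype.sum_sum_type, Fintype.sum_prod_type]
      ring
    · simp [mult, q, Fintype.sum_option, Fintype.sum_sum_type, Fintype.sum_prod_type]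
      ring
  · have h := sum_b2n_eq i
    simp only [Fintype.card_fin] at h
    simp only [mult, q, Fintype.sum_option, Fintype.sum_sum_type, Fintype.sum_prod_type,
      Fintype.sum_bool, Finset.sum_add_distrib, reduceCtorEq, false_and, and_false, if_false,
      not_false_eq_true, b2n_true, Finset.sum_const, Finset.card_univ, Fintype.card_fin]
    simp [← Finset.mul_sum]
    omega
  · have h := sum_b2n_eq i
    simp only [Fintype.card_fin] at h
    simp only [mult, q, Fintype.sum_option, Fintype.sum_sum_type, Fintype.sum_prod_type,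
      Fintype.sum_bool, Finset.sum_add_distrib, reduceCtorEq, false_and, and_false, if_false,
      not_false_eq_true, b2n_true, Finset.sum_const, Finset.card_univ, Fintype.card_fin]
    simp [← Finset.mul_sum]
    omega

theorem sum_in (a m : ℕ) (v : Option (Cl a m)) : ∑ u, mult a m u v = 2 * a + 1 + m := by
  classical
  rcases v with _ | (b | ⟨i, b⟩ | i)
  · simp [mult, q, Fintype.sum_option, Fintype.sum_sum_type, Fintype.sum_prod_type]
    ring
  · rcases b with _ | _
    · simp [mult, q, Fintype.sum_option, Fintype.sum_sum_type, Fintype.sum_prod_type]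
      ring
    · simp [mult, q, Fintype.sum_option, Fintype.sum_sum_type, Fintype.sum_prod_type]
      ring
  · have h := sum_b2n_eq' i
    simp only [Fintype.card_fin] at h
    simp only [mult, q, Fintype.sum_option, Fintype.sum_sum_type, Fintype.sum_prod_type,
      Fintype.sum_bool, Finset.sum_add_distrib, reduceCtorEq, false_and, and_false, if_false,
      not_false_eq_true, b2n_true, Finset.sum_const, Finset.card_univ, Fintype.card_fin]
    simp [← Finset.mul_sum]
    omega
  · have h := sum_b2n_eq' i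
    simp only [Fintype.card_fin] at h
    simp only [mult, q, Fintype.sum_option, Fintype.sum_sum_type, Fintype.sum_prod_type,
      Fintype.sum_bool, Finset.sum_add_distrib, reduceCtorEq, false_and, and_false, if_false,
      not_false_eq_true, b2n_true, Finset.sum_const, Finset.card_univ, Fintype.card_fin]
    simp [← Finset.mul_sum]
    omega

end StarAux

open StarAux in
theorem star {W : Type} [Fintype W] (R : W → W → Prop) (τ : W) (Y : W → Prop) (hτ : ¬ Y τ)
    (hR : ∀ u v, R u v ↔ (u = τ ∧ Y v) ∨ (v = τ ∧ Y u)) (a : ℕ) (ha : cnt Y = 2 * a + 1) :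
    Good R (Fin (Fintype.card W)) := by
  classical
  have hcard : 2 * a + 2 ≤ Fintype.card W := by
    have h1 := cnt_not Y
    have h2 : 0 < cnt (fun w => ¬ Y w) := cnt_pos.2 ⟨τ, hτ⟩
    omega
  obtain ⟨m, hm⟩ : ∃ m, Fintype.card W = 2 * a + 2 + m := ⟨_, (Nat.add_sub_cancel' hcard).symm⟩
  have hcl : Fintype.card (Cl a m) = Fintype.card W := by
    simp [Cl, hm]; ring
  apply Good.equiv (C := Cl a m) (Fintype.equivFinOfCardEq hcl)
  obtain ⟨π, hπ, hc⟩ := Pool.Agent.Helper32.SSQ.birkhoff (mult a m) (2 * a + 1 + m)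
    (sum_out a m) (sum_in a m)
  -- the labels of the colours
  have hcW : Fintype.card {w : W // w ≠ τ} = 2 * a + 1 + m := by
    have h1 : Fintype.card {w : W // w ≠ τ} = Fintype.card W - 1 := by
      have := Fintype.card_subtype_compl (fun w : W => w = τ)
      simpa using this
    omega
  obtain ⟨ω, hω⟩ := Pool.Agent.Helper32.SSQ.equiv_pred (α := Fin (2 * a + 1 + m))
    (β := {w : W // w ≠ τ}) (fun i => π i none ≠ none) (fun w => Y w.1) (by
      have h1 : (univ.filter (fun i => π i none = none)).card = m := by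
        rw [hc]; simp [mult]
      have h2 := Finset.card_filter_add_card_filter_not (s := (univ : Finset (Fin (2 * a + 1 + m))))
        (fun i => π i none = none)
      rw [h1] at h2
      simp only [Finset.card_univ, Fintype.card_fin] at h2
      have h3 : (univ.filter (fun i => π i none ≠ none)).card = 2 * a + 1 := by
        have : (univ.filter (fun i => π i none ≠ none)).card =
          (univ.filter (fun i => ¬ π i none = none)).card := rfl
        omega
      rw [h3, ← ha, cnt_eq_card]
      apply Finset.card_nbij' (i := fun w => if h : w ≠ τ then (⟨w, h⟩ : {w : W // w ≠ τ}) else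
        (if h' : ∃ x : W, x ≠ τ then ⟨h'.choose, h'.choose_spec⟩ else
          (Fintype.equivOfCardEq (β := {w : W // w ≠ τ}) (α := Fin (2 * a + 1 + m)) (by
            rw [hcW]; simp)) ⟨0, by omega⟩)) (j := fun x => x.1)
      · intro w hw
        simp only [Finset.coe_filter, Finset.mem_univ, true_and, Set.mem_ofPred_eq] at hw ⊢
        have hwτ : w ≠ τ := fun h => hτ (h ▸ hw)
        rw [dif_pos hwτ]
        exact hw
      · intro x hx
        simp only [Finset.coe_filter, Finset.mem_univ, true_and, Set.mem_ofPred_eq] at hx ⊢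
        exact hx
      · intro w hw
        simp only [Finset.coe_filter, Finset.mem_univ, true_and, Set.mem_ofPred_eq] at hw ⊢
        have hwτ : w ≠ τ := fun h => hτ (h ▸ hw)
        rw [dif_pos hwτ]
      · intro x hx
        dsimp only
        rw [dif_pos x.2]) (by rw [hcW]; simp)
  -- the system
  let ι : Option (Cl a m) → W ⊕ Cl a m := fun o => match o with
    | none => .inl τ
    | some c => .inr c
  have hι : Function.Injective ι := by
    intro x y h
    rcases x with _ | x <;> rcases y with _ | y <;> simp_all [ι]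
  have hιω : ∀ x i, ι x ≠ .inl (ω i).1 := by
    intro x i h
    rcases x with _ | x
    · exact (ω i).2 (Sum.inl_injective h).symm
    · simp [ι] at h
  have hιw : ∀ x w, ι x = .inl w → x = none ∧ w = τ := by
    intro x w h
    rcases x with _ | x
    · exact ⟨rfl, (Sum.inl_injective h).symm⟩
    · simp [ι] at h
  let T1 : (W ⊕ Cl a m) → (W ⊕ Cl a m) → (W ⊕ Cl a m) → Prop := fun x y z =>
    ∃ u v w, P a m u v w ∧ x = ι u ∧ y = ι v ∧ z = ι w
  let T2 : (W ⊕ Cl a m) → (W ⊕ Cl a m) → (W ⊕ Cl a m) → Prop := fun x y z =>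
    ∃ i u, ¬ (u = none ∧ π i u = none) ∧
      ((x = ι u ∧ y = ι (π i u) ∧ z = .inl (ω i).1) ∨
       (x = ι (π i u) ∧ y = .inl (ω i).1 ∧ z = ι u) ∨
       (x = .inl (ω i).1 ∧ y = ι u ∧ z = ι (π i u)))
  have hq : ∀ i u, ¬ (u = none ∧ π i u = none) → ¬ q a m u (π i u) := by
    intro i u h hqu
    have h1 := hc u (π i u)
    simp only [mult, if_neg h, b2n_neg (not_not.2 hqu)] at h1
    rw [Finset.card_eq_zero, Finset.filter_eq_empty_iff] at h1
    exact h1 (Finset.mem_univ i) rfl
  have huniq : ∀ i i' u, ¬ (u = none ∧ π i u = none) → π i u = π i' u → i = i' := by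
    intro i i' u h he
    have h1 := hc u (π i u)
    simp only [mult, if_neg h, b2n_pos (hq i u h)] at h1
    obtain ⟨x, hx⟩ := Finset.card_eq_one.1 h1
    have m1 : i ∈ univ.filter (fun j => π j u = π i u) := by simp
    have m2 : i' ∈ univ.filter (fun j => π j u = π i u) := by simp [he]
    rw [hx, Finset.mem_singleton] at m1 m2
    rw [m1, m2]
  have hex : ∀ u v, ¬ (u = none ∧ v = none) → ¬ q a m u v → ∃ i, π i u = v := by
    intro u v h hqu
    have h1 := hc u v
    simp only [mult, if_neg h, b2n_pos hqu] at h1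
    obtain ⟨x, hx⟩ := Finset.card_eq_one.1 h1
    have m1 : x ∈ univ.filter (fun j => π j u = v) := by rw [hx]; simp
    exact ⟨x, by simpa using m1⟩
  have hT1 : PSS T1 := by
    refine ⟨?_, ?_⟩
    · rintro x y z ⟨u, v, w, h, rfl, rfl, rfl⟩
      exact ⟨v, w, u, (P_pss a m).rot _ _ _ h, rfl, rfl, rfl⟩
    · rintro x y z z' ⟨u, v, w, h, rfl, rfl, rfl⟩ ⟨u', v', w', h', h1, h2, rfl⟩
      have e1 := hι h1
      have e2 := hι h2
      subst e1; subst e2
      rw [(P_pss a m).func _ _ _ _ h h']
  have hT2 : PSS T2 := by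
    refine ⟨?_, ?_⟩
    · rintro x y z ⟨i, u, h, h' | h' | h'⟩
      · exact ⟨i, u, h, Or.inr (Or.inl ⟨h'.2.1, h'.2.2, h'.1⟩)⟩
      · exact ⟨i, u, h, Or.inr (Or.inr ⟨h'.2.1, h'.2.2, h'.1⟩)⟩
      · exact ⟨i, u, h, Or.inl ⟨h'.2.1, h'.2.2, h'.1⟩⟩
    · rintro x y z z' ⟨i, u, h, ⟨h1, h2, h3⟩ | ⟨h1, h2, h3⟩ | ⟨h1, h2, h3⟩⟩
        ⟨i', u', h', ⟨k1, k2, k3⟩ | ⟨k1, k2, k3⟩ | ⟨k1, k2, k3⟩⟩
      · have e1 := hι (h1.symm.trans k1)
        subst e1
        have e2 := hι (h2.symm.trans k2)
        have e3 := huniq i i' u h e2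
        subst e3
        rw [h3, k3]
      · exact absurd (h2.symm.trans k2) (hιω _ _)
      · exact absurd (h1.symm.trans k1) (hιω _ _)
      · exact absurd (k2.symm.trans h2) (hιω _ _)
      · have e1 : i = i' := ω.injective (Subtype.ext (Sum.inl_injective (h2.symm.trans k2)))
        subst e1
        have e2 := (hπ i).1 (hι (h1.symm.trans k1))
        subst e2
        rw [h3, k3]
      · exact absurd (h1.symm.trans k1) (hιω _ _)
      · exact absurd (k1.symm.trans h1) (hιω _ _)
      · exact absurd (k1.symm.trans h1) (hιω _ _)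
      · have e1 : i = i' := ω.injective (Subtype.ext (Sum.inl_injective (h1.symm.trans k1)))
        subst e1
        have e2 := hι (h2.symm.trans k2)
        subst e2
        rw [h3, k3]
  have hdis : ∀ x y, Dom T1 x y → ¬ Dom T2 x y := by
    rintro x y ⟨z, u, v, w, h, rfl, rfl, rfl⟩ ⟨z', i, u', h', ⟨k1, k2, k3⟩ | ⟨k1, k2, k3⟩ | ⟨k1, k2, k3⟩⟩
    · have e1 := hι k1
      subst e1
      have e2 := hι k2
      subst e2
      exact hq _ _ h' ((P_dom a m _ _).1 ⟨_, h⟩)
    · exact hιω _ _ k2
    · exact hιω _ _ k1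
  refine ⟨fun x y z => T1 x y z ∨ T2 x y z, PSS.union hT1 hT2 hdis, ?_⟩
  intro x y
  rw [Dom_union]
  have hcov : ∀ u v, ¬ (u = none ∧ v = none) → Dom T1 (ι u) (ι v) ∨ Dom T2 (ι u) (ι v) := by
    intro u v h
    by_cases hqu : q a m u v
    · left
      obtain ⟨w, hw⟩ := (P_dom a m u v).2 hqu
      exact ⟨_, u, v, w, hw, rfl, rfl, rfl⟩
    · right
      obtain ⟨i, rfl⟩ := hex u v h hqu
      exact ⟨_, i, u, h, Or.inl ⟨rfl, rfl, rfl⟩⟩
  rcases x with x | x <;> rcases y with y | y
  · simp only [G]
    rw [hR]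
    constructor
    · rintro (⟨z, u, v, w, h, h1, h2, h3⟩ | ⟨z, i, u, h, ⟨h1, h2, h3⟩ | ⟨h1, h2, h3⟩ | ⟨h1, h2, h3⟩⟩)
      · obtain ⟨e1, _⟩ := hιw _ _ h1.symm
        obtain ⟨e2, _⟩ := hιw _ _ h2.symm
        subst e1; subst e2
        have := (P_dom a m _ _).1 ⟨_, h⟩
        simp [q] at this
      · obtain ⟨e1, _⟩ := hιw _ _ h1.symm
        obtain ⟨e2, _⟩ := hιw _ _ h2.symm
        exact absurd ⟨e1, e2⟩ h
      · obtain ⟨e1, e1'⟩ := hιw _ _ h1.symm
        left
        refine ⟨e1', ?_⟩
        rw [Sum.inl_injective h2, hω]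
        intro hn
        have : u = none := (hπ i).1 (e1.trans hn.symm)
        exact h ⟨this, e1⟩
      · obtain ⟨e1, e1'⟩ := hιw _ _ h2.symm
        right
        refine ⟨e1', ?_⟩
        rw [Sum.inl_injective h1, hω]
        intro hn
        subst e1
        exact h ⟨rfl, hn⟩
    · rintro (⟨rfl, hY⟩ | ⟨rfl, hY⟩)
      · right
        have hyτ : y ≠ x := fun h => hτ (h ▸ hY)
        obtain ⟨i, hi⟩ := ω.surjective ⟨y, hyτ⟩
        obtain ⟨u, hu⟩ := (hπ i).2 none
        have hY' : Y (ω i).1 := by rw [hi]; exact hY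
        rw [hω] at hY'
        refine ⟨_, i, u, ?_, Or.inr (Or.inl ⟨?_, ?_, rfl⟩)⟩
        · rintro ⟨rfl, h2⟩
          exact hY' h2
        · rw [hu]
        · rw [hi]
      · right
        have hyτ : x ≠ y := fun h => hτ (h ▸ hY)
        obtain ⟨i, hi⟩ := ω.surjective ⟨x, hyτ⟩
        have hY' : Y (ω i).1 := by rw [hi]; exact hY
        rw [hω] at hY'
        refine ⟨_, i, none, ?_, Or.inr (Or.inr ⟨?_, ?_, rfl⟩)⟩
        · rintro ⟨_, h2⟩
          exact hY' h2
        · rw [hi]
        · rfl
  · simp only [G, iff_true]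
    by_cases hx : x = τ
    · subst hx
      exact hcov none (some y) (by simp)
    · right
      obtain ⟨i, hi⟩ := ω.surjective ⟨x, hx⟩
      exact ⟨_, i, some y, by simp, Or.inr (Or.inr ⟨by rw [hi], rfl, rfl⟩)⟩
  · simp only [G, iff_true]
    by_cases hy : y = τ
    · subst hy
      exact hcov (some x) none (by simp)
    · right
      obtain ⟨i, hi⟩ := ω.surjective ⟨y, hy⟩
      obtain ⟨u, hu⟩ := (hπ i).2 (some x)
      refine ⟨_, i, u, ?_, Or.inr (Or.inl ⟨?_, by rw [hi], rfl⟩)⟩
      · rw [hu]; simp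
      · rw [hu]
  · simp only [G, iff_true]
    exact hcov (some x) (some y) (by simp)

end Pool.Agent.Helper40.SSQ
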