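import Mathlib
import Pool.Agent.Helper40.SSQ.Defs

set_option autoImplicit false

/-!
Structure of the undefined pairs of a maximal system (Module N).
-/

namespace Pool.Agent.Helper40.SSQ

open Finset

section N
variable {W : Type} [Fintype W] (R : W → W → Prop) (hbal : ∀ w, outd R w = indg R w)
  (h3 : ∀ x y z, ¬ (R x y ∧ R y z ∧ R z x))

/-- if `p` implies `q` and `cnt p = cnt q` then `p` and `q` are equivalent. -/
theorem iff_of_cnt_eq {W : Type} [Fintype W] {p q : W → Prop} (h : ∀ w, p w → q w)
    (hc : cnt q ≤ cnt p) (w : W) : p w ↔ q w := by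
  classical
  rw [cnt_eq_card, cnt_eq_card] at hc
  have h1 : univ.filter p ⊆ univ.filter q := by
    intro w hw
    simp only [Finset.mem_filter, Finset.mem_univ, true_and] at hw ⊢
    exact h w hw
  have h2 := Finset.eq_of_subset_of_card_le h1 hc
  have h3 : w ∈ univ.filter p ↔ w ∈ univ.filter q := by rw [h2]
  simpa using h3

omit [Fintype W] in
include h3 in
theorem loopless (x : W) : ¬ R x x := fun h => h3 x x x ⟨h, h, h⟩

include hbal in
theorem outd_pos_of_in {u v : W} (h : R u v) : 1 ≤ outd R v := by
  rw [hbal v]
  exact cnt_pos.2 ⟨u, h⟩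

theorem outd_pos_of_out {u v : W} (h : R u v) : 1 ≤ outd R u := cnt_pos.2 ⟨v, h⟩

theorem exists_out {u : W} (h : 1 ≤ outd R u) : ∃ v, R u v := cnt_pos.1 h

include hbal in
theorem exists_in {u : W} (h : 1 ≤ outd R u) : ∃ v, R v u := by
  rw [hbal u] at h
  exact cnt_pos.1 h

theorem out_unique {u v v' : W} (h : outd R u = 1) (h1 : R u v) (h2 : R u v') : v = v' :=
  (exists_unique_of_cnt_eq_one h).unique h1 h2

include hbal h3 in
/-- the pointwise lower bound -/
theorem low_bound [DecidableEq W] (w x : W) :
    (if x = w then outd R w else 0) + b2n (R w x) ≤ outd R x := by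
  by_cases hx : x = w
  · subst hx
    rw [if_pos rfl, b2n_neg (loopless R h3 x)]
    exact le_refl _
  · rw [if_neg hx]
    by_cases hr : R w x
    · rw [b2n_pos hr, zero_add]
      exact outd_pos_of_in R hbal hr
    · rw [b2n_neg hr]
      exact Nat.zero_le _

theorem low_sum [DecidableEq W] (w : W) :
    ∑ x, ((if x = w then outd R w else 0) + b2n (R w x)) = 2 * outd R w := by
  rw [Finset.sum_add_distrib, Finset.sum_ite_eq' univ w (fun _ => outd R w), if_pos (mem_univ w),
    two_mul]
  rfl

include hbal h3

theorem two_mul_le (w : W) : 2 * outd R w ≤ ∑ x, outd R x := by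
  classical
  rw [← low_sum R w]
  exact Finset.sum_le_sum (fun x _ => low_bound R hbal h3 w x)

theorem eq_star (τ : W) (h : 2 * outd R τ = ∑ x, outd R x) :
    ∀ u v, R u v ↔ (u = τ ∧ R τ v) ∨ (v = τ ∧ R τ u) := by
  classical
  rw [← low_sum R τ] at h
  have hpt : ∀ x, (if x = τ then outd R τ else 0) + b2n (R τ x) = outd R x := by
    intro x
    exact (Finset.sum_eq_sum_iff_of_le (fun x _ => low_bound R hbal h3 τ x)).1 h x (mem_univ x)
  have hin : ∀ x, R x τ → R τ x := by
    intro x hx
    have h1 := outd_pos_of_out R hx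
    have h2 := hpt x
    have h3' : x ≠ τ := by
      rintro rfl
      exact loopless R h3 _ hx
    rw [if_neg h3', zero_add] at h2
    by_contra hn
    rw [b2n_neg hn] at h2
    omega
  have hiff : ∀ x, R x τ ↔ R τ x := by
    intro x
    apply iff_of_cnt_eq (p := fun x => R x τ) (q := fun x => R τ x) hin
    have := hbal τ
    unfold outd indg at this
    omega
  intro u v
  constructor
  · intro huv
    by_cases hu : u = τ
    · subst hu
      exact Or.inl ⟨rfl, huv⟩
    · right
      have h1 := outd_pos_of_out R huv
      have h2 := hpt u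
      rw [if_neg hu, zero_add] at h2
      have h4 : R τ u := by
        by_contra hn
        rw [b2n_neg hn] at h2
        omega
      rw [b2n_pos h4] at h2
      exact ⟨out_unique R h2.symm huv ((hiff u).2 h4), h4⟩
  · rintro (⟨rfl, h1⟩ | ⟨rfl, h1⟩)
    · exact h1
    · exact (hiff u).2 h1

theorem five_struct (h : ∑ x, outd R x = 5) :
    (∀ w, outd R w ≤ 1) ∧ ∃ a p q c : W, R a p ∧ R p q ∧ R q c ∧ a ≠ p ∧ a ≠ q ∧ a ≠ c ∧
      p ≠ q ∧ p ≠ c ∧ q ≠ c := by
  classical
  have hle : ∀ w, outd R w ≤ 1 := by
    intro τ
    by_contra hcon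
    have h2 := two_mul_le R hbal h3 τ
    have hτ : outd R τ = 2 := by omega
    have hsum := low_sum R τ
    -- the remainder
    have hrem : ∑ x, (outd R x - ((if x = τ then outd R τ else 0) + b2n (R τ x))) = 1 := by
      have h5 : ∑ x, (outd R x - ((if x = τ then outd R τ else 0) + b2n (R τ x))) +
          ∑ x, ((if x = τ then outd R τ else 0) + b2n (R τ x)) = ∑ x, outd R x := by
        rw [← Finset.sum_add_distrib]
        apply Finset.sum_congr rfl
        intro x _
        have := low_bound R hbal h3 τ x
        omega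
      rw [hsum, h] at h5
      omega
    obtain ⟨z, hz⟩ : ∃ z, (outd R z - ((if z = τ then outd R τ else 0) + b2n (R τ z))) ≠ 0 := by
      by_contra hne
      push Not at hne
      rw [Finset.sum_eq_zero (fun x _ => hne x)] at hrem
      exact absurd hrem (by decide)
    have hz1 : outd R z = ((if z = τ then outd R τ else 0) + b2n (R τ z)) + 1 := by
      have h6 := Finset.single_le_sum (f := fun x => (outd R x - ((if x = τ then outd R τ else 0) +
        b2n (R τ x)))) (fun x _ => Nat.zero_le _) (mem_univ z)
      rw [hrem] at h6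
      have := low_bound R hbal h3 τ z
      omega
    have hoth : ∀ x, x ≠ z → outd R x = ((if x = τ then outd R τ else 0) + b2n (R τ x)) := by
      intro x hx
      have h6 := Finset.add_le_sum (s := univ) (f := fun x => (outd R x - ((if x = τ then outd R τ else 0) +
        b2n (R τ x)))) (fun x _ => Nat.zero_le _) (mem_univ x) (mem_univ z) hx
      rw [hrem] at h6
      have := low_bound R hbal h3 τ x
      omega
    have hzτ : z ≠ τ := by
      rintro rfl
      rw [if_pos rfl, b2n_neg (loopless R h3 z)] at hz1
      omega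
    rw [if_neg hzτ, zero_add] at hz1
    -- members of `X`
    have hX : ∀ x, R x τ → x ≠ z → R τ x := by
      intro x hx hxz
      have h1 := outd_pos_of_out R hx
      have h2 := hoth x hxz
      have h3' : x ≠ τ := by
        rintro rfl
        exact loopless R h3 _ hx
      rw [if_neg h3', zero_add] at h2
      by_contra hn
      rw [b2n_neg hn] at h2
      omega
    have hpos : ∀ x, 1 ≤ outd R x → x ≠ z → x ≠ τ → R τ x ∧ outd R x = 1 := by
      intro x h1 hxz hxτ
      have h2 := hoth x hxz
      rw [if_neg hxτ, zero_add] at h2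
      by_cases hn : R τ x
      · rw [b2n_pos hn] at h2
        exact ⟨hn, h2⟩
      · rw [b2n_neg hn] at h2
        omega
    have hXY : (∀ x, R x τ → R τ x) → ∀ x, R x τ ↔ R τ x := by
      intro hall x
      apply iff_of_cnt_eq (p := fun x => R x τ) (q := fun x => R τ x) hall
      have := hbal τ
      unfold outd indg at this
      omega
    by_cases hzY : R τ z
    · -- case (a)
      have hall : ∀ x, R x τ ↔ R τ x := by
        apply hXY
        intro x hx
        by_cases hxz : x = z
        · rw [hxz]; exact hzY
        · exact hX x hx hxz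
      rw [b2n_pos hzY] at hz1
      have hzt : ∃ t, R z t ∧ t ≠ τ := by
        by_contra hne
        push Not at hne
        have : outd R z = 1 := by
          apply cnt_eq_one ⟨τ, (hall z).2 hzY⟩
          intro w w' hw hw'
          rw [hne w hw, hne w' hw']
        omega
      obtain ⟨t, ht, htτ⟩ := hzt
      have htz : t ≠ z := by
        rintro rfl
        exact loopless R h3 _ ht
      have := (hpos t (outd_pos_of_in R hbal ht) htz htτ).1
      exact h3 τ z t ⟨hzY, ht, (hall t).2 this⟩
    · rw [b2n_neg hzY] at hz1
      have hz1' : outd R z = 1 := by omega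
      obtain ⟨x, hx⟩ := exists_in R hbal (u := z) (by omega)
      have hxz : x ≠ z := by
        rintro rfl
        exact loopless R h3 _ hx
      have hxτ : x ≠ τ := by
        rintro rfl
        exact hzY hx
      obtain ⟨hx1, hx2⟩ := hpos x (outd_pos_of_out R hx) hxz hxτ
      by_cases hzr : R z τ
      · exact h3 τ x z ⟨hx1, hx, hzr⟩
      · have hall : ∀ x, R x τ ↔ R τ x := by
          apply hXY
          intro y hy
          by_cases hyz : y = z
          · rw [hyz] at hy
            exact absurd hy hzr
          · exact hX y hy hyz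
        exact hzτ (out_unique R hx2 hx ((hall x).2 hx1))
  refine ⟨hle, ?_⟩
  -- an arc without reverse
  have hex : ∃ p q, R p q ∧ ¬ R q p := by
    by_contra hne
    push Not at hne
    have hinv : ∑ x : W × W, (b2n (R x.1 x.2) : ZMod 2) = 0 := by
      apply Finset.sum_involution (fun x _ => (x.2, x.1))
      · intro x _
        have : b2n (R x.1 x.2) = b2n (R x.2 x.1) := b2n_congr ⟨hne _ _, hne _ _⟩
        simp only []
        rw [this]
        exact CharTwo.add_self_eq_zero _
      · intro x _ hx hxx
        apply hx
        have h1 : x.2 = x.1 := congrArg Prod.fst hxx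
        rw [h1, b2n_neg (loopless R h3 _)]
        simp
      · intro x _
        exact mem_univ _
      · intro x _
        rfl
    rw [Fintype.sum_prod_type] at hinv
    have h5 : ((∑ x, outd R x : ℕ) : ZMod 2) = 0 := by
      rw [← hinv]
      unfold outd cnt
      push_cast
      rfl
    rw [h] at h5
    revert h5
    decide
  obtain ⟨p, q, hpq, hqp⟩ := hex
  obtain ⟨a, ha⟩ := exists_in R hbal (outd_pos_of_out R hpq)
  obtain ⟨c, hc⟩ := exists_out R (outd_pos_of_in R hbal hpq)
  refine ⟨a, p, q, c, ha, hpq, hc, ?_, ?_, ?_, ?_, ?_, ?_⟩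
  · rintro rfl; exact loopless R h3 _ ha
  · rintro rfl; exact hqp ha
  · rintro rfl; exact h3 a p q ⟨ha, hpq, hc⟩
  · rintro rfl; exact loopless R h3 _ hpq
  · rintro rfl; exact hqp hc
  · rintro rfl; exact loopless R h3 _ hc

theorem full_unique (hn : 3 ≤ Fintype.card W) (u v : W) (hu : outd R u + 1 = Fintype.card W)
    (hv : outd R v + 1 = Fintype.card W) : u = v := by
  classical
  by_contra huv
  have hcard : ∀ u : W, cnt (fun x => x = u) + cnt (fun x => ¬ x = u) = Fintype.card W :=
    fun u => cnt_not _
  have hone : ∀ u : W, cnt (fun x => x = u) = 1 := fun u =>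
    cnt_eq_one ⟨u, rfl⟩ (fun w w' h h' => h.trans h'.symm)
  have hout : ∀ u : W, outd R u + 1 = Fintype.card W → ∀ x, x ≠ u → R u x := by
    intro u hu x hx
    have := iff_of_cnt_eq (p := fun x => R u x) (q := fun x => ¬ x = u)
      (fun x hx hxu => by rw [hxu] at hx; exact loopless R h3 _ hx) (by
        have h1 := hcard u
        have h2 := hone u
        unfold outd at hu
        omega) x
    exact this.2 hx
  have hin : ∀ u : W, outd R u + 1 = Fintype.card W → ∀ x, x ≠ u → R x u := by
    intro u hu x hx
    rw [hbal] at hu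
    have := iff_of_cnt_eq (p := fun x => R x u) (q := fun x => ¬ x = u)
      (fun x hx hxu => by rw [hxu] at hx; exact loopless R h3 _ hx) (by
        have h1 := hcard u
        have h2 := hone u
        unfold indg at hu
        omega) x
    exact this.2 hx
  obtain ⟨z, hz⟩ : ∃ z, z ∉ ({u, v} : Finset W) := by
    by_contra hne
    push Not at hne
    have h1 : (univ : Finset W) ⊆ {u, v} := fun x _ => hne x
    have h2 := Finset.card_le_card h1
    have h4 := Finset.card_le_two (a := u) (b := v)
    rw [Finset.card_univ] at h2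
    omega
  simp only [Finset.mem_insert, Finset.mem_singleton, not_or] at hz
  exact h3 u v z ⟨hout u hu v (fun h => huv h.symm), hout v hv z hz.2, hin u hu z hz.1⟩

end N

end Pool.Agent.Helper40.SSQ
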