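import Mathlib
import Pool.Agent.Helper40.SSQ.Defs
import Pool.Agent.Helper40.SSQ.RegimesA
import Pool.Agent.Helper40.SSQ.Star
import Pool.Agent.Helper40.SSQ.KFour
import Pool.Agent.Helper40.SSQ.Struct
import Pool.Agent.Helper4.SSQ.KThree

set_option autoImplicit false

namespace Pool.Agent.Helper40.SSQ

open Finset

/-- nothing undefined -/
theorem good_empty {W : Type} [Fintype W] (R : W → W → Prop) (hR : ∀ u v, ¬ R u v) (ε : ℕ)
    (hε : ε ≤ 1) : Good R (Fin (Fintype.card W + ε)) := by
  have hsum : ∑ _w : W, (Fintype.card W + ε) + ε * (Fintype.card W + ε) =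
      (Fintype.card W + ε) * (Fintype.card W + ε) := by
    simp only [Finset.sum_const, Finset.card_univ, smul_eq_mul]; ring
  obtain ⟨N, h1, h2, h3, h4, h5, h6, h7⟩ := deferral R (Fintype.card W + ε) 0 ε hε rfl
    (fun _ => Fintype.card W + ε) (fun _ => le_rfl) hsum
  have hN : ∀ x y, ¬ N x y := by
    rintro (u | a) (v | b)
    · rw [h1]; exact hR u v
    · have e : cnt (fun b => N (.inl u) (.inr b)) = 0 := by have := h3 u; omega
      exact cnt_eq_zero.1 e b
    · have e : cnt (fun b => N (.inr b) (.inl v)) = 0 := by have := h4 v; omega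
      exact cnt_eq_zero.1 e a
    · exact h2 a b
  have hG : Good N (Fin 0) := by
    refine ⟨fun _ _ _ => False, ⟨fun _ _ _ h => h, fun _ _ _ _ h => h.elim⟩, ?_⟩
    rintro (x | x) (y | y)
    · simp only [G, hN, iff_false]
      rintro ⟨_, h⟩; exact h
    · exact y.elim0
    · exact x.elim0
    · exact x.elim0
  exact (h7 _ hG).equiv (Equiv.sumEmpty _ _)

theorem good_five {W : Type} [Fintype W] (R : W → W → Prop) (hbal : ∀ w, outd R w = indg R w)
    (h3 : ∀ x y z, ¬ (R x y ∧ R y z ∧ R z x)) (h : ∑ x, outd R x = 5) :
    Good R (Fin (Fintype.card W)) := by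
  classical
  obtain ⟨hle, a, p, q, c, hap, hpq, hqc, d1, d2, d3, d4, d5, d6⟩ := five_struct R hbal h3 h
  have hn5 : 5 ≤ Fintype.card W := by
    rw [← h]
    calc ∑ x, outd R x ≤ ∑ _x : W, 1 := Finset.sum_le_sum (fun x _ => hle x)
      _ = Fintype.card W := by simp
  have hn6 : ∀ w, outd R w = 0 → 6 ≤ Fintype.card W := by
    intro w hw
    have h1 : ∑ x, (outd R x + b2n (x = w)) ≤ ∑ _x : W, 1 := by
      apply Finset.sum_le_sum
      intro x _
      by_cases hx : x = w
      · subst hx; rw [hw]; simp
      · rw [b2n_neg hx]; exact hle x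
    rw [Finset.sum_add_distrib, h] at h1
    have h2 : ∑ x, b2n (x = w) = 1 := cnt_self w
    simp only [Finset.sum_const, Finset.card_univ, smul_eq_mul, mul_one] at h1
    omega
  obtain ⟨m, hm⟩ : ∃ m, Fintype.card W = m + 3 := ⟨Fintype.card W - 3, by omega⟩
  have hop : outd R p = 1 := le_antisymm (hle p) (cnt_pos.2 ⟨q, hpq⟩)
  have hoq : outd R q = 1 := le_antisymm (hle q) (cnt_pos.2 ⟨c, hqc⟩)
  have hcase : ∀ w, 3 ≤ m + outd R w := by
    intro w
    rcases Nat.eq_zero_or_pos (outd R w) with h0 | h0
    · have := hn6 w h0; omega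
    · omega
  have hpqs : ∑ w, b2n (w = p ∨ w = q) = 2 := by
    have : cnt (fun w => w = p ∨ w = q) = 2 := by
      rw [cnt_or, cnt_self, cnt_self]
      rintro w ⟨h, h'⟩
      exact d4 (h.symm.trans h')
    exact this
  have hg3 : ∀ w, m + outd R w + 2 * b2n (w = p ∨ w = q) - 3 + 3 =
      m + outd R w + 2 * b2n (w = p ∨ w = q) := by
    intro w
    have := hcase w
    omega
  obtain ⟨N, h1, h2, h3', h4, h5, h6, h7⟩ := deferral R m 3 0 (by omega) (by omega)
    (fun w => m + outd R w + 2 * b2n (w = p ∨ w = q) - 3) (by
      intro w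
      by_cases hw : w = p ∨ w = q
      · rw [b2n_pos hw]
        rcases hw with rfl | rfl
        · rw [hop]; omega
        · rw [hoq]; omega
      · rw [b2n_neg hw]
        have := hle w
        omega) (by
      have e1 := Finset.sum_congr rfl (fun w (_ : w ∈ (univ : Finset W)) => hg3 w)
      simp only [Finset.sum_add_distrib, Finset.sum_const, Finset.card_univ, smul_eq_mul,
        ← Finset.mul_sum, h, hpqs, hm] at e1 ⊢
      have e2 : (m + 3) * m = m * m + 3 * m := by ring
      omega)
  have hN : Defer R m 3 (fun w => m + outd R w + 2 * b2n (w = p ∨ w = q) - 3) N :=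
    ⟨h1, h2, h3', h4, h5, h6⟩
  have hkey : Good N (Fin 3) := by
    apply k3v4 N _ (.inl a) (.inl p) (.inl q) (.inl c) ((h1 _ _).2 hap) ((h1 _ _).2 hpq)
      ((h1 _ _).2 hqc)
    · intro e; exact d1 (Sum.inl.inj e)
    · intro e; exact d2 (Sum.inl.inj e)
    · intro e; exact d3 (Sum.inl.inj e)
    · intro e; exact d4 (Sum.inl.inj e)
    · intro e; exact d5 (Sum.inl.inj e)
    · intro e; exact d6 (Sum.inl.inj e)
    · have := hN.outd_inl p
      rw [b2n_pos (Or.inl rfl), hop] at this
      omega
    · have := hN.outd_inl q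
      rw [b2n_pos (Or.inr rfl), hoq] at this
      omega
    · rintro (w | b) hwp hwq
      · have e1 := hN.outd_inl w
        have hw : ¬ (w = p ∨ w = q) := by
          rintro (rfl | rfl)
          · exact hwp rfl
          · exact hwq rfl
        rw [b2n_neg hw] at e1
        have := hcase w
        omega
      · exact hN.outd_inr b
    · rintro (w | b)
      · have e1 := hN.outd_inl w
        have e2 := hN.indg_inl w
        have e3 := hbal w
        omega
      · rw [hN.outd_inr, hN.indg_inr]
  exact (h7 _ hkey).equiv (finSumFinEquiv.trans (finCongr (by omega)))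

theorem good_six {W : Type} [Fintype W] (R : W → W → Prop) (hbal : ∀ w, outd R w = indg R w)
    (h3 : ∀ x y z, ¬ (R x y ∧ R y z ∧ R z x)) (h : ∑ x, outd R x = 6) :
    Good R (Fin (Fintype.card W)) := by
  classical
  have hloop : ∀ w, ¬ R w w := fun w hw => h3 w w w ⟨hw, hw, hw⟩
  have hle : ∀ w, outd R w ≤ 3 := by
    intro w
    have := two_mul_le R hbal h3 w
    omega
  have hlt := outd_lt_card R hloop
  have hn3 : 3 ≤ Fintype.card W := by
    by_contra hcon
    have h1 : ∑ x, outd R x ≤ ∑ _x : W, 1 := Finset.sum_le_sum (fun x _ => by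
      have := hlt x; omega)
    simp only [Finset.sum_const, Finset.card_univ, smul_eq_mul, mul_one] at h1
    omega
  obtain ⟨m, hm⟩ : ∃ m, Fintype.card W = m + 3 := ⟨Fintype.card W - 3, by omega⟩
  obtain ⟨u, v, huv⟩ : ∃ u v, R u v := by
    by_contra hcon
    push Not at hcon
    have : ∑ x, outd R x = 0 := Finset.sum_eq_zero (fun x _ => cnt_eq_zero.2 (hcon x))
    omega
  have hu1 : 1 ≤ outd R u := cnt_pos.2 ⟨v, huv⟩
  have hv1 : 1 ≤ outd R v := by rw [hbal]; exact cnt_pos.2 ⟨u, huv⟩
  have huv' : u ≠ v := by rintro rfl; exact hloop _ huv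
  have hlo : ∑ w, (3 - (m + outd R w)) ≤ 3 := by
    rcases Nat.lt_or_ge m 3 with hm3 | hm3
    · interval_cases m
      · have e1 : ∑ w, (3 - (0 + outd R w)) + ∑ w, outd R w = ∑ _w : W, 3 := by
          rw [← Finset.sum_add_distrib]
          exact Finset.sum_congr rfl (fun w _ => by have := hle w; omega)
        simp only [Finset.sum_const, Finset.card_univ, smul_eq_mul, hm, h] at e1
        omega
      · -- n = 4
        have key : ∃ w3 : W, ∀ w, outd R w = 3 → w = w3 := by
          by_cases hex : ∃ w3, outd R w3 = 3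
          · obtain ⟨w3, hw3⟩ := hex
            exact ⟨w3, fun w hw => full_unique R hbal h3 (by omega) w w3 (by omega) (by omega)⟩
          · push Not at hex
            exact ⟨u, fun w hw => absurd hw (hex w)⟩
        obtain ⟨w3, hw3⟩ := key
        have e1 : ∑ w, (3 - (1 + outd R w)) + ∑ w, outd R w ≤ ∑ w, (2 + b2n (w = w3)) := by
          rw [← Finset.sum_add_distrib]
          apply Finset.sum_le_sum
          intro w _
          have h1 := hle w
          by_cases hw : outd R w = 3
          · rw [b2n_pos (hw3 w hw)]; omega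
          · omega
        have e2 : ∑ w, b2n (w = w3) = 1 := cnt_self w3
        simp only [Finset.sum_add_distrib, Finset.sum_const, Finset.card_univ, smul_eq_mul, hm,
          h, e2] at e1
        omega
      · -- n = 5
        have e1 : ∑ w, (3 - (2 + outd R w)) + ∑ w, b2n (w = u ∨ w = v) ≤ ∑ _w : W, 1 := by
          rw [← Finset.sum_add_distrib]
          apply Finset.sum_le_sum
          intro w _
          by_cases hw : w = u ∨ w = v
          · rw [b2n_pos hw]
            rcases hw with rfl | rfl <;> omega
          · rw [b2n_neg hw]; omega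
        have e2 : ∑ w, b2n (w = u ∨ w = v) = 2 := by
          have : cnt (fun w => w = u ∨ w = v) = 2 := by
            rw [cnt_or, cnt_self, cnt_self]
            rintro w ⟨h, h'⟩
            exact huv' (h.symm.trans h')
          exact this
        simp only [Finset.sum_const, Finset.card_univ, smul_eq_mul, mul_one, hm, e2] at e1
        omega
    · rw [Finset.sum_eq_zero (fun w _ => by omega)]
      omega
  have hhi : 3 ≤ ∑ w, (3 - outd R w) := by
    have e1 : ∑ w, (3 - outd R w) + ∑ w, outd R w = ∑ _w : W, 3 := by
      rw [← Finset.sum_add_distrib]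
      exact Finset.sum_congr rfl (fun w _ => by have := hle w; omega)
    simp only [Finset.sum_const, Finset.card_univ, smul_eq_mul, hm, h] at e1
    omega
  obtain ⟨e, he, hes⟩ := Pool.Agent.Helper74.SSQ.exists_between
    (fun w => 3 - (m + outd R w)) (fun w => 3 - outd R w) (fun w => by omega) 3 hlo hhi
  have hg3 : ∀ w, e w + outd R w + m - 3 + 3 = e w + outd R w + m := by
    intro w
    have := (he w).1
    omega
  obtain ⟨N, h1, h2, h3', h4, h5, h6, h7⟩ := deferral R m 3 0 (by omega) (by omega)
    (fun w => e w + outd R w + m - 3) (by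
      intro w
      have := (he w).2
      have := hle w
      omega) (by
      have e1 := Finset.sum_congr rfl (fun w (_ : w ∈ (univ : Finset W)) => hg3 w)
      simp only [Finset.sum_add_distrib, Finset.sum_const, Finset.card_univ, smul_eq_mul,
        h, hes, hm] at e1 ⊢
      have e2 : (m + 3) * m = m * m + 3 * m := by ring
      omega)
  have hN : Defer R m 3 (fun w => e w + outd R w + m - 3) N := ⟨h1, h2, h3', h4, h5, h6⟩
  have ho : ∀ w, outd N (.inl w) + e w = 3 := by
    intro w
    have e1 := hN.outd_inl w
    have := (he w).2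
    have := (he w).1
    have := hle w
    omega
  have hkey : Good N (Fin 3) := by
    apply k3v3 N
    · rintro (w | b)
      · have e1 := hN.outd_inl w
        have e2 := hN.indg_inl w
        have e3 := hbal w
        omega
      · rw [hN.outd_inr, hN.indg_inr]
    · rintro (w | b)
      · have := ho w; omega
      · rw [hN.outd_inr]
    · rw [Fintype.sum_sum_type]
      have e1 : ∑ b : Fin m, (3 - outd N (.inr b)) = 0 :=
        Finset.sum_eq_zero (fun b _ => by have := hN.outd_inr b; omega)
      rw [e1, add_zero]
      conv_rhs => rw [← hes]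
      exact Finset.sum_congr rfl (fun w _ => by have := ho w; omega)
  exact (h7 _ hkey).equiv (finSumFinEquiv.trans (finCongr (by omega)))

theorem main_good {W : Type} [Fintype W] (R : W → W → Prop) (hbal : ∀ w, outd R w = indg R w)
    (h3 : ∀ x y z, ¬ (R x y ∧ R y z ∧ R z x)) (ε : ℕ) (hε : ε ≤ 1) :
    Good R (Fin (Fintype.card W + ε)) := by
  classical
  have hloop : ∀ w, ¬ R w w := fun w hw => h3 w w w ⟨hw, hw, hw⟩
  by_cases hne : ∃ u v, R u v
  swap
  · push Not at hne
    exact good_empty R hne ε hε
  have hlt := outd_lt_card R hloop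
  have h2mul := two_mul_le R hbal h3
  obtain ⟨u, v, huv⟩ := hne
  have hne : ∃ u v, R u v := ⟨u, v, huv⟩
  have hu1 : 1 ≤ outd R u := cnt_pos.2 ⟨v, huv⟩
  have hn2 : 2 ≤ Fintype.card W := by have := hlt u; omega
  have hρ2 : 2 ≤ ∑ w, outd R w := by have := h2mul u; omega
  obtain ⟨n, hn⟩ : ∃ n, n = Fintype.card W := ⟨_, rfl⟩
  obtain ⟨ρ, hρ⟩ : ∃ ρ, ρ = ∑ w, outd R w := ⟨_, rfl⟩
  rw [← hρ] at hρ2 h2mul
  rw [← hn] at hn2 hlt ⊢
  rcases Nat.eq_zero_or_pos ε with h0 | h0
  · -- t = 2 n
    subst h0
    rw [add_zero]
    by_cases h5 : ρ = 5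
    · rw [hn]; exact good_five R hbal h3 (by rw [← hρ]; exact h5)
    by_cases h6 : ρ = 6
    · rw [hn]; exact good_six R hbal h3 (by rw [← hρ]; exact h6)
    by_cases hstar : ∃ τ, 2 * outd R τ = ρ ∧ outd R τ % 2 = 1
    · obtain ⟨τ, h1, h2⟩ := hstar
      rw [hn]
      exact star R τ (fun v => R τ v) (hloop τ) (eq_star R hbal h3 τ (by rw [h1, hρ]))
        (outd R τ / 2) (by show outd R τ = _; omega)
    push Not at hstar
    obtain ⟨d, hd⟩ : ∃ d, d = min ((ρ + ρ % 2) / 2 / 2) (n / 2) := ⟨_, rfl⟩
    have hρ3 : 3 ≤ ρ := by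
      by_contra hcon
      have h1 := h2mul u
      exact hstar u (by omega) (by omega)
    have hd1 : 1 ≤ d := by
      rw [hd, le_min_iff]
      constructor <;> omega
    have hdn : 2 * d ≤ n := by
      have := min_le_right ((ρ + ρ % 2) / 2 / 2) (n / 2)
      omega
    have hdρ : 2 * (2 * d) ≤ ρ + ρ % 2 := by
      have := min_le_left ((ρ + ρ % 2) / 2 / 2) (n / 2)
      omega
    have hr : ∀ w, outd R w ≤ 2 * d := by
      intro w
      have h1 := h2mul w
      have h2 := hlt w
      have h4 : 2 * outd R w = ρ → outd R w % 2 = 0 := by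
        intro h; have := hstar w h; omega
      rcases min_choice ((ρ + ρ % 2) / 2 / 2) (n / 2) with h | h
      · rw [h] at hd; omega
      · rw [h] at hd; omega
    obtain ⟨m, hm⟩ : ∃ m, n = m + 2 * d := ⟨n - 2 * d, by omega⟩
    have hρ' : 2 * (2 * d) ≤ ∑ w, outd R w + 0 * (2 * d) + (∑ w, outd R w) % 2 := by
      rw [← hρ]; omega
    rcases Nat.lt_or_ge m 2 with hm2 | hm2
    · interval_cases m
      · have := regimeA R hbal hloop hne d 0 hd1 (by omega) (by omega) hρ'
        exact this.equiv (finCongr (by omega))
      · -- m = 1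
        have key : ∃ w0 : W, ∀ w, w ≠ w0 → outd R w + 1 ≤ 2 * d := by
          by_cases hex : ∃ w0, outd R w0 = 2 * d
          · obtain ⟨w0, hw0⟩ := hex
            refine ⟨w0, fun w hw => ?_⟩
            by_contra hcon
            exact hw (full_unique R hbal h3 (by omega) w w0 (by have := hr w; omega) (by omega))
          · push Not at hex
            exact ⟨u, fun w _ => by have := hex w; have := hr w; omega⟩
        obtain ⟨w0, hw0⟩ := key
        have := regimeM R hbal hloop hne d hd1 (by omega) w0 hw0 (by rw [← hρ]; exact hdρ)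
        exact this.equiv (finCongr (by omega))
    · have hρle : ρ + ρ % 2 ≤ 4 * d + 2 := by
        rcases min_choice ((ρ + ρ % 2) / 2 / 2) (n / 2) with h | h
        · rw [h] at hd; omega
        · rw [h] at hd; omega
      have hG : Good R (Fin (m + 2 * d)) := by
        rcases Nat.lt_or_ge n (4 * d) with h4 | h4
        · apply regimeB R hbal hloop hne d m 0 hd1 (by omega) (by omega) (by omega) (by omega)
            (by omega) hr _ hρ'
          rw [zero_mul, add_zero]
          have e1 := sum_pos_part (outd R) (2 * d - m) m m (fun w => by have := hr w; omega) (by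
            rw [← hρ]
            obtain ⟨h, hh⟩ : ∃ h, 2 * d = h + m := ⟨2 * d - m, by omega⟩
            have e2 : 2 * d - m = h := by omega
            rw [e2]
            have e3 : ρ ≤ 2 * (h + m) + 2 := by omega
            refine le_trans e3 ?_
            rcases Nat.lt_or_ge m 3 with h7 | h7
            · obtain rfl : m = 2 := by omega
              omega
            · nlinarith)
          refine le_trans (le_of_eq ?_) e1
          exact Finset.sum_congr rfl (fun w _ => by omega)
        · apply regimeC R hbal hloop hne d m 0 hd1 (by omega) (by omega) (by omega) hr _ hρ'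
          rw [← hρ, zero_mul, add_zero]
          rcases Nat.lt_or_ge d 2 with h7 | h7
          · obtain rfl : d = 1 := by omega
            omega
          · have e5 : ρ ≤ 4 * d + 2 := by omega
            nlinarith
      exact hG.equiv (finCongr (by omega))
  · -- t = 2 n + 1
    obtain rfl : ε = 1 := by omega
    by_cases hK : ρ + ρ % 2 ≤ n + 1
    · obtain ⟨d, hd⟩ : ∃ d, ρ + ρ % 2 = 2 * d := ⟨(ρ + ρ % 2) / 2, by omega⟩
      have hd1 : 1 ≤ d := by omega
      have hr : ∀ w, outd R w ≤ 2 * d := fun w => by have := h2mul w; omega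
      obtain ⟨m, hm⟩ : ∃ m, n + 1 = m + 2 * d := ⟨n + 1 - 2 * d, by omega⟩
      have hρ' : 2 * (2 * d) ≤ ∑ w, outd R w + 1 * (2 * d) + (∑ w, outd R w) % 2 := by
        rw [← hρ]; omega
      rcases Nat.eq_zero_or_pos m with hm0 | hm0
      · have := regimeA R hbal hloop hne d 1 hd1 (by omega) (by omega) hρ'
        exact this.equiv (finCongr (by omega))
      · have hG : Good R (Fin (m + 2 * d)) := by
          rcases Nat.lt_or_ge n (4 * d) with h4 | h4
          · apply regimeB R hbal hloop hne d m 1 hd1 (by omega) (by omega) (by omega) (by omega)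
              (by omega) hr _ hρ'
            rw [one_mul]
            rcases Nat.lt_or_ge m 2 with hm2 | hm2
            · obtain rfl : m = 1 := by omega
              rw [Finset.sum_eq_zero (fun w _ => by have := hlt w; omega)]
            · have e1 := sum_pos_part (outd R) (2 * d - m) m (m - 1)
                (fun w => by have := hr w; omega) (by
                rw [← hρ]
                obtain ⟨h, hh⟩ : ∃ h, 2 * d = h + m := ⟨2 * d - m, by omega⟩
                obtain ⟨c, rfl⟩ : ∃ c, m = c + 1 := ⟨m - 1, by omega⟩
                have e2 : 2 * d - (c + 1) = h := by omega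
                have e4 : c + 1 - 1 = c := by omega
                rw [e2, e4]
                have e3 : ρ ≤ h + (c + 1) := by omega
                refine le_trans e3 ?_
                nlinarith)
              have e2 : ∑ w, (outd R w + m - 2 * d) = ∑ w, (outd R w - (2 * d - m)) :=
                Finset.sum_congr rfl (fun w _ => by omega)
              rw [e2]
              obtain ⟨c, rfl⟩ : ∃ c, m = c + 1 := ⟨m - 1, by omega⟩
              have e4 : c + 1 - 1 = c := by omega
              rw [e4] at e1
              nlinarith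
          · apply regimeC R hbal hloop hne d m 1 hd1 (by omega) (by omega) (by omega) hr _ hρ'
            rw [← hρ, one_mul]
            have e5 : ρ ≤ 2 * d := by omega
            nlinarith
        exact hG.equiv (finCongr (by omega))
    · rcases Nat.mod_two_eq_zero_or_one n with hpar | hpar
      · -- n even, m = 1
        obtain ⟨d, hd⟩ : ∃ d, n = 2 * d := ⟨n / 2, by omega⟩
        have hG : Good R (Fin (1 + 2 * d)) := by
          apply regimeB R hbal hloop hne d 1 1 (by omega) (by omega) (by omega) (by omega)
            (by omega) (by omega) (fun w => by have := hlt w; omega)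
          · rw [Finset.sum_eq_zero (fun w _ => by have := hlt w; omega)]
          · rw [← hρ]; omega
        exact hG.equiv (finCongr (by omega))
      · obtain ⟨d, hd⟩ : ∃ d, n + 1 = 2 * d := ⟨(n + 1) / 2, by omega⟩
        have := regimeA R hbal hloop hne d 1 (by omega) (by omega) (by omega) (by
          rw [← hρ]; omega)
        exact this.equiv (finCongr (by omega))

end Pool.Agent.Helper40.SSQ
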