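import Pool.Agent.Helper40.SSQ.Defs

set_option autoImplicit false

namespace Pool.Agent.Helper40.SSQ

theorem pss_walk {X : Type} (x y z : X) :
    PSS (fun a b c => (a = x ∧ b = y ∧ c = z) ∨ (a = y ∧ b = z ∧ c = x) ∨
      (a = z ∧ b = x ∧ c = y)) := by
  refine ⟨?_, ?_⟩
  · rintro a b c (⟨rfl, rfl, rfl⟩ | ⟨rfl, rfl, rfl⟩ | ⟨rfl, rfl, rfl⟩) <;> simp
  · rintro a b c c' (⟨rfl, rfl, rfl⟩ | ⟨rfl, rfl, rfl⟩ | ⟨rfl, rfl, rfl⟩)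
      (⟨h1, h2, rfl⟩ | ⟨h1, h2, rfl⟩ | ⟨h1, h2, rfl⟩) <;> simp_all

theorem exists_max {X : Type} [Fintype X] (T : X → X → X → Prop) (hT : PSS T) :
    ∃ T' : X → X → X → Prop, PSS T' ∧ (∀ x y z, T x y z → T' x y z) ∧
      ∀ x y z, Dom T' x y ∨ Dom T' y z ∨ Dom T' z x := by
  classical
  obtain ⟨T', hTT', hmax⟩ := (Set.toFinite {T' : X → X → X → Prop | PSS T'}).exists_le_maximal
    (a := T) hT
  refine ⟨T', hmax.prop, hTT', ?_⟩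
  intro x y z
  by_contra hcon
  push Not at hcon
  obtain ⟨h1, h2, h3⟩ := hcon
  have hd : ∀ a b, Dom T' a b → ¬ Dom (fun a b c => (a = x ∧ b = y ∧ c = z) ∨
      (a = y ∧ b = z ∧ c = x) ∨ (a = z ∧ b = x ∧ c = y)) a b := by
    rintro a b hab ⟨c, ⟨rfl, rfl, -⟩ | ⟨rfl, rfl, -⟩ | ⟨rfl, rfl, -⟩⟩
    · exact h1 hab
    · exact h2 hab
    · exact h3 hab
  have hle := hmax.le_of_ge (hmax.prop.union (pss_walk x y z) hd) (fun a b c h => Or.inl h)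
  exact h1 ⟨z, hle x y z (Or.inr (Or.inl ⟨rfl, rfl, rfl⟩))⟩

end Pool.Agent.Helper40.SSQ
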