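import Mathlib
import Pool.Agent.Helper40.SSQ.Defs
import Pool.Agent.Helper40.SSQ.MainGood
import Pool.Agent.Helper40.SSQ.MaxT
import Pool.Agent.Helper74.SSQ.Step

set_option autoImplicit false

namespace Pool.Agent.Helper40.SSQ

open Finset

/-- a triple system on the left summand -/
def liftL {X : Type} (C : Type) (T : X → X → X → Prop) : X ⊕ C → X ⊕ C → X ⊕ C → Prop
  | .inl x, .inl y, .inl z => T x y z
  | _, _, _ => False

theorem liftL_pss {X C : Type} {T : X → X → X → Prop} (hT : PSS T) : PSS (liftL C T) := by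
  refine ⟨?_, ?_⟩
  · rintro (x | x) (y | y) (z | z) h
    · exact hT.rot _ _ _ h
    all_goals exact h.elim
  · rintro (x | x) (y | y) (z | z) (z' | z') h h'
    · exact congrArg Sum.inl (hT.func _ _ _ _ h h')
    all_goals first | exact h.elim | exact h'.elim

theorem liftL_dom {X C : Type} {T : X → X → X → Prop} (x y : X ⊕ C) :
    Dom (liftL C T) x y ↔ ∃ a b, x = .inl a ∧ y = .inl b ∧ Dom T a b := by
  constructor
  · rintro ⟨z, h⟩
    rcases x with x | x <;> rcases y with y | y <;> rcases z with z | z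
    · exact ⟨x, y, rfl, rfl, z, h⟩
    all_goals exact h.elim
  · rintro ⟨a, b, rfl, rfl, z, h⟩
    exact ⟨.inl z, h⟩

theorem embed {X : Type} [Fintype X] (T : X → X → X → Prop) (hT : PSS T) (t : ℕ)
    (ht : 2 * Fintype.card X ≤ t) :
    ∃ (W : Type) (_ : Fintype W) (T' : W → W → W → Prop), PSS T' ∧ (∀ x y, Dom T' x y) ∧
      Fintype.card W = t ∧ ∃ ι : X → W, Function.Injective ι ∧
        ∀ x y z, T x y z → T' (ι x) (ι y) (ι z) := by
  classical
  obtain ⟨j, hj⟩ : ∃ j, t / 2 = Fintype.card X + j := ⟨t / 2 - Fintype.card X, by omega⟩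
  obtain ⟨T1, hT1, hext, hmax⟩ := exists_max (liftL (Fin j) T) (liftL_pss hT)
  have hbal : ∀ w, outd (fun x y => ¬ Dom T1 x y) w = indg (fun x y => ¬ Dom T1 x y) w := by
    intro w
    have h1 := Pool.Agent.Helper74.SSQ.odeg_eq_ideg T1
      ⟨hT1.rot, hT1.func⟩ w
    unfold Pool.Agent.Helper74.SSQ.odeg Pool.Agent.Helper74.SSQ.ideg at h1
    rw [← cnt_eq_card, ← cnt_eq_card] at h1
    exact h1
  obtain ⟨T2, hT2, hdom2⟩ := main_good (fun x y => ¬ Dom T1 x y) hbal (by
    rintro x y z ⟨h1, h2, h3⟩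
    rcases hmax x y z with h | h | h
    · exact h1 h
    · exact h2 h
    · exact h3 h) (t % 2) (by omega)
  have hdis : ∀ x y, Dom (liftL (Fin (Fintype.card (X ⊕ Fin j) + t % 2)) T1) x y →
      ¬ Dom T2 x y := by
    intro x y h
    rw [liftL_dom] at h
    obtain ⟨a, b, rfl, rfl, h⟩ := h
    rw [hdom2]
    simp only [G]
    exact not_not.2 h
  refine ⟨_, inferInstance, _, (liftL_pss hT1).union hT2 hdis, ?_, ?_, fun x => .inl (.inl x), ?_,
    ?_⟩
  · intro x y
    rw [Dom_union, liftL_dom, hdom2]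
    rcases x with x | x <;> rcases y with y | y
    · by_cases h : Dom T1 x y
      · exact Or.inl ⟨x, y, rfl, rfl, h⟩
      · exact Or.inr h
    all_goals exact Or.inr trivial
  · simp only [Fintype.card_sum, Fintype.card_fin]
    omega
  · intro a b h
    exact Sum.inl.inj (Sum.inl.inj h)
  · intro x y z h
    exact Or.inl (hext _ _ _ h)

end Pool.Agent.Helper40.SSQ
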